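import Pool.Agent.TH132.U.HDefs

/-!
# Sorting the factors of a product
-/

set_option autoImplicit false

open CategoryTheory AlgebraicGeometry TensorProduct

universe u

namespace Pool.Agent.TH132.U

open Pool.Agent.H914 Pool.Agent.H914.VarClass Pool.Agent.H914.VarClass.Obj

variable {k : Type u} [Field k] {𝒱 : VarClass k}

lemma prod_hom_ext {W X Y : 𝒱.Obj} {f g : W ⟶ X.prod Y} (h1 : f ≫ fst X Y = g ≫ fst X Y)
    (h2 : f ≫ snd X Y = g ≫ snd X Y) : f = g :=
  SmVar.hom_ext (Limits.pullback.hom_ext (congrArg SmVar.Hom.hom h1) (congrArg SmVar.Hom.hom h2))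

/-- `C` is a retract of `D`. -/
def Retr (C D : 𝒱.Obj) : Prop := ∃ (f : C ⟶ D) (g : D ⟶ C), f ≫ g = 𝟙 C

lemma Retr.refl (C : 𝒱.Obj) : Retr C C := ⟨𝟙 C, 𝟙 C, Category.comp_id _⟩

lemma Retr.trans {C D E : 𝒱.Obj} (h : Retr C D) (h' : Retr D E) : Retr C E := by
  obtain ⟨f, g, h1⟩ := h
  obtain ⟨f', g', h2⟩ := h'
  refine ⟨f ≫ f', g' ≫ g, ?_⟩
  rw [Category.assoc, ← Category.assoc f', h2, Category.id_comp, h1]

lemma Retr.prod {C C' D D' : 𝒱.Obj} (h : Retr C D) (h' : Retr C' D') :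
    Retr (C.prod C') (D.prod D') := by
  obtain ⟨f, g, h1⟩ := h
  obtain ⟨f', g', h2⟩ := h'
  refine ⟨lift (fst C C' ≫ f) (snd C C' ≫ f'), lift (fst D D' ≫ g) (snd D D' ≫ g'), ?_⟩
  refine prod_hom_ext ?_ ?_
  · rw [Category.assoc, lift_fst, lift_fst_assoc, Category.assoc, h1, Category.comp_id,
      Category.id_comp]
  · rw [Category.assoc, lift_snd, lift_snd_assoc, Category.assoc, h2, Category.comp_id,
      Category.id_comp]

lemma retr_swap (A B : 𝒱.Obj) : Retr (A.prod B) (B.prod A) :=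
  ⟨lift (snd A B) (fst A B), lift (snd B A) (fst B A), by
    refine prod_hom_ext ?_ ?_ <;> simp⟩

lemma retr_assoc (A B C : 𝒱.Obj) : Retr (A.prod (B.prod C)) ((A.prod B).prod C) :=
  ⟨lift (lift (fst A (B.prod C)) (snd A (B.prod C) ≫ fst B C)) (snd A (B.prod C) ≫ snd B C),
    lift (fst (A.prod B) C ≫ fst A B) (lift (fst (A.prod B) C ≫ snd A B) (snd (A.prod B) C)), by
    refine prod_hom_ext ?_ (prod_hom_ext ?_ ?_) <;> simp⟩

lemma retr_assoc' (A B C : 𝒱.Obj) : Retr ((A.prod B).prod C) (A.prod (B.prod C)) :=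
  ⟨lift (fst (A.prod B) C ≫ fst A B) (lift (fst (A.prod B) C ≫ snd A B) (snd (A.prod B) C)),
    lift (lift (fst A (B.prod C)) (snd A (B.prod C) ≫ fst B C)) (snd A (B.prod C) ≫ snd B C), by
    refine prod_hom_ext (prod_hom_ext ?_ ?_) ?_ <;> simp⟩

/-- `C` is a product of members with index in `S ∩ T`, or in `S` and not in `T`, or a retract of a
product of two such products. -/
def Sorted {κ : Type} (Y : κ → 𝒱.Obj) (S T : Set κ) (C : 𝒱.Obj) : Prop :=
  IsProd Y (S ∩ T) C ∨ IsProd Y (S ∩ Tᶜ) C ∨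
    ∃ A B, IsProd Y (S ∩ T) A ∧ IsProd Y (S ∩ Tᶜ) B ∧ Retr C (A.prod B)

theorem sort {κ : Type} (Y : κ → 𝒱.Obj) (T : Set κ) {S : Set κ} {C : 𝒱.Obj}
    (h : IsProd Y S C) : Sorted Y S T C := by
  induction h with
  | one i hS =>
    by_cases hi : i ∈ T
    · exact Or.inl (IsProd.one i ⟨hS, hi⟩)
    · exact Or.inr (Or.inl (IsProd.one i ⟨hS, hi⟩))
  | prod C D _ _ ihC ihD =>
    rcases ihC with hC | hC | ⟨A, B, hA, hB, hC⟩ <;> rcases ihD with hD | hD | ⟨A', B', hA', hB', hD⟩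
    · exact Or.inl (IsProd.prod C D hC hD)
    · exact Or.inr (Or.inr ⟨C, D, hC, hD, Retr.refl _⟩)
    · exact Or.inr (Or.inr ⟨C.prod A', B', IsProd.prod C A' hC hA', hB',
        ((Retr.refl C).prod hD).trans (retr_assoc C A' B')⟩)
    · exact Or.inr (Or.inr ⟨D, C, hD, hC, retr_swap C D⟩)
    · exact Or.inr (Or.inl (IsProd.prod C D hC hD))
    · refine Or.inr (Or.inr ⟨A', B'.prod C, hA', IsProd.prod B' C hB' hC, ?_⟩)
      exact (((Retr.refl C).prod hD).trans (retr_swap C _)).trans (retr_assoc' A' B' C)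
    · refine Or.inr (Or.inr ⟨D.prod A, B, IsProd.prod D A hD hA, hB, ?_⟩)
      exact ((hC.prod (Retr.refl D)).trans (retr_swap _ D)).trans (retr_assoc D A B)
    · refine Or.inr (Or.inr ⟨A, B.prod D, hA, IsProd.prod B D hB hD, ?_⟩)
      exact (hC.prod (Retr.refl D)).trans (retr_assoc' A B D)
    · refine Or.inr (Or.inr ⟨A.prod A', B.prod B', IsProd.prod A A' hA hA',
        IsProd.prod B B' hB hB', ?_⟩)
      have h1 : Retr ((A.prod B).prod (A'.prod B')) ((A.prod A').prod (B.prod B')) := by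
        refine ⟨lift (lift (fst _ _ ≫ fst _ _) (snd _ _ ≫ fst _ _))
          (lift (fst _ _ ≫ snd _ _) (snd _ _ ≫ snd _ _)),
          lift (lift (fst _ _ ≫ fst _ _) (snd _ _ ≫ fst _ _))
          (lift (fst _ _ ≫ snd _ _) (snd _ _ ≫ snd _ _)), ?_⟩
        refine prod_hom_ext (prod_hom_ext ?_ ?_) (prod_hom_ext ?_ ?_) <;> simp
      exact (hC.prod hD).trans h1

lemma IsProd.mono {κ : Type} {Y : κ → 𝒱.Obj} {S T : Set κ} (h : S ⊆ T) {C : 𝒱.Obj}
    (hC : IsProd Y S C) : IsProd Y T C := by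
  induction hC with
  | one i hi => exact IsProd.one i (h hi)
  | prod A B _ _ ihA ihB => exact IsProd.prod A B ihA ihB

lemma isProd_of_some {ι : Type} {X : ι → 𝒱.Obj} {Z : 𝒱.Obj} {S : Set (Option ι)} {T : Set ι}
    (hS : ∀ o ∈ S, ∃ i ∈ T, o = some i) {C : 𝒱.Obj} (h : IsProd (adjoin Z X) S C) :
    IsProd X T C := by
  induction h with
  | one o ho =>
    obtain ⟨i, hi, rfl⟩ := hS o ho
    exact IsProd.one (X := X) i hi
  | prod A B _ _ ihA ihB => exact IsProd.prod A B ihA ihB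

lemma isProd_some {ι : Type} {X : ι → 𝒱.Obj} {Z : 𝒱.Obj} {S : Set (Option ι)} {T : Set ι}
    (hS : ∀ i ∈ T, some i ∈ S) {C : 𝒱.Obj} (h : IsProd X T C) :
    IsProd (adjoin Z X) S C := by
  induction h with
  | one i hi => exact IsProd.one (X := adjoin Z X) (some i) (hS i hi)
  | prod A B _ _ ihA ihB => exact IsProd.prod A B ihA ihB

lemma isProd_none {ι : Type} {X : ι → 𝒱.Obj} {Z : 𝒱.Obj} {S : Set (Option ι)}
    (hS : ∀ o ∈ S, o = none) {C : 𝒱.Obj} (h : IsProd (adjoin Z X) S C) :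
    IsProd (fun _ : Unit => Z) Set.univ C := by
  induction h with
  | one o ho =>
    obtain rfl := hS o ho
    exact IsProd.one (X := fun _ : Unit => Z) () trivial
  | prod A B _ _ ihA ihB => exact IsProd.prod A B ihA ihB

/-- The three cases for a product of copies of `Z` and of members of the family. -/
lemma sort_adjoin {ι : Type} (Z : 𝒱.Obj) (X : ι → 𝒱.Obj) (E : Set ι) {C : 𝒱.Obj}
    (h : IsProd (adjoin Z X) Set.univ C) :
    IsProd X Eᶜ C ∨ IsProd (adjoin Z X) (indices E) C ∨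
      ∃ A D, IsProd X Eᶜ A ∧ IsProd (adjoin Z X) (indices E) D ∧ Retr C (A.prod D) := by
  have h1 : ∀ o ∈ (Set.univ ∩ (indices E)ᶜ : Set (Option ι)), ∃ i ∈ Eᶜ, o = some i := by
    rintro o ⟨_, ho⟩
    rw [indices, Set.mem_compl_iff, Set.mem_ofPred_eq] at ho
    push Not at ho
    obtain ⟨i, rfl, hi⟩ := ho
    exact ⟨i, hi, rfl⟩
  rcases sort (adjoin Z X) (indices E) h with h | h | ⟨A, B, hA, hB, hr⟩
  · exact Or.inr (Or.inl (h.mono Set.inter_subset_right))
  · exact Or.inl (isProd_of_some h1 h)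
  · exact Or.inr (Or.inr ⟨B, A, isProd_of_some h1 hB, hA.mono Set.inter_subset_right,
      hr.trans (retr_swap A B)⟩)

/-- The three cases for a product of copies of `Z` and of members with index in `E`. -/
lemma sort_indices {ι : Type} (Z : 𝒱.Obj) (X : ι → 𝒱.Obj) (E : Set ι) {D : 𝒱.Obj}
    (h : IsProd (adjoin Z X) (indices E) D) :
    IsProd (fun _ : Unit => Z) Set.univ D ∨ IsProd X E D ∨
      ∃ B M, IsProd X E B ∧ IsProd (fun _ : Unit => Z) Set.univ M ∧ Retr D (B.prod M) := by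
  have h1 : ∀ o ∈ (indices E ∩ ({none} : Set (Option ι))ᶜ : Set (Option ι)),
      ∃ i ∈ E, o = some i := by
    rintro o ⟨ho, ho'⟩
    cases o with
    | none => exact absurd rfl ho'
    | some i => exact ⟨i, ho i rfl, rfl⟩
  have h2 : ∀ o ∈ (indices E ∩ ({none} : Set (Option ι)) : Set (Option ι)), o = none :=
    fun o ho => ho.2
  rcases sort (adjoin Z X) ({none} : Set (Option ι)) h with h | h | ⟨A, B, hA, hB, hr⟩
  · exact Or.inl (isProd_none h2 h)
  · exact Or.inr (Or.inl (isProd_of_some h1 h))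
  · exact Or.inr (Or.inr ⟨B, A, isProd_of_some h1 hB, isProd_none h2 hA,
      hr.trans (retr_swap A B)⟩)

/-- The three cases for a product of copies of `Z` and of members with index in `T` or in `E`. -/
lemma sort_union {ι : Type} (Z : 𝒱.Obj) (X : ι → 𝒱.Obj) (T E : Set ι) {C : 𝒱.Obj}
    (h : IsProd (adjoin Z X) (indices (T ∪ E)) C) :
    IsProd X T C ∨ IsProd (adjoin Z X) (indices E) C ∨
      ∃ A D, IsProd X T A ∧ IsProd (adjoin Z X) (indices E) D ∧ Retr C (A.prod D) := by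
  have h1 : ∀ o ∈ (indices (T ∪ E) ∩ (indices E)ᶜ : Set (Option ι)), ∃ i ∈ T, o = some i := by
    rintro o ⟨ho', ho⟩
    rw [indices, Set.mem_compl_iff, Set.mem_ofPred_eq] at ho
    push Not at ho
    obtain ⟨i, rfl, hi⟩ := ho
    exact ⟨i, (ho' i rfl).resolve_right hi, rfl⟩
  rcases sort (adjoin Z X) (indices E) h with h | h | ⟨A, B, hA, hB, hr⟩
  · exact Or.inr (Or.inl (h.mono Set.inter_subset_right))
  · exact Or.inl (isProd_of_some h1 h)
  · exact Or.inr (Or.inr ⟨B, A, isProd_of_some h1 hB, hA.mono Set.inter_subset_right,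
      hr.trans (retr_swap A B)⟩)

end Pool.Agent.TH132.U
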