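import Pool.Agent.TH132.U.HMain
import Pool.Agent.TH132.U.Sort

/-!
# Fullness of the realization on the motives of products
-/

set_option autoImplicit false

open CategoryTheory AlgebraicGeometry TensorProduct

universe u

namespace Pool.Agent.TH132.U

open Pool.Agent.H914 Pool.Agent.H914.VarClass Pool.Agent.H914.VarClass.Obj
  Pool.Agent.H914.WeilCohomology Pool.Agent.TH132.E

variable {k : Type u} [Field k] {𝒱 : VarClass k} {ops : CycleOps 𝒱}
  {W : WeilCohomology.{u, 0} ops} [Algebra W.K ℂ]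

lemma one_mem_class {𝓗 : HodgeTheory W} {S : Classes W} (hS : ClassSystem 𝓗 S) (X : 𝒱.Obj) :
    (1 : W.H X) ∈ S X 0 := by
  obtain ⟨a, ha, h1⟩ := hS.point X
  have h2 := hS.stableMul.2 (X.prod X) X (fst X X) _ a ha
  have h3 := hS.stablePush (X.prod X) X (snd X X) X.dim 0 (by rw [dim_prod]; ring) _ h2
  rwa [W.push_snd', h1, one_smul] at h3

/-- The class of the diagonal. -/
noncomputable def dl (W : WeilCohomology.{u, 0} ops) (X : 𝒱.Obj) : W.H (X.prod X) :=
  W.push (diag X) 1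

omit [Algebra W.K ℂ] in
lemma corr_dl (X : 𝒱.Obj) : W.corr (dl W X) = LinearMap.id := by
  ext a
  rw [dl, corr_diag, one_mul, LinearMap.id_apply]

lemma dl_mem {𝓗 : HodgeTheory W} {S : Classes W} (hS : ClassSystem 𝓗 S) (X : 𝒱.Obj) :
    dl W X ∈ S (X.prod X) X.dim :=
  hS.stablePush X (X.prod X) (diag X) 0 X.dim (by rw [dim_prod]; ring) 1 (one_mem_class hS X)

/-- The motive of a variety with a twist. -/
noncomputable def mot {𝓗 : HodgeTheory W} {S : Classes W} (hS : ClassSystem 𝓗 S) (X : 𝒱.Obj)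
    (m : ℤ) : Motive S where
  X := X
  p := dl W X
  m := m
  isProjector := ⟨dl_mem hS X, by rw [corr_dl, LinearMap.id_comp]⟩

omit [Algebra W.K ℂ] in
lemma corr_eq_fm {X Y : 𝒱.Obj} {j : ℕ} {t : W.H (X.prod Y)} (ht : t ∈ W.gr (X.prod Y) (2 * j)) :
    W.corr t = fm W X Y t := by
  ext a
  rw [corr_apply, fm_apply, W.even_comm ht]

lemma fH_shift {a b a' b' : ℕ} {n : ℤ} (h1 : (a' : ℤ) = a + n) (h2 : (b' : ℤ) = b + n) :
    fH (a', b') = 6 ^ n * fH (a, b) := by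
  have e2 : (2 : ℂ) ≠ 0 := by norm_num
  have e3 : (3 : ℂ) ≠ 0 := by norm_num
  rw [fH, fH, ← zpow_natCast (2 : ℂ) a', ← zpow_natCast (3 : ℂ) b', h1, h2,
    zpow_add₀ e2, zpow_add₀ e3, show (6 : ℂ) = 2 * 3 by norm_num, mul_zpow, zpow_natCast,
    zpow_natCast]
  ring

lemma fH_shift' {a b a' b' : ℕ} {n : ℤ} (h : fH (a', b') = 6 ^ n * fH (a, b)) :
    (a' : ℤ) = a + n ∧ (b' : ℤ) = b + n := by
  rcases Int.eq_nat_or_neg n with ⟨m, rfl | rfl⟩
  · have h1 : fH (a', b') = fH (a + m, b + m) := by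
      rw [h, fH_shift (a := a) (b := b) (a' := a + m) (b' := b + m) (n := m) (by push_cast; rfl)
        (by push_cast; rfl)]
    have h2 := fH_injective h1
    have e1 := congrArg Prod.fst h2
    have e2 := congrArg Prod.snd h2
    simp only at e1 e2
    constructor <;> omega
  · have h1 : fH (a' + m, b' + m) = fH (a, b) := by
      rw [fH_shift (a := a') (b := b') (a' := a' + m) (b' := b' + m) (n := m) (by push_cast; rfl)
        (by push_cast; rfl), h, ← mul_assoc, ← zpow_add₀ (by norm_num), add_neg_cancel, zpow_zero,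
        one_mul]
    have h2 := fH_injective h1
    have e1 := congrArg Prod.fst h2
    have e2 := congrArg Prod.snd h2
    simp only at e1 e2
    constructor <;> omega

/-- The types of the values. -/
def shiftComp (𝓗 : HodgeTheory W) (Y : 𝒱.Obj) (m n : ℤ) (a b : ℕ) :
    Submodule ℂ (ℂ ⊗[W.K] W.H Y) :=
  ⨆ (a' : ℕ) (b' : ℕ) (_ : (a' : ℤ) - n = a - m) (_ : (b' : ℤ) - n = b - m), 𝓗.comp Y (a', b')

lemma shiftComp_eigen (𝓗 : HodgeTheory W) {Y : 𝒱.Obj} {m n : ℤ} {a b : ℕ}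
    {y : ℂ ⊗[W.K] W.H Y} (h : y ∈ shiftComp 𝓗 Y m n a b) :
    hodgeOp 𝓗 Y y = (6 ^ (n - m) * fH (a, b)) • y := by
  have h1 : shiftComp 𝓗 Y m n a b ≤ LinearMap.eqLocus (hodgeOp 𝓗 Y).toLinearMap
      ((6 ^ (n - m) * fH (a, b)) • LinearMap.id) := by
    refine iSup_le fun a' => iSup_le fun b' => iSup_le fun h1 => iSup_le fun h2 => ?_
    intro x hx
    have h3 : hodgeOp 𝓗 Y x = fH (a', b') • x := by
      rw [hodgeOp_apply, scalG_apply _ _ hx]
    have h4 : fH (a', b') = 6 ^ (n - m) * fH (a, b) := fH_shift (by omega) (by omega)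
    rw [LinearMap.mem_eqLocus, AlgHom.toLinearMap_apply, h3, h4]
    rfl
  exact h1 h

lemma eigen_shiftComp (𝓗 : HodgeTheory W) {Y : 𝒱.Obj} {m n : ℤ} {a b : ℕ}
    {y : ℂ ⊗[W.K] W.H Y} (h : hodgeOp 𝓗 Y y = (6 ^ (n - m) * fH (a, b)) • y) :
    y ∈ shiftComp 𝓗 Y m n a b := by
  by_cases hy : y = 0
  · rw [hy]
    exact Submodule.zero_mem _
  · obtain ⟨⟨a', b'⟩, hp, hpy⟩ := eigen_mem ((𝓗.isHodgeDecomp Y).isInternal) fH_injective h hy
    obtain ⟨h1, h2⟩ := fH_shift' hp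
    refine Submodule.mem_iSup_of_mem a' (Submodule.mem_iSup_of_mem b'
      (Submodule.mem_iSup_of_mem (by omega) (Submodule.mem_iSup_of_mem (by omega) hpy)))

/-- A linear map with the right types is compatible with the Hodge operators, and conversely. -/
lemma types_iff (𝓗 : HodgeTheory W) {X Y : 𝒱.Obj} {m n : ℤ} {f : W.H X →ₗ[W.K] W.H Y} :
    (∀ a b, ∀ x ∈ 𝓗.comp X (a, b), f.baseChange ℂ x ∈ shiftComp 𝓗 Y m n a b) ↔
      TMap {(Set.univ : Set Unit)} (fun _ => (6 : ℂ)) (m - n) (opSp (ovar 𝓗 X))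
        (opSp (ovar 𝓗 Y)) f := by
  have h6 : (6 : ℂ) ≠ 0 := by norm_num
  constructor
  · intro h
    refine ⟨Set.univ, rfl, fun o x => ?_⟩
    have key : ∀ x : ℂ ⊗[W.K] W.H X, f.baseChange ℂ (hodgeOp 𝓗 X x) =
        (6 : ℂ) ^ (m - n) • hodgeOp 𝓗 Y (f.baseChange ℂ x) := by
      intro x
      refine grG_induction ((𝓗.isHodgeDecomp X).isInternal) (p := fun x =>
        f.baseChange ℂ (hodgeOp 𝓗 X x) =
          (6 : ℂ) ^ (m - n) • hodgeOp 𝓗 Y (f.baseChange ℂ x)) ?_ ?_ ?_ x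
      · simp only [map_zero, smul_zero]
      · rintro ⟨a, b⟩ x hx
        have h1 := shiftComp_eigen 𝓗 (h a b x hx)
        rw [h1, hodgeOp_apply, scalG_apply _ _ hx, map_smul, smul_smul, ← mul_assoc,
          ← zpow_add₀ h6]
        congr 1
        have : m - n + (n - m) = 0 := by ring
        rw [this, zpow_zero, one_mul]
      · intro x y hx hy
        simp only [map_add, hx, hy, smul_add]
    exact key x
  · rintro ⟨D, hD, h⟩ a b x hx
    rw [Set.mem_singleton_iff] at hD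
    subst hD
    have h1 : f.baseChange ℂ (hodgeOp 𝓗 X x) =
      (6 : ℂ) ^ (m - n) • hodgeOp 𝓗 Y (f.baseChange ℂ x) := h ⟨(), trivial⟩ x
    rw [hodgeOp_apply, scalG_apply _ _ hx, map_smul] at h1
    apply eigen_shiftComp
    rw [mul_smul, h1, smul_smul, ← zpow_add₀ h6]
    have : n - m + (m - n) = 0 := by ring
    rw [this, zpow_zero, one_smul]

/-- Fullness in terms of Hodge classes. -/
theorem full_iff (𝓗 : HodgeTheory W) {S : Classes W} (hS : ClassSystem 𝓗 S)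
    {P : 𝒱.Obj → Prop} :
    𝓗.Full S P ↔ ∀ X Y, P X → P Y → 𝓗.AllIn S (X.prod Y) := by
  have hc : ∀ _ : Unit, (6 : ℂ) ≠ 0 := fun _ => by norm_num
  have hL : Directed' ({Set.univ} : Set (Set Unit)) := ⟨Set.singleton_nonempty _, by
    intro D hD D' hD'
    rw [Set.mem_singleton_iff] at hD hD'
    subst hD hD'
    exact ⟨Set.univ, rfl, by simp⟩⟩
  have hcl := oclass_hodge 𝓗
  constructor
  · intro h X Y hX hY j t ht
    have hg : t ∈ W.gr (X.prod Y) (2 * j) := hodge_mem_gr 𝓗 ht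
    have h1 : TMap {(Set.univ : Set Unit)} (fun _ => (6 : ℂ)) (X.dim - j) (opSp (ovar 𝓗 X))
        (opSp (ovar 𝓗 Y)) (fm W X Y t) :=
      fm_tmap (A := ovar 𝓗 X) (B := ovar 𝓗 Y) hL hc (hcl.tr _ ⟨X, rfl⟩) (prodAct_ovar 𝓗 X Y)
        (tvec_hodge 𝓗 (X := X.prod Y) ht)
    have h2 : (X.dim : ℤ) - j = 0 - (j - X.dim) := by ring
    rw [h2] at h1
    have h3 := (types_iff 𝓗 (m := 0) (n := j - X.dim)).2 h1
    have h4 : 𝓗.IsHom (mot hS X 0) (mot hS Y (j - X.dim)) (fm W X Y t) := by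
      refine ⟨?_, h3⟩
      change fm W X Y t = W.corr (dl W Y) ∘ₗ fm W X Y t ∘ₗ W.corr (dl W X)
      rw [corr_dl, corr_dl, LinearMap.id_comp, LinearMap.comp_id]
    have key : ∀ t' : W.H (X.prod Y), InDegree (S (X.prod Y)) (X.dim + (j - X.dim) - 0) t' →
        fm W X Y t = W.corr (dl W Y) ∘ₗ W.corr t' ∘ₗ W.corr (dl W X) → t ∈ S (X.prod Y) j := by
      intro t' ht' h6
      rw [corr_dl, corr_dl, LinearMap.id_comp, LinearMap.comp_id] at h6
      rcases ht' with rfl | ⟨j', hj', ht'⟩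
      · rw [corr_eq_fm (j := 0) (Submodule.zero_mem _)] at h6
        rw [fm_injective W h6]
        exact Submodule.zero_mem _
      · obtain rfl : j' = j := by omega
        rw [corr_eq_fm (hodge_mem_gr 𝓗 (hS.isHodge _ _ _ ht'))] at h6
        rw [fm_injective W h6]
        exact ht'
    obtain ⟨t', ht', h5⟩ := h (mot hS X 0) (mot hS Y (j - X.dim)) hX hY _ h4
    exact key t' ht' h5
  · rintro h M N hM hN f ⟨hf1, hf2⟩
    have h1 := (types_iff 𝓗 (m := M.m) (n := N.m) (f := f)).1 hf2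
    obtain ⟨t, ht⟩ := (fm_bijective W (A := M.X) (B := N.X)).2 f
    have h2 : TVec {(Set.univ : Set Unit)} (fun _ => (6 : ℂ)) (ovar 𝓗 (M.X.prod N.X))
        (M.X.dim - (M.m - N.m)) t :=
      tmap_fm (A := ovar 𝓗 M.X) (B := ovar 𝓗 N.X) hc (hcl.tr _ ⟨M.X, rfl⟩)
        (prodAct_ovar 𝓗 M.X N.X) (by rw [← ht] at h1; exact h1)
    rcases hodge_tvec 𝓗 h2 with h3 | ⟨j, hj, hjt⟩
    · refine ⟨t, Or.inl h3, ?_⟩
      rw [IsComp, h3, corr_eq_fm (j := 0) (Submodule.zero_mem _), ← h3, ht]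
      exact hf1
    · refine ⟨t, Or.inr ⟨j, by omega, h M.X N.X hM hN j hjt⟩, ?_⟩
      rw [IsComp, corr_eq_fm (hodge_mem_gr 𝓗 hjt), ht]
      exact hf1

section Retract

lemma isHodge_map (𝓗 : HodgeTheory W) {X Y : 𝒱.Obj} (f : X ⟶ Y) {j : ℕ} {a : W.H Y}
    (ha : a ∈ 𝓗.hodge Y j) : W.map f a ∈ 𝓗.hodge X j := by
  have h1 := 𝓗.isHodgeMap f (j, j) _ ha
  rw [Algebra.TensorProduct.map_tmul, AlgHom.id_apply] at h1
  exact h1

lemma allIn_retr {𝓗 : HodgeTheory W} {S : Classes W} (hS : ClassSystem 𝓗 S) {C D : 𝒱.Obj}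
    (h : Retr C D) (hD : 𝓗.AllIn S D) : 𝓗.AllIn S C := by
  obtain ⟨f, g, hfg⟩ := h
  intro j t ht
  have h1 := hS.stableMul.2 _ _ f _ _ (hD j (isHodge_map 𝓗 g ht))
  rwa [← W.map_comp, hfg, W.map_id] at h1

lemma splits_retr {𝓗 : HodgeTheory W} {A D D' : 𝒱.Obj} (h : Retr D D')
    (hD : 𝓗.Splits A D') : 𝓗.Splits A D := by
  obtain ⟨f, g, hfg⟩ := h
  intro j t ht
  set F : A.prod D ⟶ A.prod D' := lift (fst A D) (snd A D ≫ f) with hF
  set G' : A.prod D' ⟶ A.prod D := lift (fst A D') (snd A D' ≫ g) with hG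
  have hFG : F ≫ G' = 𝟙 _ := by
    refine prod_hom_ext ?_ ?_
    · rw [hF, hG, Category.assoc, lift_fst, lift_fst, Category.id_comp]
    · rw [hF, hG, Category.assoc, lift_snd, lift_snd_assoc, Category.assoc, hfg,
        Category.comp_id, Category.id_comp]
  have h1 := hD j _ (isHodge_map 𝓗 G' ht)
  have h2 : W.map F (W.map G' t) = t := by rw [← W.map_comp, hFG, W.map_id]
  rw [← h2]
  have h3 : ∀ y ∈ Submodule.span W.K (crossProducts (W.map (fst A D')) (W.map (snd A D'))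
      (𝓗.hodge A) (𝓗.hodge D') j), W.map F y ∈ Submodule.span W.K
        (crossProducts (W.map (fst A D)) (W.map (snd A D)) (𝓗.hodge A) (𝓗.hodge D) j) := by
    intro y hy
    induction hy using Submodule.span_induction with
    | mem y hy =>
      obtain ⟨i, i', a, b, hij, ha, hb, rfl⟩ := hy
      refine Submodule.subset_span ⟨i, i', a, W.map f b, hij, ha, isHodge_map 𝓗 f hb, ?_⟩
      rw [map_mul, ← W.map_comp, ← W.map_comp, hF, lift_fst, lift_snd, W.map_comp]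
    | zero => rw [map_zero]; exact Submodule.zero_mem _
    | add x y _ _ hx hy => rw [map_add]; exact Submodule.add_mem _ hx hy
    | smul r x _ hx => rw [map_smul]; exact Submodule.smul_mem _ r hx
  exact h3 _ h1

end Retract

variable {ι : Type}

lemma full_iff_allIn (𝓗 : HodgeTheory W) {S : Classes W} (hS : ClassSystem 𝓗 S)
    (Y : ι → 𝒱.Obj) (T : Set ι) :
    𝓗.Full S (IsProd Y T) ↔ ∀ C, IsProd Y T C → 𝓗.AllIn S C := by
  rw [full_iff 𝓗 hS]
  constructor
  · intro h C hC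
    exact allIn_retr hS ⟨diag C, fst C C, Obj.lift_fst _ _⟩ (h C C hC hC)
  · intro h X Y hX hY
    exact h _ (IsProd.prod X Y hX hY)

/-- The Hodge classes on `A × D`, where `A` is a product of members with index not in `E` and `D` is
a product of copies of `Z` and of members with index in `E`, split. -/
theorem hodge_uniform' (𝓗 : HodgeTheory W) (X : ι → 𝒱.Obj) (hX : 𝓗.Independent X) (Z : 𝒱.Obj) :
    ∃ E₀ : Finset ι, ∀ E : Set ι, (E₀ : Set ι) ⊆ E →
      ∀ A D, IsProd X Eᶜ A → IsProd (adjoin Z X) (indices E) D → 𝓗.Splits A D := by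
  obtain ⟨E₀, h⟩ := hodge_uniform 𝓗 X hX Z
  refine ⟨E₀, fun E hE A D hA hD => ?_⟩
  rcases sort_indices Z X E hD with hD | hD | ⟨B, M, hB, hM, hr⟩
  · exact (h E hE D hD A hA).1
  · exact hX Eᶜ A D hA (by rwa [compl_compl])
  · exact splits_retr hr ((h E hE M hM A hA).2 B hB)

/-- **Fullness on the motives of all products of `Z` and of members of the family.** -/
theorem full_uniform (𝓗 : HodgeTheory W) (X : ι → 𝒱.Obj) (hX : 𝓗.Independent X) (Z : 𝒱.Obj) :
    ∃ E₀ : Finset ι, ∀ T E : Set ι, Disjoint T E₀ → Disjoint T E → ∀ S, ClassSystem 𝓗 S →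
      (𝓗.Full S (IsProd (adjoin Z X) (indices (T ∪ E))) ↔
        𝓗.Full S (IsProd X T) ∧ 𝓗.Full S (IsProd (adjoin Z X) (indices E))) := by
  obtain ⟨E₀, h⟩ := hodge_uniform' 𝓗 X hX Z
  refine ⟨E₀, fun T E hT hTE S hS => ?_⟩
  have h' : ∀ A D, IsProd X T A → IsProd (adjoin Z X) (indices E) D → 𝓗.Splits A D := by
    intro A D hA hD
    refine h Tᶜ (Set.disjoint_left.1 hT.symm) A D (by rwa [compl_compl]) (hD.mono ?_)
    exact fun o ho i hi => fun hiT => Set.disjoint_left.1 hTE hiT (ho i hi)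
  rw [full_iff_allIn 𝓗 hS, full_iff_allIn 𝓗 hS, full_iff_allIn 𝓗 hS]
  constructor
  · refine fun hall => ⟨fun C hC => hall C (isProd_some ?_ hC), fun C hC => hall C (hC.mono ?_)⟩
    · intro i hi j hj
      obtain rfl := Option.some_injective _ hj
      exact Or.inl hi
    · exact fun o ho i hi => Or.inr (ho i hi)
  · rintro ⟨h1, h2⟩ C hC
    rcases sort_union Z X T E hC with hC | hC | ⟨A, D, hA, hD, hr⟩
    · exact h1 C hC
    · exact h2 C hC
    · exact allIn_retr hS hr ((allIn_prod_iff 𝓗 hS (h' A D hA hD)).2 ⟨h1 A hA, h2 D hD⟩)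

end Pool.Agent.TH132.U
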