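import Pool.Agent.H914R2.WeilBasic
import Pool.Agent.TH132.E.HDefs

/-!
# Hodge theory on a Weil cohomology over a field `k`, and motives: definitions
-/

set_option autoImplicit false

open CategoryTheory AlgebraicGeometry TensorProduct

universe u

namespace Pool.Agent.TH132.U

open Pool.Agent.H914 Pool.Agent.H914.VarClass Pool.Agent.H914.VarClass.Obj
  Pool.Agent.H914.WeilCohomology Pool.Agent.TH132.E

section Generic

variable {K : Type} [Field K] {V V' : Type} [Ring V] [Ring V'] [Algebra K V] [Algebra K V']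

/-- `a b ∈ S (i + j)` for `a ∈ S i` and `b ∈ S j`. -/
def MulClosed (S : ℕ → Submodule K V) : Prop :=
  ∀ i j a b, a ∈ S i → b ∈ S j → a * b ∈ S (i + j)

/-- `f` maps `S' j` into `S j`. -/
def Maps (f : V' →ₐ[K] V) (S' : ℕ → Submodule K V') (S : ℕ → Submodule K V) : Prop :=
  ∀ j, ∀ a ∈ S' j, f a ∈ S j

/-- `f` maps `S i` into `S' j` if `i + d' = j + d`. -/
def Pushes (f : V →ₗ[K] V') (S : ℕ → Submodule K V) (S' : ℕ → Submodule K V') (d d' : ℕ) : Prop :=
  ∀ i j, i + d' = j + d → ∀ a ∈ S i, f a ∈ S' j

/-- All elements of `S j` belong to `H j`. -/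
def Within (S : ℕ → Submodule K V) (H : ℕ → Set V) : Prop := ∀ j, ∀ a ∈ S j, a ∈ H j

/-- `S` contains an element of trace `1`. -/
def HasPoint (S : Submodule K V) (tr : V →ₗ[K] K) : Prop := ∃ a ∈ S, tr a = 1

/-- `p` belongs to `S` and its action `f` is idempotent. -/
def IsProjector (S : Submodule K V) (p : V) (f : V' →ₗ[K] V') : Prop := p ∈ S ∧ f ∘ₗ f = f

/-- `t` belongs to `S r`, where `S r = 0` for negative `r`. -/
def InDegree (S : ℕ → Submodule K V) (r : ℤ) (t : V) : Prop :=
  t = 0 ∨ ∃ j : ℕ, (j : ℤ) = r ∧ t ∈ S j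

/-- `f = q t p`. -/
def IsComp (q : V' →ₗ[K] V') (t : V →ₗ[K] V') (p : V →ₗ[K] V) (f : V →ₗ[K] V') : Prop :=
  f = q ∘ₗ t ∘ₗ p

/-- The complexification of `f` maps `V^(a,b)` into the sum of all `V'^(a',b')` with
`a' - n = a - m` and `b' - n = b - m` (into `0` if there are no such natural numbers). -/
def HasTypes [Algebra K ℂ] (comp : ℕ × ℕ → Submodule ℂ (ℂ ⊗[K] V))
    (comp' : ℕ × ℕ → Submodule ℂ (ℂ ⊗[K] V')) (m n : ℤ) (f : V →ₗ[K] V') : Prop :=
  ∀ a b, ∀ x ∈ comp (a, b), f.baseChange ℂ x ∈
    ⨆ (a' : ℕ) (b' : ℕ) (_ : (a' : ℤ) - n = a - m) (_ : (b' : ℤ) - n = b - m), comp' (a', b')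

end Generic

variable {k : Type u} [Field k] {𝒱 : VarClass k} {ops : CycleOps 𝒱}

/-- Functorial Hodge decompositions of the cohomology of the varieties of the class, such that all
sub-Hodge structures have complements. -/
structure HodgeTheory (W : WeilCohomology.{u, 0} ops) [Algebra W.K ℂ] where
  /-- the subspace `H^(p,q)(X)` -/
  comp : ∀ X : 𝒱.Obj, ℕ × ℕ → Submodule ℂ (ℂ ⊗[W.K] W.H X)
  isHodgeDecomp : ∀ X, IsHodgeDecomp (W.gr X) X.dim (W.tr X) (comp X)
  hasComplements : ∀ X, HasComplements (comp X)
  isHodgeMap : ∀ {X Y : 𝒱.Obj} (f : X ⟶ Y), IsHodgeMap (W.map f) (comp Y) (comp X)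

/-- The products of copies of the varieties `X i`, `i ∈ T`. -/
inductive IsProd {ι : Type} (X : ι → 𝒱.Obj) (T : Set ι) : 𝒱.Obj → Prop
  | one (i : ι) : i ∈ T → IsProd X T (X i)
  | prod (A B : 𝒱.Obj) : IsProd X T A → IsProd X T B → IsProd X T (A.prod B)

/-- The family consisting of `Z` (with index `none`) and of the `X i` (with index `some i`). -/
def adjoin (Z : 𝒱.Obj) {ι : Type} (X : ι → 𝒱.Obj) (o : Option ι) : 𝒱.Obj := o.elim Z X

/-- The indices of `Z` and of the `X i`, `i ∈ E`. -/
def indices {ι : Type} (E : Set ι) : Set (Option ι) := {o | ∀ i, o = some i → i ∈ E}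

variable {W : WeilCohomology.{u, 0} ops} [Algebra W.K ℂ]

/-- The Hodge classes of type `(j, j)` on `X`. -/
def HodgeTheory.hodge (𝓗 : HodgeTheory W) (X : 𝒱.Obj) (j : ℕ) : Set (W.H X) :=
  hodgeClasses (𝓗.comp X) j

/-- Every Hodge class of type `(j, j)` on `A × B` is a linear combination of products `a × b`, where
`a` and `b` are Hodge classes of types `(i, i)` and `(i', i')` on `A` and `B` and `i + i' = j`. -/
def HodgeTheory.Splits (𝓗 : HodgeTheory W) (A B : 𝒱.Obj) : Prop :=
  ClassesSplit (W.map (fst A B)) (W.map (snd A B)) (𝓗.hodge A) (𝓗.hodge B) (𝓗.hodge (A.prod B))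

/-- The members of the family are independent: the Hodge classes on `A × B` split, for every set
`T` of indices, every product `A` of members with index in `T` and every product `B` of members with
index not in `T`. -/
def HodgeTheory.Independent (𝓗 : HodgeTheory W) {ι : Type} (X : ι → 𝒱.Obj) : Prop :=
  ∀ (T : Set ι) (A B : 𝒱.Obj), IsProd X T A → IsProd X Tᶜ B → 𝓗.Splits A B

/-- Spaces of classes `S X j` on all varieties `X` of the class. -/
abbrev Classes (W : WeilCohomology.{u, 0} ops) : Type _ :=
  ∀ X : 𝒱.Obj, ℕ → Submodule W.K (W.H X)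

/-- All Hodge classes on `X` belong to the system `S`. -/
def HodgeTheory.AllIn (𝓗 : HodgeTheory W) (S : Classes W) (X : 𝒱.Obj) : Prop :=
  ∀ j, 𝓗.hodge X j ⊆ S X j

/-- The system `S` is stable under cup products and pull-backs. -/
def StableMul (S : Classes W) : Prop :=
  (∀ X, MulClosed (S X)) ∧ ∀ (X Y : 𝒱.Obj) (f : X ⟶ Y), Maps (W.map f) (S Y) (S X)

/-- The system `S` is stable under push-forwards. -/
def StablePush (S : Classes W) : Prop :=
  ∀ (X Y : 𝒱.Obj) (f : X ⟶ Y), Pushes (W.push f) (S X) (S Y) X.dim Y.dim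

/-- A system of spaces of Hodge classes `S X j` of type `(j, j)` on the varieties `X` of the class,
which contain classes of trace one (classes of points) and are stable under products, pull-backs and
push-forwards. Examples: the absolute Hodge classes, the motivated classes, the linear combinations
of algebraic classes. -/
structure ClassSystem (𝓗 : HodgeTheory W) (S : Classes W) : Prop where
  isHodge : ∀ X, Within (S X) (𝓗.hodge X)
  point : ∀ X, HasPoint (S X X.dim) (W.tr X)
  stableMul : StableMul S
  stablePush : StablePush S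

/-- A motive `(X, p, m)`: `p` is an idempotent correspondence of degree `0` on `X` given by a class
of the system `S`, and `m` is an integer. -/
structure Motive (S : Classes W) where
  /-- the variety -/
  X : 𝒱.Obj
  /-- the projector -/
  p : W.H (X.prod X)
  /-- the twist -/
  m : ℤ
  isProjector : IsProjector (S (X.prod X) X.dim) p (W.corr p)

/-- The linear map `f` from `H(X)` to `H(Y)` is a homomorphism of Hodge structures from the
realization `p H(X) (m)` of the motive `M = (X, p, m)` to the realization `q H(Y) (n)` of the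
motive `N = (Y, q, n)`: it satisfies `f = q f p` and maps `H^(a,b)(X)` to `H^(a',b')(Y)`, where
`a' - n = a - m` and `b' - n = b - m` (to `0` if there are no such natural numbers). -/
def HodgeTheory.IsHom (𝓗 : HodgeTheory W) {S : Classes W} (M N : Motive S)
    (f : W.H M.X →ₗ[W.K] W.H N.X) : Prop :=
  IsComp (W.corr N.p) f (W.corr M.p) f ∧ HasTypes (𝓗.comp M.X) (𝓗.comp N.X) M.m N.m f

/-- The linear map `f` from `H(X)` to `H(Y)` is the realization of a morphism of motives from
`M = (X, p, m)` to `N = (Y, q, n)`: it is `q t p`, where `t` is the map given by a class on `X × Y`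
of degree `dim X + n - m` in the system `S`. -/
def IsMorphism {S : Classes W} (M N : Motive S) (f : W.H M.X →ₗ[W.K] W.H N.X) : Prop :=
  ∃ t, InDegree (S (M.X.prod N.X)) (M.X.dim + N.m - M.m) t ∧
    IsComp (W.corr N.p) (W.corr t) (W.corr M.p) f

/-- The realization functor is full on the motives `(X, p, m)` where `X` has the property `P`: all
homomorphisms of Hodge structures between the realizations of such motives are realizations of
morphisms of motives. -/
def HodgeTheory.Full (𝓗 : HodgeTheory W) (S : Classes W) (P : 𝒱.Obj → Prop) : Prop :=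
  ∀ M N : Motive S, P M.X → P N.X → ∀ f, 𝓗.IsHom M N f → IsMorphism M N f

end Pool.Agent.TH132.U
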