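import Pool.Agent.TH132.U.Hil

/-!
# The uniform exceptional set
-/

set_option autoImplicit false

open CategoryTheory AlgebraicGeometry TensorProduct

universe u v w

namespace Pool.Agent.TH132.U

open Pool.Agent.H914 Pool.Agent.H914.VarClass Pool.Agent.H914.VarClass.Obj
  Pool.Agent.H914.WeilCohomology Pool.Agent.TH132.E

variable {k : Type u} [Field k] {𝒱 : VarClass k} {ops : CycleOps 𝒱}
  {W : WeilCohomology.{u, v} ops} {L : Type v} [Field L] [Algebra W.K L] {O : Type w}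
  {𝓛 : Set (Set O)} {c : O → L} {G : Set (OVar W L O)} {ι : Type*} {X : ι → OVar W L O}
  {Z : OVar W L O}

/-- The sum of the images of the cohomology of the products of members of `S` in `H(M)`. -/
noncomputable def Rm (𝓛 : Set (Set O)) (c : O → L) (G : Set (OVar W L O)) (X : ι → OVar W L O)
    (M : OVar W L O) (S : Set ι) : Submodule W.K (W.H M.X) :=
  rsum 𝓛 c (opSp M) ⊤ (QS X G S)

theorem transfer (H : Setup 𝓛 c G X Z) {E : Set ι}
    (hE : ∀ n, Rn 𝓛 c G X Z Set.univ n ≤ Rn 𝓛 c G X Z E n) {n : ℕ} {M : OVar W L O}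
    (hM : IsPow Z G n M) {A : OVar W L O} (hA : IsProdSet X G Set.univ A) {m : ℤ}
    {φ : W.H A.X →ₗ[W.K] W.H M.X} (hφ : TMap 𝓛 c m (opSp A) (opSp M) φ) :
    LinearMap.range φ ≤ Rm 𝓛 c G X M E := by
  have hMr := H.redZ n M hM
  have hfin : Module.Finite W.K (⊤ : Submodule W.K (W.H M.X)) := inferInstance
  obtain ⟨p, hp⟩ : ∃ p : W.H M.X →ₗ[W.K] W.H M.X,
      IsTProj 𝓛 c (opSp M) ⊤ (Rm 𝓛 c G X M E) p :=
    exists_tproj H.dir H.ne (tfin_top (c := c) H.dir hMr)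
      (rsum_stable (M := opSp M) (N := ⊤) (Q := QS X G E) H.dir H.ne hfin) le_top
  obtain ⟨κ, _, f, hf1, hf2, hf3⟩ := hM.hasFam H.dir H.ne
  rintro _ ⟨y, rfl⟩
  have h1 : ∀ j, f j (φ y - p (φ y)) = 0 := by
    intro j
    have hrj : LinearMap.range (f j) ≤ hom Z n := by
      rw [← hf2]
      exact le_iSup (fun k => LinearMap.range (f k)) j
    exact transfer_abs H.dir H.ne (M := polSp Z) (N := hom Z n) (Q := QS X G E)
      (M' := opSp M) (A := opSp A) (U := Rm 𝓛 c G X M E) (p := p) (f := f j) (φ := φ)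
      (hom_finite Z n) (tfin_hom H hM.pos)
      (by rintro _ ⟨A', hA', rfl⟩; exact H.redX E A' hA') hMr hp
      (fun B hB n v hv => range_le_rsum (M := opSp M) (N := ⊤) hB hv le_top) (hf1 j) hφ
      (fun n' h hh ⟨r, hr⟩ => (range_le_Rn (n := n) hA hh (by
        rw [hr]
        exact (LinearMap.range_comp_le_range r (f j)).trans hrj)).trans (hE n)) y
  have h2 : φ y - p (φ y) = 0 := hf3 _ fun j => by rw [h1 j, map_zero]
  have h3 : φ y = p (φ y) := sub_eq_zero.1 h2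
  rw [h3]
  exact hp.mem _

lemma tvec_map (hL : Directed' 𝓛) (hc : ∀ o, c o ≠ 0) {B C : OVar W L O} {m n : ℤ}
    {ψ : W.H B.X →ₗ[W.K] W.H C.X} (hψ : TMap 𝓛 c m (opSp B) (opSp C) ψ) {b : W.H B.X}
    (hb : TVec 𝓛 c B n b) : TVec 𝓛 c C (n - m) (ψ b) := by
  obtain ⟨D, hD, h1⟩ := hψ
  obtain ⟨D', hD', h2⟩ := hb
  obtain ⟨D'', hD'', h3⟩ := hL.inter D hD D' hD'
  refine ⟨D'', hD'', fun o ho => ?_⟩
  have h4 : ψ.baseChange L (B.act o ((1 : L) ⊗ₜ[W.K] b)) =
    c o ^ m • C.act o (ψ.baseChange L ((1 : L) ⊗ₜ[W.K] b)) := h1 ⟨o, (h3 ho).1⟩ _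
  rw [h2 o (h3 ho).2, map_smul, LinearMap.baseChange_tmul] at h4
  have h5 : C.act o ((1 : L) ⊗ₜ[W.K] ψ b) = c o ^ (-m) • (c o ^ m • C.act o
      ((1 : L) ⊗ₜ[W.K] ψ b)) := by
    rw [smul_smul, ← zpow_add₀ (hc o), neg_add_cancel, zpow_zero, one_smul]
  rw [h5, ← h4, smul_smul, ← zpow_add₀ (hc o)]
  congr 2
  ring

/-- The span of the eigenvectors. -/
def tspan (𝓛 : Set (Set O)) (c : O → L) (B : OVar W L O) : Submodule W.K (W.H B.X) :=
  Submodule.span W.K {b | ∃ n, TVec 𝓛 c B n b}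

lemma tspan_map (hL : Directed' 𝓛) (hc : ∀ o, c o ≠ 0) {B C : OVar W L O} {m : ℤ}
    {ψ : W.H B.X →ₗ[W.K] W.H C.X} (hψ : TMap 𝓛 c m (opSp B) (opSp C) ψ) {b : W.H B.X}
    (hb : b ∈ tspan 𝓛 c B) : ψ b ∈ tspan 𝓛 c C := by
  have h1 : tspan 𝓛 c B ≤ (tspan 𝓛 c C).comap ψ := by
    rw [tspan, Submodule.span_le]
    rintro b ⟨n, hb⟩
    exact Submodule.subset_span ⟨_, tvec_map hL hc hψ hb⟩
  exact h1 hb

/-- The independence of the members of the family. -/
def Indep (𝓛 : Set (Set O)) (c : O → L) (G : Set (OVar W L O)) (X : ι → OVar W L O) : Prop :=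
  ∀ (S : Set ι) (A B : OVar W L O) (υ), IsProdSet X G S A → IsProdSet X G Sᶜ B →
    ProdAct A B υ → prodO A B υ ∈ G → SplitsO 𝓛 c A B υ

lemma indep_range (H : Setup 𝓛 c G X Z) (hind : Indep 𝓛 c G X) {S S' : Set ι}
    (hS : S' ⊆ Sᶜ) {A C : OVar W L O} (hA : IsProdSet X G S A) (hC : IsProdSet X G S' C)
    {m : ℤ} {t : W.H A.X →ₗ[W.K] W.H C.X} (ht : TMap 𝓛 c m (opSp A) (opSp C) t) :
    LinearMap.range t ≤ tspan 𝓛 c C := by
  obtain ⟨υ, hυ, hυG⟩ := H.cls.prod A (H.mem hA) C (H.mem hC)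
  refine hind_one H.ne (H.cls.tr A (H.mem hA)) hυ (hind S A C υ hA (hC.mono hS) hυ hυG) t ht _
    fun n θ hθ => ?_
  rintro _ ⟨x, rfl⟩
  have h2 : θ x = x • θ 1 := by
    rw [← map_smul, smul_eq_mul, mul_one]
  rw [h2]
  exact Submodule.smul_mem _ _ (Submodule.subset_span ⟨-n, tmap_tvec H.ne hθ⟩)

section Lft

variable {A B C M : 𝒱.Obj}

/-- The map `1 × ψ`. -/
noncomputable def lft (B : 𝒱.Obj) {C M : 𝒱.Obj} (ψ : W.H C →ₗ[W.K] W.H M) :
    W.H (B.prod C) →ₗ[W.K] W.H (B.prod M) :=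
  kunnethMap (W.map (fst B M)) (W.map (snd B M)) ∘ₗ (LinearMap.lTensor (W.H B) ψ) ∘ₗ
    (LinearEquiv.ofBijective _ (W.kunneth B C)).symm.toLinearMap

lemma lft_apply (ψ : W.H C →ₗ[W.K] W.H M) (b : W.H B) (x : W.H C) :
    lft B ψ (W.map (fst B C) b * W.map (snd B C) x) =
      W.map (fst B M) b * W.map (snd B M) (ψ x) := by
  have h1 : (LinearEquiv.ofBijective _ (W.kunneth B C)).symm
      (W.map (fst B C) b * W.map (snd B C) x) = b ⊗ₜ[W.K] x := by
    rw [LinearEquiv.symm_apply_eq]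
    rfl
  rw [lft, LinearMap.comp_apply, LinearMap.comp_apply]
  erw [h1]
  rw [LinearMap.lTensor_tmul]
  rfl

lemma fm_lft (ψ : W.H C →ₗ[W.K] W.H M) (z : W.H (B.prod C)) (x : W.H B) :
    fm W B M (lft B ψ z) x = ψ (fm W B C z x) := by
  refine W.kunneth_induction (X := B) (Y := C) (p := fun z => fm W B M (lft B ψ z) x =
    ψ (fm W B C z x)) ?_ ?_ z
  · intro a b ha hb
    rw [map_add, map_add, LinearMap.add_apply, ha, hb, map_add, LinearMap.add_apply, map_add]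
  · intro i j a _ b _
    rw [lft_apply, fm_mul, fm_mul, map_smul]

lemma adj_comp (ψ : W.H C →ₗ[W.K] W.H M) (t : W.H (A.prod B) →ₗ[W.K] W.H C) (x : W.H A) :
    adj (ψ ∘ₗ t) x = lft B ψ (adj t x) := by
  apply fm_injective W
  ext y
  rw [fm_adj, fm_lft, fm_adj, LinearMap.comp_apply]

lemma lft_base (ψ : W.H C →ₗ[W.K] W.H M) (x : L ⊗[W.K] W.H B) (y : L ⊗[W.K] W.H C) :
    (lft B ψ).baseChange L (mapBase L (W.map (fst B C)) x * mapBase L (W.map (snd B C)) y) =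
      mapBase L (W.map (fst B M)) x * mapBase L (W.map (snd B M)) (ψ.baseChange L y) := by
  refine tmul_induction (P := fun x => (lft B ψ).baseChange L
    (mapBase L (W.map (fst B C)) x * mapBase L (W.map (snd B C)) y) =
      mapBase L (W.map (fst B M)) x * mapBase L (W.map (snd B M)) (ψ.baseChange L y)) ?_ ?_ ?_ x
  · rw [map_zero, map_zero, zero_mul, map_zero, zero_mul]
  · intro x x' hx hx'
    rw [map_add, map_add, add_mul, map_add, hx, hx', add_mul]
  · intro l a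
    refine tmul_induction (P := fun y => (lft B ψ).baseChange L
      (mapBase L (W.map (fst B C)) (l ⊗ₜ[W.K] a) * mapBase L (W.map (snd B C)) y) =
        mapBase L (W.map (fst B M)) (l ⊗ₜ[W.K] a) *
          mapBase L (W.map (snd B M)) (ψ.baseChange L y)) ?_ ?_ ?_ y
    · rw [map_zero, map_zero, mul_zero, map_zero, map_zero, mul_zero]
    · intro y y' hy hy'
      rw [map_add, map_add, mul_add, map_add, hy, hy', map_add, mul_add]
    · intro l' b
      rw [Algebra.TensorProduct.map_tmul, Algebra.TensorProduct.map_tmul,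
        Algebra.TensorProduct.tmul_mul_tmul, LinearMap.baseChange_tmul,
        LinearMap.baseChange_tmul, Algebra.TensorProduct.map_tmul,
        Algebra.TensorProduct.map_tmul, Algebra.TensorProduct.tmul_mul_tmul]
      congr 1
      exact lft_apply ψ a b

/-- The map `H(A × B) → H(M)` given by a map `H(A) → H(B × M)`. -/
noncomputable def unadj (φ : W.H A →ₗ[W.K] W.H (B.prod M)) :
    W.H (A.prod B) →ₗ[W.K] W.H M :=
  TensorProduct.lift ((fm W B M) ∘ₗ φ) ∘ₗ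
    (LinearEquiv.ofBijective _ (W.kunneth A B)).symm.toLinearMap

lemma unadj_apply (φ : W.H A →ₗ[W.K] W.H (B.prod M)) (x : W.H A) (y : W.H B) :
    unadj φ (W.map (fst A B) x * W.map (snd A B) y) = fm W B M (φ x) y := by
  have h1 : (LinearEquiv.ofBijective _ (W.kunneth A B)).symm
      (W.map (fst A B) x * W.map (snd A B) y) = x ⊗ₜ[W.K] y := by
    rw [LinearEquiv.symm_apply_eq]
    rfl
  rw [unadj, LinearMap.comp_apply]
  erw [h1]
  rfl

lemma adj_unadj (φ : W.H A →ₗ[W.K] W.H (B.prod M)) : adj (unadj φ) = φ := by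
  ext x
  apply fm_injective W
  ext y
  rw [fm_adj, unadj_apply]

lemma unadj_base (φ : W.H A →ₗ[W.K] W.H (B.prod M)) (x : L ⊗[W.K] W.H A)
    (y : L ⊗[W.K] W.H B) :
    (unadj φ).baseChange L (mapBase L (W.map (fst A B)) x * mapBase L (W.map (snd A B)) y) =
      fmL W L B M (φ.baseChange L x) y := by
  rw [← fm_adj_base, adj_unadj]

end Lft

/-- The induction principle for the extended cohomology of a product. -/
lemma base_induction' {A B : 𝒱.Obj} {p : L ⊗[W.K] W.H (A.prod B) → Prop}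
    (hadd : ∀ a b, p a → p b → p (a + b))
    (h : ∀ (a : L ⊗[W.K] W.H A) (b : L ⊗[W.K] W.H B),
      p (mapBase L (W.map (fst A B)) a * mapBase L (W.map (snd A B)) b))
    (y : L ⊗[W.K] W.H (A.prod B)) : p y :=
  (baseW W L).kunneth_induction (X := A) (Y := B) (p := p) (fun a b ha hb => hadd a b ha hb)
    (fun _ _ a _ b _ => h a b) y

lemma lft_tmap {B C M : OVar W L O} {υ} (hυ : ProdAct B C υ) {ω} (hω : ProdAct B M ω) {m : ℤ}
    {ψ : W.H C.X →ₗ[W.K] W.H M.X} (hψ : TMap 𝓛 c m (opSp C) (opSp M) ψ) :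
    TMap 𝓛 c m (opSp (prodO B C υ)) (opSp (prodO B M ω)) (lft B.X ψ) := by
  obtain ⟨D, hD, h⟩ := hψ
  refine ⟨D, hD, fun o x => ?_⟩
  have h' : ∀ y : L ⊗[W.K] W.H C.X, ψ.baseChange L (C.act o y) =
    c o ^ m • M.act o (ψ.baseChange L y) := fun y => h o y
  have main : ∀ y : L ⊗[W.K] W.H (B.X.prod C.X), (lft B.X ψ).baseChange L (υ o y) =
      c o ^ m • ω o ((lft B.X ψ).baseChange L y) := by
    refine base_induction' ?_ ?_
    · intro a b ha hb
      rw [map_add, map_add, ha, hb, map_add, map_add, smul_add]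
    · intro a b
      rw [map_mul, hυ.fst, hυ.snd, lft_base, lft_base, map_mul, hω.fst, hω.snd, h', map_smul,
        mul_smul_comm]
  exact main x

lemma unadj_tmap (hc : ∀ o, c o ≠ 0) {A B M : OVar W L O}
    (hB : ∀ o y, formBase L (W.tr B.X) (B.act o y) = c o ^ B.X.dim * formBase L (W.tr B.X) y)
    {υ} (hυ : ProdAct A B υ) {ω} (hω : ProdAct B M ω) {m : ℤ}
    {φ : W.H A.X →ₗ[W.K] W.H (B.X.prod M.X)}
    (hφ : TMap 𝓛 c m (opSp A) (opSp (prodO B M ω)) φ) :
    TMap 𝓛 c (m + B.X.dim) (opSp (prodO A B υ)) (opSp M) (unadj φ) := by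
  obtain ⟨D, hD, h⟩ := hφ
  refine ⟨D, hD, fun o x => ?_⟩
  have h' : ∀ y : L ⊗[W.K] W.H A.X, φ.baseChange L (A.act o y) =
    c o ^ m • ω o (φ.baseChange L y) := fun y => h o y
  have main : ∀ y : L ⊗[W.K] W.H (A.X.prod B.X), (unadj φ).baseChange L (υ o y) =
      c o ^ (m + B.X.dim : ℤ) • M.act o ((unadj φ).baseChange L y) := by
    refine base_induction' ?_ ?_
    · intro a b ha hb
      rw [map_add, map_add, ha, hb, map_add, map_add, smul_add]
    · intro a b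
      rw [map_mul, hυ.fst, hυ.snd, unadj_base, unadj_base, h', map_smul, LinearMap.smul_apply,
        fmL_act (hω.fst o) (hω.snd o) (hB o), smul_smul, ← zpow_natCast, ← zpow_add₀ (hc _)]
  exact main x

/-- The map `t ↦ adj t y`. -/
noncomputable def adjAt {A B C : 𝒱.Obj} (y : W.H A) :
    (W.H (A.prod B) →ₗ[W.K] W.H C) →ₗ[W.K] W.H (B.prod C) where
  toFun t := adj t y
  map_add' f g := by
    apply fm_injective W
    ext z
    rw [fm_adj, map_add, LinearMap.add_apply, LinearMap.add_apply, fm_adj, fm_adj]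
  map_smul' r f := by
    apply fm_injective W
    ext z
    rw [fm_adj, RingHom.id_apply, map_smul, LinearMap.smul_apply, LinearMap.smul_apply, fm_adj]

lemma range_tspan_pow (H : Setup 𝓛 c G X Z) (hind : Indep 𝓛 c G X) {E : Set ι}
    (hE : ∀ n, Rn 𝓛 c G X Z Set.univ n ≤ Rn 𝓛 c G X Z E n) {n : ℕ} {M : OVar W L O}
    (hM : IsPow Z G n M) {A : OVar W L O} (hA : IsProdSet X G Eᶜ A) {m : ℤ}
    {φ : W.H A.X →ₗ[W.K] W.H M.X} (hφ : TMap 𝓛 c m (opSp A) (opSp M) φ) :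
    LinearMap.range φ ≤ tspan 𝓛 c M := by
  have h1 := transfer H hE hM (hA.mono (Set.subset_univ _)) hφ
  have hfin : Module.Finite W.K (⊤ : Submodule W.K (W.H M.X)) := inferInstance
  rintro _ ⟨y, rfl⟩
  exact mem_of_rsum H.dir H.ne (M := opSp M) (N := ⊤) (Q := QS X G E) (A := opSp A)
    (φ := φ) (V' := W.H M.X) (R := tspan 𝓛 c M) hfin
    (by rintro _ ⟨A', hA', rfl⟩; exact H.redX E A' hA') hφ h1
    (LinearMap.applyₗ (R := W.K) (M := W.H A.X) (M₂ := W.H M.X) y) (by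
      rintro _ ⟨C, hC, rfl⟩ a ψ hψ b t ht
      exact tspan_map (B := C) (C := M) (ψ := ψ) H.dir H.ne hψ
        (indep_range H hind (S' := E) (by rw [compl_compl]) hA hC (t := t) ht ⟨y, rfl⟩))

lemma range_tspan_prod (H : Setup 𝓛 c G X Z) (hind : Indep 𝓛 c G X) {E : Set ι}
    (hE : ∀ n, Rn 𝓛 c G X Z Set.univ n ≤ Rn 𝓛 c G X Z E n) {n : ℕ} {M : OVar W L O}
    (hM : IsPow Z G n M) {A B : OVar W L O} (hA : IsProdSet X G Eᶜ A)
    (hB : IsProdSet X G E B) {ω} (hω : ProdAct B M ω) {m : ℤ}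
    {φ : W.H A.X →ₗ[W.K] W.H (B.X.prod M.X)}
    (hφ : TMap 𝓛 c m (opSp A) (opSp (prodO B M ω)) φ) :
    LinearMap.range φ ≤ tspan 𝓛 c (prodO B M ω) := by
  obtain ⟨υ, hυ, hυG, hP⟩ := H.exists_prod (hA.mono (Set.subset_univ _))
    (hB.mono (Set.subset_univ _))
  have hBt := H.cls.tr B (H.mem hB)
  have hu : TMap 𝓛 c (m + B.X.dim) (opSp (prodO A B υ)) (opSp M) (unadj φ) :=
    unadj_tmap H.ne hBt hυ hω hφ
  have h1 : LinearMap.range (unadj φ) ≤ Rm 𝓛 c G X M E := transfer H hE hM hP hu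
  have hfin : Module.Finite W.K (⊤ : Submodule W.K (W.H M.X)) := inferInstance
  rintro _ ⟨y, rfl⟩
  have h2 : adjAt y (unadj φ) ∈ tspan 𝓛 c (prodO B M ω) :=
    mem_of_rsum H.dir H.ne (M := opSp M) (N := ⊤) (Q := QS X G E) (A := opSp (prodO A B υ))
      (φ := unadj φ) (V' := W.H (B.X.prod M.X)) (R := tspan 𝓛 c (prodO B M ω)) hfin
      (by rintro _ ⟨A', hA', rfl⟩; exact H.redX E A' hA') hu h1
      (adjAt (W := W) (A := A.X) (B := B.X) (C := M.X) y) (by
        rintro _ ⟨C, hC, rfl⟩ a ψ hψ b t ht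
        obtain ⟨υ', hυ', _, hP'⟩ := H.exists_prod hB hC
        have h2 : TMap 𝓛 c (b - B.X.dim) (opSp A) (opSp (prodO B C υ')) (adj t) :=
          adj_tmap H.ne hBt hυ hυ' (C := C) (t := t) ht
        have h3 : adj t y ∈ tspan 𝓛 c (prodO B C υ') :=
          indep_range H hind (S' := E) (by rw [compl_compl]) hA hP' h2 ⟨y, rfl⟩
        have h4 : lft B.X ψ (adj t y) ∈ tspan 𝓛 c (prodO B M ω) :=
          tspan_map (B := prodO B C υ') (C := prodO B M ω) (ψ := lft B.X ψ) H.dir H.ne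
            (lft_tmap (C := C) (M := M) (ψ := ψ) hυ' hω hψ) h3
        have h5 : adj (ψ ∘ₗ t) y = lft B.X ψ (adj t y) :=
          adj_comp (A := A.X) (B := B.X) (C := C.X) (M := M.X) ψ t y
        exact h5 ▸ h4)
  have h3 : adjAt y (unadj φ) = φ y := by
    change adj (unadj φ) y = φ y
    rw [adj_unadj]
  rwa [h3] at h2

/-- **The uniform exceptional set.** -/
theorem uniform (H : Setup 𝓛 c G X Z) (hind : Indep 𝓛 c G X) :
    ∃ E₀ : Finset ι, ∀ E : Set ι, (E₀ : Set ι) ⊆ E →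
      ∀ n M, IsPow Z G n M → ∀ A, IsProdSet X G Eᶜ A →
      (∀ υ, ProdAct A M υ → SplitsO 𝓛 c A M υ) ∧
      ∀ B, IsProdSet X G E B → ∀ ω, ProdAct B M ω → ∀ υ, ProdAct A (prodO B M ω) υ →
        SplitsO 𝓛 c A (prodO B M ω) υ := by
  classical
  by_cases h0 : ∃ e, (1 : W.H (X e).X) ≠ 0
  · obtain ⟨e, he⟩ := h0
    obtain ⟨E₀, _, hE₀⟩ := hilbert H he
    refine ⟨E₀, fun E hEE n M hM A hA => ⟨fun υ hυ m t ht => ?_,
      fun B hB ω hω υ hυ m t ht => ?_⟩⟩
    · have hE := fun n => (hE₀ n).trans (Rn_mono hEE n)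
      have hAt := H.cls.tr A (H.mem hA)
      exact split_of_range H.dir H.ne hAt hυ ht
        (range_tspan_pow H hind hE hM hA (fm_tmap H.dir H.ne hAt hυ ht))
    · have hE := fun n => (hE₀ n).trans (Rn_mono hEE n)
      have hAt := H.cls.tr A (H.mem hA)
      exact split_of_range H.dir H.ne hAt hυ ht
        (range_tspan_prod H hind hE hM hA hB hω (fm_tmap H.dir H.ne hAt hυ ht))
  · push Not at h0
    -- all cohomology algebras of the family vanish
    have hz : ∀ S A, IsProdSet X G S A → (1 : W.H A.X) = 0 := by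
      intro S A hA
      induction hA with
      | one i _ => exact h0 i
      | mul A B υ _ _ _ _ ihA _ =>
        have h1 := congrArg (W.map (fst A.X B.X)) ihA
        rw [map_one, map_zero] at h1
        exact h1
    have hz' : ∀ (A : OVar W L O) (Y : 𝒱.Obj), (1 : W.H A.X) = 0 →
        ∀ t : W.H (A.X.prod Y), t = 0 := by
      intro A Y hA t
      have h1 := congrArg (W.map (fst A.X Y)) hA
      rw [map_one, map_zero] at h1
      rw [← one_mul t, h1, zero_mul]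
    refine ⟨∅, fun E _ n M hM A hA => ⟨fun υ hυ m t ht => ?_, fun B hB ω hω υ hυ m t ht => ?_⟩⟩
    · rw [hz' A M.X (hz _ A hA) t]
      exact Submodule.zero_mem _
    · rw [hz' A (B.X.prod M.X) (hz _ A hA) t]
      exact Submodule.zero_mem _

end Pool.Agent.TH132.U
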