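import Pool.Agent.TH132.E.GFin
import Pool.Agent.TH132.U.Uni
import Pool.Agent.TH132.U.HDefs

/-!
# The uniform exceptional set for Tate classes, for functorial Galois actions
-/

set_option autoImplicit false

open CategoryTheory AlgebraicGeometry TensorProduct

universe u v w

namespace Pool.Agent.TH132.U

open Pool.Agent.H914 Pool.Agent.H914.VarClass Pool.Agent.H914.VarClass.Obj
  Pool.Agent.H914.WeilCohomology Pool.Agent.TH125.Gal Pool.Agent.TH132.E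

variable {k : Type u} [Field k] {𝒱 : VarClass k} {ops : CycleOps 𝒱}
  {W : WeilCohomology.{u, v} ops} {Γ : Type w} [Group Γ] {χ : Γ →* W.Kˣ}

/-- Functorial actions with the formal properties of the Galois action. -/
structure GalTh (W : WeilCohomology.{u, v} ops) (Γ : Type w) [Group Γ] (χ : Γ →* W.Kˣ) where
  /-- the action -/
  act : ∀ X : 𝒱.Obj, Γ →* (W.H X ≃ₐ[W.K] W.H X)
  gr_mem : ∀ X g i, ∀ a ∈ W.gr X i, act X g a ∈ W.gr X i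
  tr_act : ∀ X g a, W.tr X (act X g a) = (χ g : W.K) ^ X.dim * W.tr X a
  map_act : ∀ {X Y : 𝒱.Obj} (f : X ⟶ Y) g a, act X g (W.map f a) = W.map f (act Y g a)

/-- The variety with its action. -/
def gv (𝓖 : GalTh W Γ χ) (X : 𝒱.Obj) : GVar W Γ := ⟨X, 𝓖.act X⟩

/-- The variety with its operators. -/
noncomputable def gov (𝓖 : GalTh W Γ χ) (X : 𝒱.Obj) : OVar W W.K (Option Γ) := govar (gv 𝓖 X)

/-- The operators. -/
noncomputable def gop (𝓖 : GalTh W Γ χ) (X : 𝒱.Obj) (o : Option Γ) :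
    W.K ⊗[W.K] W.H X →ₐ[W.K] W.K ⊗[W.K] W.H X := mapBase W.K (gact (gv 𝓖 X) o)

lemma isProdVar_gv (𝓖 : GalTh W Γ χ) (X Y : 𝒱.Obj) :
    IsProdVar (gv 𝓖 X) (gv 𝓖 Y) (prodG (gv 𝓖 X) (gv 𝓖 Y) (𝓖.act (X.prod Y))) :=
  IsProdVar.mk _ (fun g a => 𝓖.map_act (fst X Y) g a) (fun g a => 𝓖.map_act (snd X Y) g a)

lemma prodAct_gov (𝓖 : GalTh W Γ χ) (X Y : 𝒱.Obj) :
    ProdAct (gov 𝓖 X) (gov 𝓖 Y) (gop 𝓖 (X.prod Y)) :=
  prodAct_govar (isProdVar_gv 𝓖 X Y)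

lemma oclass_gov (𝓖 : GalTh W Γ χ) : OClass (gmul χ) (Set.range (gov 𝓖)) where
  tr := by
    rintro _ ⟨A, rfl⟩ o y
    change formBase W.K (W.tr A) (mapBase W.K (gact (gv 𝓖 A) o) y) =
      gmul χ o ^ A.dim * formBase W.K (W.tr A) y
    have e : ∀ a, W.tr A (gact (gv 𝓖 A) o a) = gmul χ o ^ A.dim * W.tr A a := by
      intro a
      cases o with
      | none => exact gradeOp_tr a
      | some g => exact 𝓖.tr_act A g a
    exact formBase_comm e y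
  prod := by
    rintro _ ⟨A, rfl⟩ _ ⟨B, rfl⟩
    exact ⟨_, prodAct_gov 𝓖 A B, A.prod B, rfl⟩

lemma gov_prod_eq (𝓖 : GalTh W Γ χ) {X Y : 𝒱.Obj} {υ}
    (h : prodO (gov 𝓖 X) (gov 𝓖 Y) υ ∈ Set.range (gov 𝓖)) : υ = gop 𝓖 (X.prod Y) := by
  obtain ⟨Z, hZ⟩ := h
  have h1 : Z = X.prod Y := congrArg OVar.X hZ
  subst h1
  have h2 := OVar.mk.inj hZ
  exact (eq_of_heq h2.2).symm

variable {ι : Type}

lemma isProdSet_gov (𝓖 : GalTh W Γ χ) {X : ι → 𝒱.Obj} {S : Set ι} {A : OVar W W.K (Option Γ)}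
    (h : IsProdSet (fun i => gov 𝓖 (X i)) (Set.range (gov 𝓖)) S A) :
    ∃ B, IsProd X S B ∧ A = gov 𝓖 B := by
  induction h with
  | one i hi => exact ⟨X i, IsProd.one i hi, rfl⟩
  | mul A B υ _ _ hυ hυG ih1 ih2 =>
    obtain ⟨A, hA, rfl⟩ := ih1
    obtain ⟨B, hB, rfl⟩ := ih2
    refine ⟨A.prod B, IsProd.prod A B hA hB, ?_⟩
    rw [gov_prod_eq 𝓖 hυG]
    rfl

lemma isProductOf_gov (𝓖 : GalTh W Γ χ) {X : ι → 𝒱.Obj} {S : Set ι} {A : 𝒱.Obj}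
    (h : IsProd X S A) :
    IsProdSet (fun i => gov 𝓖 (X i)) (Set.range (gov 𝓖)) S (gov 𝓖 A) := by
  induction h with
  | one i hi => exact IsProdSet.one i hi
  | prod A B _ _ ih1 ih2 =>
    exact IsProdSet.mul _ _ _ ih1 ih2 (prodAct_gov 𝓖 A B) ⟨A.prod B, rfl⟩

lemma isPow_gov (𝓖 : GalTh W Γ χ) {Z : 𝒱.Obj} {M : 𝒱.Obj}
    (h : IsProd (fun _ : Unit => Z) Set.univ M) :
    ∃ n, IsPow (gov 𝓖 Z) (Set.range (gov 𝓖)) n (gov 𝓖 M) := by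
  induction h with
  | one i hi => exact ⟨1, IsPow.one⟩
  | prod A B _ _ ih1 ih2 =>
    obtain ⟨m, h1⟩ := ih1
    obtain ⟨n, h2⟩ := ih2
    exact ⟨m + n, IsPow.mul m n _ _ _ h1 h2 (prodAct_gov 𝓖 A B) ⟨A.prod B, rfl⟩⟩

lemma gov_isPow (𝓖 : GalTh W Γ χ) {Z : 𝒱.Obj} {n : ℕ} {A : OVar W W.K (Option Γ)}
    (h : IsPow (gov 𝓖 Z) (Set.range (gov 𝓖)) n A) :
    ∃ M, IsProd (fun _ : Unit => Z) Set.univ M ∧ A = gov 𝓖 M := by
  induction h with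
  | one => exact ⟨Z, IsProd.one (X := fun _ : Unit => Z) () trivial, rfl⟩
  | mul m n A B υ _ _ hυ hυG ih1 ih2 =>
    obtain ⟨A, hA, rfl⟩ := ih1
    obtain ⟨B, hB, rfl⟩ := ih2
    refine ⟨A.prod B, IsProd.prod A B hA hB, ?_⟩
    rw [gov_prod_eq 𝓖 hυG]
    rfl

/-- The Tate classes. -/
def GalTh.tate (𝓖 : GalTh W Γ χ) (X : 𝒱.Obj) (j : ℕ) : Set (W.H X) :=
  tateClasses χ (W.gr X) (𝓖.act X) j

/-- The Tate classes split. -/
def GalTh.Splits (𝓖 : GalTh W Γ χ) (A B : 𝒱.Obj) : Prop :=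
  ClassesSplit (W.map (fst A B)) (W.map (snd A B)) (𝓖.tate A) (𝓖.tate B) (𝓖.tate (A.prod B))

lemma splitsO_of_gSplits (𝓖 : GalTh W Γ χ) {A B : 𝒱.Obj} (h : 𝓖.Splits A B) :
    SplitsO (glev Γ) (gmul χ) (gov 𝓖 A) (gov 𝓖 B) (gop 𝓖 (A.prod B)) :=
  splitsO_of_tateSplits (A := gv 𝓖 A) (B := gv 𝓖 B) (υ := 𝓖.act (A.prod B))
    (tateSplits_iff.2 h)

lemma gSplits_of_splitsO (𝓖 : GalTh W Γ χ) {A B : 𝒱.Obj}
    (h : SplitsO (glev Γ) (gmul χ) (gov 𝓖 A) (gov 𝓖 B) (gop 𝓖 (A.prod B))) : 𝓖.Splits A B :=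
  tateSplits_iff.1 (tateSplits_of_splitsO (A := gv 𝓖 A) (B := gv 𝓖 B)
    (υ := 𝓖.act (A.prod B)) h)

lemma allReducible_gov (𝓖 : GalTh W Γ χ) {A : 𝒱.Obj} (hs : SemisimpleAct (𝓖.act A)) :
    AllReducible (glev Γ) (opSp (gov 𝓖 A)) := by
  rintro D ⟨Δ, hΔ, rfl⟩ N hN
  have key : ∀ N : Submodule W.K (W.H A), Stable (fun o : (insert none
      (some '' (Δ : Set Γ)) : Set (Option Γ)) => (opSp (gov 𝓖 A)).τ o) N ↔
        (∀ x ∈ N, gradeOp W A x ∈ N) ∧ ∀ g ∈ Δ, ∀ x ∈ N, 𝓖.act A g x ∈ N := by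
    intro N
    constructor
    · intro h
      refine ⟨?_, fun g hg => ?_⟩
      · exact (stable_base_iff (L := W.K) (f := gradeOp W A)).1 (h ⟨none, Or.inl rfl⟩)
      · exact (stable_base_iff (L := W.K) (f := (𝓖.act A g : W.H A →ₐ[W.K] W.H A))).1
          (h ⟨some g, Or.inr ⟨g, hg, rfl⟩⟩)
    · rintro ⟨h1, h2⟩ ⟨o, ho⟩
      rcases ho with rfl | ⟨g, hg, rfl⟩
      · exact (stable_base_iff (L := W.K) (f := gradeOp W A)).2 h1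
      · exact (stable_base_iff (L := W.K) (f := (𝓖.act A g : W.H A →ₐ[W.K] W.H A))).2 (h2 g hg)
  obtain ⟨hN1, hN2⟩ := (key N).1 hN
  obtain ⟨N', hN', hc⟩ := hs Δ hΔ N hN2
  have hle : N ≤ ⨆ i, N ⊓ W.gr A i :=
    stable_le_iSup (W.isInternal A) (two_pow_injective (K := W.K)) hN1
  obtain ⟨N'', h1, h2, h3⟩ := exists_graded_compl (W.isInternal A) (n := 2 * A.dim + 1)
    (fun i hi => W.gr_eq_bot A i (by omega))
    (S := {f | ∃ g ∈ Δ, f = (𝓖.act A g).toLinearMap}) (by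
      rintro _ ⟨g, hg, rfl⟩ i a ha
      exact 𝓖.gr_mem A g i a ha) hle (by
      rintro _ ⟨g, hg, rfl⟩ x hx
      exact hN2 g hg x hx) (by
      rintro _ ⟨g, hg, rfl⟩ x hx
      exact hN' g hg x hx) hc
  exact ⟨N'', (key N'').2 ⟨h1 _, fun g hg x hx => h2 _ ⟨g, hg, rfl⟩ x hx⟩, h3⟩

/-- The members of the family are independent. -/
def GalTh.Independent (𝓖 : GalTh W Γ χ) (X : ι → 𝒱.Obj) : Prop :=
  ∀ (T : Set ι) (A B : 𝒱.Obj), IsProd X T A → IsProd X Tᶜ B → 𝓖.Splits A B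

/-- **The uniform exceptional set for Tate classes.** -/
theorem gal_uniform (𝓖 : GalTh W Γ χ) (X : ι → 𝒱.Obj) (hX : 𝓖.Independent X)
    (hs : ∀ A, IsProd X Set.univ A → SemisimpleAct (𝓖.act A)) (Z : 𝒱.Obj)
    (hZ : ∀ M, IsProd (fun _ : Unit => Z) Set.univ M → SemisimpleAct (𝓖.act M)) :
    ∃ E₀ : Finset ι, ∀ E : Set ι, (E₀ : Set ι) ⊆ E →
      ∀ M, IsProd (fun _ : Unit => Z) Set.univ M → ∀ A, IsProd X Eᶜ A →
        𝓖.Splits A M ∧ ∀ B, IsProd X E B → 𝓖.Splits A (B.prod M) := by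
  have hset : Setup (glev Γ) (gmul χ) (Set.range (gov 𝓖)) (fun i => gov 𝓖 (X i)) (gov 𝓖 Z) :=
    { dir := glev_directed
      ne := gmul_ne χ
      cls := oclass_gov 𝓖
      memX := fun i => ⟨X i, rfl⟩
      memZ := ⟨Z, rfl⟩
      redX := by
        intro S A hA
        obtain ⟨A, hA', rfl⟩ := isProdSet_gov 𝓖 (hA.mono (Set.subset_univ S))
        exact allReducible_gov 𝓖 (hs A hA')
      redZ := by
        intro n A hA
        obtain ⟨M, hM, rfl⟩ := gov_isPow 𝓖 hA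
        exact allReducible_gov 𝓖 (hZ M hM) }
  have hind : Indep (glev Γ) (gmul χ) (Set.range (gov 𝓖)) (fun i => gov 𝓖 (X i)) := by
    intro S A B υ hA hB hυ hυG
    obtain ⟨A, hA', rfl⟩ := isProdSet_gov 𝓖 hA
    obtain ⟨B, hB', rfl⟩ := isProdSet_gov 𝓖 hB
    rw [gov_prod_eq 𝓖 hυG]
    exact splitsO_of_gSplits 𝓖 (hX S A B hA' hB')
  obtain ⟨E₀, h⟩ := uniform hset hind
  refine ⟨E₀, fun E hE M hM A hA => ?_⟩
  obtain ⟨n, hM'⟩ := isPow_gov 𝓖 hM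
  obtain ⟨h1, h2⟩ := h E hE n _ hM' _ (isProductOf_gov 𝓖 hA)
  refine ⟨gSplits_of_splitsO 𝓖 (h1 _ (prodAct_gov 𝓖 A M)), fun B hB => ?_⟩
  exact gSplits_of_splitsO 𝓖 (B := B.prod M) (h2 _ (isProductOf_gov 𝓖 hB) _
    (prodAct_gov 𝓖 B M) _ (prodAct_gov 𝓖 A (B.prod M)))

end Pool.Agent.TH132.U
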