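import Pool.Agent.TH132.E.HMain
import Pool.Agent.TH132.U.HDefs
import Pool.Agent.TH132.U.Uni

/-!
# The uniform exceptional set for Hodge classes
-/

set_option autoImplicit false

open CategoryTheory AlgebraicGeometry TensorProduct

universe u

namespace Pool.Agent.TH132.U

open Pool.Agent.H914 Pool.Agent.H914.VarClass Pool.Agent.H914.VarClass.Obj
  Pool.Agent.H914.WeilCohomology Pool.Agent.TH132.E

variable {k : Type u} [Field k] {𝒱 : VarClass k} {ops : CycleOps 𝒱}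
  {W : WeilCohomology.{u, 0} ops} [Algebra W.K ℂ]

/-- The operator acting as `2 ^ p * 3 ^ q` on `H^(p,q)`. -/
noncomputable def hodgeOp (𝓗 : HodgeTheory W) (X : 𝒱.Obj) :
    ℂ ⊗[W.K] W.H X →ₐ[ℂ] ℂ ⊗[W.K] W.H X :=
  scalAlg (𝓗.isHodgeDecomp X).isInternal (𝓗.isHodgeDecomp X).one_mem
    (𝓗.isHodgeDecomp X).mul_mem fH fH_zero fH_add

lemma hodgeOp_apply (𝓗 : HodgeTheory W) (X : 𝒱.Obj) (x : ℂ ⊗[W.K] W.H X) :
    hodgeOp 𝓗 X x = scalG ((𝓗.isHodgeDecomp X).isInternal) fH x := rfl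

/-- The variety with the Hodge operator. -/
noncomputable def ovar (𝓗 : HodgeTheory W) (X : 𝒱.Obj) : OVar W ℂ Unit := ⟨X, fun _ => hodgeOp 𝓗 X⟩

lemma tvec_hodge (𝓗 : HodgeTheory W) {X : 𝒱.Obj} {j : ℕ} {t : W.H X} (h : t ∈ 𝓗.hodge X j) :
    TVec {Set.univ} (fun _ => 6) (ovar 𝓗 X) j t := by
  have h1 : hodgeOp 𝓗 X ((1 : ℂ) ⊗ₜ[W.K] t) = (6 : ℂ) ^ (j : ℤ) • ((1 : ℂ) ⊗ₜ[W.K] t) := by
    rw [hodgeOp_apply, scalG_apply _ _ h, fH_diag, zpow_natCast]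
  exact ⟨Set.univ, rfl, fun o _ => h1⟩

lemma hodge_tvec (𝓗 : HodgeTheory W) {X : 𝒱.Obj} {m : ℤ} {t : W.H X}
    (h : TVec {Set.univ} (fun _ => 6) (ovar 𝓗 X) m t) :
    t = 0 ∨ ∃ j : ℕ, m = j ∧ t ∈ 𝓗.hodge X j := by
  obtain ⟨D, hD, h⟩ := h
  rw [Set.mem_singleton_iff] at hD
  subst hD
  have h1 : scalG ((𝓗.isHodgeDecomp X).isInternal) fH ((1 : ℂ) ⊗ₜ[W.K] t) = (6 : ℂ) ^ m • ((1 : ℂ) ⊗ₜ[W.K] t) :=
    h () trivial
  by_cases ht : t = 0
  · exact Or.inl ht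
  · right
    have h0 : (1 : ℂ) ⊗ₜ[W.K] t ≠ 0 := fun h0 => ht (tmul_injective t h0)
    obtain ⟨p, hp, hpt⟩ := eigen_mem ((𝓗.isHodgeDecomp X).isInternal) fH_injective h1 h0
    obtain ⟨j, hj, rfl⟩ := fH_eq_zpow hp
    exact ⟨j, hj, hpt⟩

lemma prodAct_ovar (𝓗 : HodgeTheory W) (X Y : 𝒱.Obj) :
    ProdAct (ovar 𝓗 X) (ovar 𝓗 Y) (fun _ => hodgeOp 𝓗 (X.prod Y)) where
  fst := by
    intro o x
    change hodgeOp 𝓗 (X.prod Y) (mapBase ℂ (W.map (fst X Y)) x) =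
      mapBase ℂ (W.map (fst X Y)) (hodgeOp 𝓗 X x)
    refine grG_induction ((𝓗.isHodgeDecomp X).isInternal) (p := fun x =>
      hodgeOp 𝓗 (X.prod Y) (mapBase ℂ (W.map (fst X Y)) x) =
        mapBase ℂ (W.map (fst X Y)) (hodgeOp 𝓗 X x)) ?_ ?_ ?_ x
    · simp only [map_zero]
    · intro p a ha
      rw [hodgeOp_apply, hodgeOp_apply, scalG_apply _ _ (𝓗.isHodgeMap (fst X Y) p a ha),
        scalG_apply _ _ ha, map_smul]
    · intro a b ha hb
      simp only [map_add, ha, hb]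
  snd := by
    intro o x
    change hodgeOp 𝓗 (X.prod Y) (mapBase ℂ (W.map (snd X Y)) x) =
      mapBase ℂ (W.map (snd X Y)) (hodgeOp 𝓗 Y x)
    refine grG_induction ((𝓗.isHodgeDecomp Y).isInternal) (p := fun x =>
      hodgeOp 𝓗 (X.prod Y) (mapBase ℂ (W.map (snd X Y)) x) =
        mapBase ℂ (W.map (snd X Y)) (hodgeOp 𝓗 Y x)) ?_ ?_ ?_ x
    · simp only [map_zero]
    · intro p a ha
      rw [hodgeOp_apply, hodgeOp_apply, scalG_apply _ _ (𝓗.isHodgeMap (snd X Y) p a ha),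
        scalG_apply _ _ ha, map_smul]
    · intro a b ha hb
      simp only [map_add, ha, hb]

lemma oclass_hodge (𝓗 : HodgeTheory W) : OClass (fun _ => (6 : ℂ)) (Set.range (ovar 𝓗)) where
  tr := by
    rintro _ ⟨X, rfl⟩ o y
    change formBase ℂ (W.tr X) (hodgeOp 𝓗 X y) = 6 ^ X.dim * formBase ℂ (W.tr X) y
    refine grG_induction ((𝓗.isHodgeDecomp X).isInternal) (p := fun y =>
      formBase ℂ (W.tr X) (hodgeOp 𝓗 X y) = 6 ^ X.dim * formBase ℂ (W.tr X) y) ?_ ?_ ?_ y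
    · simp only [map_zero, mul_zero]
    · intro p a ha
      rw [hodgeOp_apply, scalG_apply _ _ ha, map_smul, smul_eq_mul]
      by_cases hp : p = (X.dim, X.dim)
      · rw [hp, fH_diag]
      · rw [(𝓗.isHodgeDecomp X).tr_eq_zero p hp a ha, mul_zero, mul_zero]
    · intro a b ha hb
      simp only [map_add, ha, hb, mul_add]
  prod := by
    rintro _ ⟨X, rfl⟩ _ ⟨Y, rfl⟩
    exact ⟨_, prodAct_ovar 𝓗 X Y, X.prod Y, rfl⟩

lemma ovar_prod_eq (𝓗 : HodgeTheory W) {X Y : 𝒱.Obj} {υ}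
    (h : prodO (ovar 𝓗 X) (ovar 𝓗 Y) υ ∈ Set.range (ovar 𝓗)) :
    υ = fun _ => hodgeOp 𝓗 (X.prod Y) := by
  obtain ⟨Z, hZ⟩ := h
  have h1 : Z = X.prod Y := congrArg OVar.X hZ
  subst h1
  have h2 := OVar.mk.inj hZ
  exact (eq_of_heq h2.2).symm

variable {ι : Type}

lemma isProdSet_ovar (𝓗 : HodgeTheory W) {X : ι → 𝒱.Obj} {S : Set ι} {A : OVar W ℂ Unit}
    (h : IsProdSet (fun i => ovar 𝓗 (X i)) (Set.range (ovar 𝓗)) S A) :
    ∃ B, IsProd X S B ∧ A = ovar 𝓗 B := by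
  induction h with
  | one i hi => exact ⟨X i, IsProd.one i hi, rfl⟩
  | mul A B υ _ _ hυ hυG ih1 ih2 =>
    obtain ⟨A, hA, rfl⟩ := ih1
    obtain ⟨B, hB, rfl⟩ := ih2
    refine ⟨A.prod B, IsProd.prod A B hA hB, ?_⟩
    rw [ovar_prod_eq 𝓗 hυG]
    rfl

lemma isProductOf_ovar (𝓗 : HodgeTheory W) {X : ι → 𝒱.Obj} {S : Set ι} {A : 𝒱.Obj}
    (h : IsProd X S A) :
    IsProdSet (fun i => ovar 𝓗 (X i)) (Set.range (ovar 𝓗)) S (ovar 𝓗 A) := by
  induction h with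
  | one i hi => exact IsProdSet.one i hi
  | prod A B _ _ ih1 ih2 =>
    exact IsProdSet.mul _ _ _ ih1 ih2 (prodAct_ovar 𝓗 A B) ⟨A.prod B, rfl⟩

lemma splitsO_of_splits (𝓗 : HodgeTheory W) {A B : 𝒱.Obj} (h : 𝓗.Splits A B) {υ}
    (hυ : υ = fun _ => hodgeOp 𝓗 (A.prod B)) :
    SplitsO {Set.univ} (fun _ => 6) (ovar 𝓗 A) (ovar 𝓗 B) υ := by
  subst hυ
  have key : ∀ m, ∀ t : W.H (A.prod B), TVec {Set.univ} (fun _ => 6) (ovar 𝓗 (A.prod B)) m t →
      t ∈ Submodule.span W.K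
        (tProducts {Set.univ} (fun _ => 6) (ovar 𝓗 A) (ovar 𝓗 B) : Set (W.H (A.prod B))) := by
    intro m t ht
    rcases hodge_tvec 𝓗 (X := A.prod B) ht with h0 | ⟨j, rfl, hj⟩
    · rw [h0]
      have h1 : ∀ P : Submodule W.K (W.H (A.prod B)), (0 : W.H (A.prod B)) ∈ P :=
        fun P => P.zero_mem
      exact h1 _
    · have h2 := h j t hj
      have h3 : crossProducts (W.map (fst A B)) (W.map (snd A B)) (𝓗.hodge A) (𝓗.hodge B) j ⊆
          (tProducts {Set.univ} (fun _ => 6) (ovar 𝓗 A) (ovar 𝓗 B) : Set (W.H (A.prod B))) := by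
        rintro y ⟨i, i', a, b, _, ha, hb, rfl⟩
        exact ⟨i, i', a, b, tvec_hodge 𝓗 ha, tvec_hodge 𝓗 hb, rfl⟩
      exact Submodule.span_mono h3 h2
  exact key

lemma hodge_mem_gr (𝓗 : HodgeTheory W) {X : 𝒱.Obj} {j : ℕ} {a : W.H X} (h : a ∈ 𝓗.hodge X j) :
    a ∈ W.gr X (2 * j) := by
  have h1 := (𝓗.isHodgeDecomp X).le_gr (j, j) h
  have h2 : ((j, j) : ℕ × ℕ).1 + ((j, j) : ℕ × ℕ).2 = 2 * j := by
    change j + j = 2 * j
    ring
  rw [h2] at h1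
  exact mem_of_tmul_mem h1

lemma proj_product_mem (𝓗 : HodgeTheory W) {A B : 𝒱.Obj} (j : ℕ) {n n' : ℤ} {a : W.H A}
    {b : W.H B} (ha : TVec {Set.univ} (fun _ => 6) (ovar 𝓗 A) n a)
    (hb : TVec {Set.univ} (fun _ => 6) (ovar 𝓗 B) n' b) :
    proj (W.isInternal (A.prod B)) (2 * j) (W.map (fst A B) a * W.map (snd A B) b) ∈
      Submodule.span W.K
        (crossProducts (W.map (fst A B)) (W.map (snd A B)) (𝓗.hodge A) (𝓗.hodge B) j) := by
  rcases hodge_tvec 𝓗 ha with rfl | ⟨i, rfl, hi⟩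
  · rw [map_zero, zero_mul, map_zero]
    exact Submodule.zero_mem _
  rcases hodge_tvec 𝓗 hb with rfl | ⟨i', rfl, hi'⟩
  · rw [map_zero, mul_zero, map_zero]
    exact Submodule.zero_mem _
  have h3 : W.map (fst A B) a * W.map (snd A B) b ∈ W.gr (A.prod B) (2 * i + 2 * i') :=
    W.mul_mem (W.map_mem _ (hodge_mem_gr 𝓗 hi)) (W.map_mem _ (hodge_mem_gr 𝓗 hi'))
  by_cases hij : i + i' = j
  · have h4 : proj (W.isInternal (A.prod B)) (2 * j) (W.map (fst A B) a * W.map (snd A B) b) =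
        W.map (fst A B) a * W.map (snd A B) b := by
      apply proj_same
      rw [← hij, mul_add]
      exact h3
    rw [h4]
    exact Submodule.subset_span ⟨i, i', a, b, hij, hi, hi', rfl⟩
  · have h4 : proj (W.isInternal (A.prod B)) (2 * j)
        (W.map (fst A B) a * W.map (snd A B) b) = 0 := proj_ne _ h3 (by omega)
    rw [h4]
    exact Submodule.zero_mem _

lemma splits_of_splitsO (𝓗 : HodgeTheory W) {A B : 𝒱.Obj}
    (h : SplitsO {Set.univ} (fun _ => 6) (ovar 𝓗 A) (ovar 𝓗 B)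
      (fun _ => hodgeOp 𝓗 (A.prod B))) : 𝓗.Splits A B := by
  intro j t ht
  have h1 : t ∈ Submodule.span W.K (tProducts {Set.univ} (fun _ => 6) (ovar 𝓗 A) (ovar 𝓗 B)) :=
    h j t (tvec_hodge 𝓗 (X := A.prod B) ht)
  have h2 : proj (W.isInternal (A.prod B)) (2 * j) t = t := proj_same _ (hodge_mem_gr 𝓗 ht)
  rw [← h2]
  have h3 : ∀ t ∈ Submodule.span W.K
      (tProducts {Set.univ} (fun _ => 6) (ovar 𝓗 A) (ovar 𝓗 B)),
      proj (W.isInternal (A.prod B)) (2 * j) t ∈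
        Submodule.span W.K
          (crossProducts (W.map (fst A B)) (W.map (snd A B)) (𝓗.hodge A) (𝓗.hodge B) j) := by
    intro t ht
    induction ht using Submodule.span_induction with
    | mem y hy =>
      obtain ⟨n, n', a, b, ha, hb, rfl⟩ := hy
      exact proj_product_mem 𝓗 j ha hb
    | zero => exact (map_zero (proj (W.isInternal (A.prod B)) (2 * j))).symm ▸
        Submodule.zero_mem _
    | add x y _ _ hx hy =>
      exact (map_add (proj (W.isInternal (A.prod B)) (2 * j)) x y).symm ▸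
        Submodule.add_mem _ hx hy
    | smul r x _ hx =>
      exact (map_smul (proj (W.isInternal (A.prod B)) (2 * j)) r x).symm ▸
        Submodule.smul_mem _ r hx
  exact h3 t h1

lemma allReducible_hodge (𝓗 : HodgeTheory W) (X : 𝒱.Obj) :
    AllReducible {Set.univ} (opSp (ovar 𝓗 X)) := by
  intro D hD
  rw [Set.mem_singleton_iff] at hD
  subst hD
  intro N hN
  have key : ∀ N : Submodule W.K (W.H X), Stable (fun o : (Set.univ : Set Unit) =>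
      (opSp (ovar 𝓗 X)).τ o) N ↔ IsSubHodge (𝓗.comp X) N := by
    intro N
    constructor
    · intro h
      exact stable_le_iSup ((𝓗.isHodgeDecomp X).isInternal) fH_injective
        (fun x hx => h ⟨(), trivial⟩ x hx)
    · intro h o x hx
      exact scalG_mem_of_iSup ((𝓗.isHodgeDecomp X).isInternal) h hx
  obtain ⟨N', hN', hc⟩ := 𝓗.hasComplements X N ((key N).1 hN)
  exact ⟨N', (key N').2 hN', hc⟩

lemma isHodge_fst (𝓗 : HodgeTheory W) {A B : 𝒱.Obj} {i j : ℕ} {a : W.H A} {b : W.H B}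
    (ha : a ∈ 𝓗.hodge A i) (hb : b ∈ 𝓗.hodge B j) :
    W.map (fst A B) a * W.map (snd A B) b ∈ 𝓗.hodge (A.prod B) (i + j) := by
  have h1 := (𝓗.isHodgeDecomp (A.prod B)).mul_mem (i, i) (j, j) _ _ (𝓗.isHodgeMap (fst A B) (i, i) _ ha)
    (𝓗.isHodgeMap (snd A B) (j, j) _ hb)
  rw [Algebra.TensorProduct.map_tmul, Algebra.TensorProduct.map_tmul,
    Algebra.TensorProduct.tmul_mul_tmul, map_one, mul_one] at h1
  exact h1

omit [Algebra W.K ℂ] in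
lemma push_fst_mul {A B : 𝒱.Obj} (a : W.H A) {b : W.H B} {n : ℕ} (hb : b ∈ W.gr B (2 * n)) :
    W.push (fst A B) (W.map (fst A B) a * W.map (snd A B) b) = W.tr B b • a := by
  rw [← sub_eq_zero]
  apply W.nondeg
  intro y
  rw [sub_mul, map_sub, sub_eq_zero, W.tr_push]
  refine gr_induction (W.isInternal A) (p := fun y => W.tr (A.prod B) (W.map (fst A B) a *
    W.map (snd A B) b * W.map (fst A B) y) = W.tr A (W.tr B b • a * y)) ?_ ?_ y
  · intro i y hy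
    have h1 : W.map (snd A B) b * W.map (fst A B) y = W.map (fst A B) y * W.map (snd A B) b := by
      rw [W.comm (W.map_mem (snd A B) hb) (W.map_mem (fst A B) hy)]
      rw [mul_assoc, pow_mul, neg_one_sq, one_pow, one_smul]
    rw [mul_assoc, h1, ← mul_assoc, ← map_mul, W.tr_prod, smul_mul_assoc, map_smul, smul_eq_mul,
      mul_comm]
  · intro y z hy hz
    rw [map_add, mul_add, map_add, hy, hz, mul_add, map_add]

/-- The Hodge classes on a product with splitting Hodge classes. -/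
lemma allIn_prod_iff (𝓗 : HodgeTheory W) {S : Classes W}
    (hS : ClassSystem 𝓗 S) {A B : 𝒱.Obj} (h : 𝓗.Splits A B) :
    𝓗.AllIn S (A.prod B) ↔ 𝓗.AllIn S A ∧ 𝓗.AllIn S B := by
  constructor
  · intro hAB
    constructor
    · intro j a ha
      obtain ⟨b, hb, hb1⟩ := hS.point B
      have h1 := hAB _ (isHodge_fst 𝓗 ha (hS.isHodge _ _ _ hb))
      have h2 := hS.stablePush (A.prod B) A (fst A B) (j + B.dim) j
        (by rw [dim_prod]; ring) _ h1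
      rwa [push_fst_mul a (hodge_mem_gr 𝓗 (hS.isHodge _ _ _ hb)), hb1, one_smul] at h2
    · intro j b hb
      obtain ⟨a, ha, ha1⟩ := hS.point A
      have h1 := hAB _ (isHodge_fst 𝓗 (hS.isHodge _ _ _ ha) hb)
      have h2 := hS.stablePush (A.prod B) B (snd A B) (A.dim + j) j
        (by rw [dim_prod]; ring) _ h1
      rwa [W.push_snd, ha1, one_smul] at h2
  · rintro ⟨hA, hB⟩ j t ht
    refine Submodule.span_le.2 ?_ (h j t ht)
    rintro _ ⟨i, i', a, b, rfl, ha, hb, rfl⟩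
    exact hS.stableMul.1 _ _ _ _ _ (hS.stableMul.2 _ _ _ _ _ (hA i ha))
      (hS.stableMul.2 _ _ _ _ _ (hB i' hb))


lemma indep_ovar (𝓗 : HodgeTheory W) {X : ι → 𝒱.Obj} (hX : 𝓗.Independent X) :
    Indep {(Set.univ : Set Unit)} (fun _ => (6 : ℂ)) (Set.range (ovar 𝓗))
      (fun i => ovar 𝓗 (X i)) := by
  intro S A B υ hA hB hυ hυG
  obtain ⟨A, hA', rfl⟩ := isProdSet_ovar 𝓗 hA
  obtain ⟨B, hB', rfl⟩ := isProdSet_ovar 𝓗 hB
  exact splitsO_of_splits 𝓗 (hX S A B hA' hB') (ovar_prod_eq 𝓗 hυG)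

lemma setup_hodge (𝓗 : HodgeTheory W) (X : ι → 𝒱.Obj) (Z : 𝒱.Obj) :
    Setup {(Set.univ : Set Unit)} (fun _ => (6 : ℂ)) (Set.range (ovar 𝓗))
      (fun i => ovar 𝓗 (X i)) (ovar 𝓗 Z) where
  dir := ⟨Set.singleton_nonempty _, fun D hD D' hD' => by
    rw [Set.mem_singleton_iff] at hD hD'
    subst hD hD'
    exact ⟨Set.univ, rfl, by simp⟩⟩
  ne := fun _ => by norm_num
  cls := oclass_hodge 𝓗
  memX := fun i => ⟨X i, rfl⟩
  memZ := ⟨Z, rfl⟩
  redX := by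
    intro S A hA
    obtain ⟨X', _, rfl⟩ := isProdSet_ovar 𝓗 hA
    exact allReducible_hodge 𝓗 X'
  redZ := by
    intro n A hA
    obtain ⟨X', rfl⟩ := hA.mem (G := Set.range (ovar 𝓗)) (Set.mem_range_self Z)
    exact allReducible_hodge 𝓗 X'

lemma isPow_ovar (𝓗 : HodgeTheory W) {Z : 𝒱.Obj} {M : 𝒱.Obj}
    (h : IsProd (fun _ : Unit => Z) Set.univ M) :
    ∃ n, IsPow (ovar 𝓗 Z) (Set.range (ovar 𝓗)) n (ovar 𝓗 M) := by
  induction h with
  | one i hi => exact ⟨1, IsPow.one⟩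
  | prod A B _ _ ih1 ih2 =>
    obtain ⟨m, h1⟩ := ih1
    obtain ⟨n, h2⟩ := ih2
    exact ⟨m + n, IsPow.mul m n _ _ _ h1 h2 (prodAct_ovar 𝓗 A B) ⟨A.prod B, rfl⟩⟩

/-- **The uniform exceptional set for Hodge classes.** -/
theorem hodge_uniform (𝓗 : HodgeTheory W) (X : ι → 𝒱.Obj) (hX : 𝓗.Independent X) (Z : 𝒱.Obj) :
    ∃ E₀ : Finset ι, ∀ E : Set ι, (E₀ : Set ι) ⊆ E →
      ∀ M, IsProd (fun _ : Unit => Z) Set.univ M → ∀ A, IsProd X Eᶜ A →
        𝓗.Splits A M ∧ ∀ B, IsProd X E B → 𝓗.Splits A (B.prod M) := by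
  obtain ⟨E₀, h⟩ := uniform (setup_hodge 𝓗 X Z) (indep_ovar 𝓗 hX)
  refine ⟨E₀, fun E hE M hM A hA => ?_⟩
  obtain ⟨n, hM'⟩ := isPow_ovar 𝓗 hM
  obtain ⟨h1, h2⟩ := h E hE n _ hM' _ (isProductOf_ovar 𝓗 hA)
  refine ⟨splits_of_splitsO 𝓗 (h1 _ (prodAct_ovar 𝓗 A M)), fun B hB => ?_⟩
  exact splits_of_splitsO 𝓗 (B := B.prod M) (h2 _ (isProductOf_ovar 𝓗 hB) _ (prodAct_ovar 𝓗 B M) _
    (prodAct_ovar 𝓗 A (B.prod M)))

end Pool.Agent.TH132.U
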