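import Pool.Agent.TH132.U.Rey

/-!
# Finite generation: finitely many members of the family suffice
-/

set_option autoImplicit false

open CategoryTheory AlgebraicGeometry TensorProduct

universe u v w

namespace Pool.Agent.TH132.U

open Pool.Agent.H914 Pool.Agent.H914.VarClass Pool.Agent.H914.VarClass.Obj
  Pool.Agent.H914.WeilCohomology Pool.Agent.TH132.E

variable {k : Type u} [Field k] {𝒱 : VarClass k} {ops : CycleOps 𝒱}
  {W : WeilCohomology.{u, v} ops} {L : Type v} [Field L] [Algebra W.K L] {O : Type w}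
  {𝓛 : Set (Set O)} {c : O → L} {G : Set (OVar W L O)} {ι : Type*} {X : ι → OVar W L O}
  {Z : OVar W L O}

/-- A product of members involves only finitely many of them. -/
lemma exists_finset {S : Set ι} {A : OVar W L O} (h : IsProdSet X G S A) :
    ∃ J : Finset ι, (J : Set ι) ⊆ S ∧ IsProdSet X G (J : Set ι) A := by
  classical
  induction h with
  | one i hi => exact ⟨{i}, by simpa using hi, IsProdSet.one i (by simp)⟩
  | mul A B υ _ _ h3 h4 ihA ihB =>
    obtain ⟨J, hJ, h1⟩ := ihA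
    obtain ⟨J', hJ', h2⟩ := ihB
    refine ⟨J ∪ J', by simp [hJ, hJ'], IsProdSet.mul A B υ (h1.mono ?_) (h2.mono ?_) h3 h4⟩
    · simp
    · simp

/-- An element of the sum of the images involves only finitely many members. -/
lemma exists_finset_Rn {S : Set ι} {n : ℕ} {f : Pol Z} (hf : f ∈ Rn 𝓛 c G X Z S n) :
    ∃ J : Finset ι, (J : Set ι) ⊆ S ∧ f ∈ Rn 𝓛 c G X Z (J : Set ι) n := by
  classical
  have h1 : Rn 𝓛 c G X Z S n ≤ ⨆ J : {J : Finset ι // (J : Set ι) ⊆ S},
      Rn 𝓛 c G X Z (J.1 : Set ι) n := by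
    rw [Rn_le_iff]
    intro A hA m φ hφ hr
    obtain ⟨J, hJ, hA'⟩ := exists_finset hA
    exact (range_le_Rn hA' hφ hr).trans
      (le_iSup (fun J : {J : Finset ι // (J : Set ι) ⊆ S} => Rn 𝓛 c G X Z (J.1 : Set ι) n) ⟨J, hJ⟩)
  have hd : Directed (· ≤ ·) fun J : {J : Finset ι // (J : Set ι) ⊆ S} =>
      Rn 𝓛 c G X Z (J.1 : Set ι) n := by
    intro J J'
    refine ⟨⟨J.1 ∪ J'.1, by simp [J.2, J'.2]⟩, Rn_mono (by simp) n, Rn_mono (by simp) n⟩
  have : Nonempty {J : Finset ι // (J : Set ι) ⊆ S} := ⟨⟨∅, by simp⟩⟩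
  obtain ⟨J, hJ⟩ := (Submodule.mem_iSup_of_directed _ hd).1 (h1 hf)
  exact ⟨J.1, J.2, hJ⟩

attribute [local instance] MvPolynomial.gradedAlgebra

open DirectSum in
/-- **Hilbert's argument.** -/
theorem hilbert (H : Setup 𝓛 c G X Z) {e : ι} (h1 : (1 : W.H (X e).X) ≠ 0) :
    ∃ E : Finset ι, e ∈ E ∧ ∀ n, Rn 𝓛 c G X Z Set.univ n ≤ Rn 𝓛 c G X Z (E : Set ι) n := by
  classical
  let gens : Set (Pol Z) := {f | ∃ n, 0 < n ∧ f ∈ Rn 𝓛 c G X Z Set.univ n}
  have hfg : (Submodule.span (Pol Z) gens).FG := IsNoetherian.noetherian _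
  obtain ⟨s, hs, hspan⟩ := (Submodule.fg_span_iff_fg_span_finset_subset gens).1 hfg
  have hs' : ∀ f : s, ∃ n, 0 < n ∧ f.1 ∈ Rn 𝓛 c G X Z Set.univ n := fun f => hs f.2
  choose d hd hdm using hs'
  choose J _ hJ using fun f : s => exists_finset_Rn (hdm f)
  let E : Finset ι := insert e (Finset.univ.biUnion J)
  have heE : e ∈ E := Finset.mem_insert_self _ _
  have hJE : ∀ f : s, (J f : Set ι) ⊆ (E : Set ι) := by
    intro f x hx
    have : x ∈ E := Finset.mem_insert_of_mem (Finset.mem_biUnion.2 ⟨f, Finset.mem_univ f, hx⟩)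
    exact this
  have hgE : ∀ f : s, f.1 ∈ Rn 𝓛 c G X Z (E : Set ι) (d f) := fun f => Rn_mono (hJE f) _ (hJ f)
  refine ⟨E, heE, fun n => ?_⟩
  induction n using Nat.strong_induction_on with
  | _ n ih =>
    rcases Nat.eq_zero_or_pos n with rfl | hn
    · exact (Rn_le _ 0).trans (hom_zero_le H (by exact_mod_cast heE) h1)
    intro f hf
    have hfspan : f ∈ Submodule.span (Pol Z) (s : Set (Pol Z)) := by
      rw [← hspan]
      exact Submodule.subset_span ⟨n, hn, hf⟩
    obtain ⟨a, ha⟩ := (Submodule.mem_span_finset').1 hfspan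
    -- the projections
    have hproj : ∀ m, ∃ p : Pol Z →ₗ[W.K] Pol Z,
        IsTProj 𝓛 c (polSp Z) (hom Z m) (Rn 𝓛 c G X Z Set.univ m) p := fun m =>
      exists_projR H (S := Set.univ) (e := e) trivial h1 m
    choose p hp using hproj
    -- homogeneous components
    have hcomp : f = ∑ g : s, if d g ≤ n then
        ((decompose (hom Z) (a g) (n - d g) : hom Z (n - d g)) : Pol Z) * g.1 else 0 := by
      have h2 : f = (decompose (hom Z) f n : Pol Z) :=
        (decompose_of_mem_same (hom Z) (Rn_le _ n hf)).symm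
      conv_lhs => rw [h2, ← ha]
      rw [decompose_sum, DFinsupp.finsetSum_apply, AddSubmonoidClass.coe_finsetSum]
      refine Finset.sum_congr rfl fun g _ => ?_
      rw [smul_eq_mul, coe_decompose_mul_of_right_mem (hom Z) n (Rn_le _ _ (hdm g))]
    have hpf : p n f = f := (hp n).id f hf
    rw [← hpf, hcomp, map_sum]
    refine Submodule.sum_mem _ fun g _ => ?_
    split_ifs with hgn
    · have hb : ((decompose (hom Z) (a g) (n - d g) : hom Z (n - d g)) : Pol Z) ∈
          hom Z (n - d g) := SetLike.coe_mem _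
      have hnn : n - d g + d g = n := Nat.sub_add_cancel hgn
      have hp' : IsTProj 𝓛 c (polSp Z) (hom Z (n - d g + d g))
          (Rn 𝓛 c G X Z Set.univ (n - d g + d g)) (p n) := by rw [hnn]; exact hp n
      have h3 := reynolds H (S := Set.univ) (e := e) trivial h1 (hp (n - d g)) hp' hb (hdm g)
      rw [h3]
      have h4 : p (n - d g) ((decompose (hom Z) (a g) (n - d g) : hom Z (n - d g)) : Pol Z) ∈
          Rn 𝓛 c G X Z (E : Set ι) (n - d g) :=
        ih (n - d g) (by have := hd g; omega) ((hp (n - d g)).mem _)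
      have h5 := Rn_mul H (E : Set ι) _ _ h4 (hgE g)
      rwa [hnn] at h5
    · rw [map_zero]
      exact Submodule.zero_mem _

end Pool.Agent.TH132.U
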