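import Pool.Agent.TH132.E.GDefs
import Pool.Agent.TH132.U.HDefs

/-!
# Galois representations on the cohomology with extended coefficients, and the Mumford-Tate conjecture
-/

set_option autoImplicit false

open CategoryTheory AlgebraicGeometry TensorProduct

universe u w

namespace Pool.Agent.TH132.U

open Pool.Agent.H914 Pool.Agent.H914.VarClass Pool.Agent.H914.VarClass.Obj
  Pool.Agent.H914.WeilCohomology Pool.Agent.TH125.Gal Pool.Agent.TH132.E

section Generic

/-- The actions of `Γ` on the `F`-algebra `F ⊗ A`. -/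
abbrev BaseAct (K F A : Type) [Field K] [Field F] [Algebra K F] [Ring A] [Algebra K A]
    (Γ : Type w) [Group Γ] : Type w := Γ →* (F ⊗[K] A ≃ₐ[F] F ⊗[K] A)

variable {K F : Type} [Field K] [Field F] [Algebra K F] {A : Type} [Ring A] [Algebra K A]
  {B : Type} [Ring B] [Algebra K B] {Γ : Type w} [Group Γ]

/-- The action on `F ⊗ A` respects the grading and multiplies the trace by `χ ^ n`. -/
structure IsGradedAct (χ : Γ →* Fˣ) (gr : ℕ → Submodule K A) (n : ℕ) (tr : A →ₗ[K] K)
    (ρ : BaseAct K F A Γ) : Prop where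
  gr_mem : ∀ g i, ∀ a ∈ (gr i).baseChange F, ρ g a ∈ (gr i).baseChange F
  tr_act : ∀ g a, formBase F tr (ρ g a) = (χ g : F) ^ n * formBase F tr a

/-- The extension of the homomorphism `f` is equivariant. -/
def IsEquivariant (f : A →ₐ[K] B) (ρ : BaseAct K F A Γ) (υ : BaseAct K F B Γ) : Prop :=
  Intertwines (mapBase F f) ρ υ

/-- The action is semisimple, also for the subgroups of finite index. -/
def IsSemisimpleAct (ρ : BaseAct K F A Γ) : Prop := SemisimpleAct ρ

/-- The Tate classes of degree `2 j` (the elements of `F ⊗ gr (2 * j)` which are multiplied by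
`χ g ^ j` by all elements `g` of a subgroup of finite index) are the linear combinations with
coefficients in `F` of the elements `1 ⊗ t` with `t ∈ H j`, for all `j`. -/
def TateIsSpanned (χ : Γ →* Fˣ) (gr : ℕ → Submodule K A) (ρ : BaseAct K F A Γ)
    (H : ℕ → Set A) : Prop :=
  ∀ j, tateClasses χ (fun i => (gr i).baseChange F) ρ j =
    (Submodule.span F ((fun t => (1 : F) ⊗ₜ[K] t) '' H j) : Set (F ⊗[K] A))

end Generic

variable {k : Type u} [Field k] {𝒱 : VarClass k} {ops : CycleOps 𝒱}

/-- Functorial actions of `Γ` on the algebras `F ⊗ H(X)`, which respect the degree and multiply the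
trace by `χ ^ dim X`. In the intended use `F` is the field of `ℓ`-adic numbers, `F ⊗ H(X)` is the
`ℓ`-adic cohomology by the comparison isomorphism, `Γ` is the Galois group of the number field `k`,
and `χ` is the inverse of the cyclotomic character. -/
structure GaloisTheory (W : WeilCohomology.{u, 0} ops) (F : Type) [Field F] [Algebra W.K F]
    (Γ : Type w) [Group Γ] (χ : Γ →* Fˣ) where
  /-- the action -/
  act : ∀ X : 𝒱.Obj, BaseAct W.K F (W.H X) Γ
  isGradedAct : ∀ X, IsGradedAct χ (W.gr X) X.dim (W.tr X) (act X)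
  equivariant : ∀ {X Y : 𝒱.Obj} (f : X ⟶ Y), IsEquivariant (W.map f) (act Y) (act X)

variable {W : WeilCohomology.{u, 0} ops} {F : Type} [Field F] [Algebra W.K F]
  {Γ : Type w} [Group Γ] {χ : Γ →* Fˣ}

/-- The action on `F ⊗ H(X)` is semisimple, also for the subgroups of finite index, for all `X` with
the property `P`. -/
def GaloisTheory.Semisimple (𝓖 : GaloisTheory W F Γ χ) (P : 𝒱.Obj → Prop) : Prop :=
  ∀ X, P X → IsSemisimpleAct (𝓖.act X)

/-- The Mumford-Tate conjecture for all `X` with the property `P`, in terms of classes: the Tate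
classes on `X` are the linear combinations of the Hodge classes on `X`, with coefficients in `F`. -/
def MumfordTate [Algebra W.K ℂ] (𝓗 : HodgeTheory W) (𝓖 : GaloisTheory W F Γ χ)
    (P : 𝒱.Obj → Prop) : Prop :=
  ∀ X, P X → TateIsSpanned χ (W.gr X) (𝓖.act X) (𝓗.hodge X)

end Pool.Agent.TH132.U
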