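import Pool.Agent.TH132.U.Full
import Pool.Agent.TH132.U.GFun
import Pool.Agent.TH132.U.MTDefs

/-!
# The Mumford-Tate conjecture for the products of `Z` and of the members of a family
-/

set_option autoImplicit false

open CategoryTheory AlgebraicGeometry TensorProduct

universe u w

namespace Pool.Agent.TH132.U

open Pool.Agent.H914 Pool.Agent.H914.VarClass Pool.Agent.H914.VarClass.Obj
  Pool.Agent.H914.WeilCohomology Pool.Agent.TH125.Gal Pool.Agent.TH132.E

variable {k : Type u} [Field k] {𝒱 : VarClass k} {ops : CycleOps 𝒱}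
  {W : WeilCohomology.{u, 0} ops} {F : Type} [Field F] [Algebra W.K F]
  {Γ : Type w} [Group Γ] {χ : Γ →* Fˣ}

/-- The actions on the Weil cohomology with coefficients `F`. -/
noncomputable def GaloisTheory.th (𝓖 : GaloisTheory W F Γ χ) : GalTh (baseW W F) Γ χ where
  act := 𝓖.act
  gr_mem X := (𝓖.isGradedAct X).gr_mem
  tr_act X := (𝓖.isGradedAct X).tr_act
  map_act f := 𝓖.equivariant f

/-- The Tate classes of degree `2 j` on `X`. -/
def GaloisTheory.tate (𝓖 : GaloisTheory W F Γ χ) (X : 𝒱.Obj) (j : ℕ) : Set (F ⊗[W.K] W.H X) :=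
  tateClasses χ (fun i => (W.gr X i).baseChange F) (𝓖.act X) j

/-- The Tate classes form a subspace. -/
def GaloisTheory.tateSub (𝓖 : GaloisTheory W F Γ χ) (X : 𝒱.Obj) (j : ℕ) :
    Submodule F (F ⊗[W.K] W.H X) where
  carrier := 𝓖.tate X j
  zero_mem' := ⟨Submodule.zero_mem _, ⊤, inferInstance, fun g _ => by rw [map_zero, smul_zero]⟩
  add_mem' := by
    rintro a b ⟨ha, Δ, hΔ, ha'⟩ ⟨hb, Δ', hΔ', hb'⟩
    refine ⟨Submodule.add_mem _ ha hb, Δ ⊓ Δ', inferInstance, fun g hg => ?_⟩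
    rw [map_add, ha' g hg.1, hb' g hg.2, smul_add]
  smul_mem' := by
    rintro c a ⟨ha, Δ, hΔ, ha'⟩
    refine ⟨Submodule.smul_mem _ _ ha, Δ, hΔ, fun g hg => ?_⟩
    rw [map_smul, ha' g hg, smul_comm]

lemma mem_tateSub {𝓖 : GaloisTheory W F Γ χ} {X : 𝒱.Obj} {j : ℕ} {a : F ⊗[W.K] W.H X} :
    a ∈ 𝓖.tateSub X j ↔ a ∈ 𝓖.tate X j := Iff.rfl

lemma tate_map (𝓖 : GaloisTheory W F Γ χ) {X Y : 𝒱.Obj} (f : X ⟶ Y) {j : ℕ}
    {a : F ⊗[W.K] W.H Y} (ha : a ∈ 𝓖.tate Y j) : mapBase F (W.map f) a ∈ 𝓖.tate X j := by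
  obtain ⟨ha, Δ, hΔ, ha'⟩ := ha
  refine ⟨(baseW W F).map_mem f ha, Δ, hΔ, fun g hg => ?_⟩
  rw [𝓖.equivariant f g a, ha' g hg, map_smul]

lemma tate_mul (𝓖 : GaloisTheory W F Γ χ) {X : 𝒱.Obj} {i j : ℕ}
    {a b : F ⊗[W.K] W.H X} (ha : a ∈ 𝓖.tate X i) (hb : b ∈ 𝓖.tate X j) :
    a * b ∈ 𝓖.tate X (i + j) := by
  obtain ⟨ha, Δ, hΔ, ha'⟩ := ha
  obtain ⟨hb, Δ', hΔ', hb'⟩ := hb
  refine ⟨?_, Δ ⊓ Δ', inferInstance, fun g hg => ?_⟩
  · have h2 : a * b ∈ (baseW W F).gr X (2 * i + 2 * j) := (baseW W F).mul_mem ha hb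
    rw [← mul_add] at h2
    exact h2
  · rw [map_mul, ha' g hg.1, hb' g hg.2, smul_mul_smul_comm, pow_add]

section Span

variable {K A B : Type} [Field K] [Algebra K F] [Ring A] [Algebra K A] [Ring B] [Algebra K B]

omit [Field F] [Algebra K F] in
lemma one_tmul_mem_of_span [Field F] [Algebra K F] {S : Set A} {P : Submodule F (F ⊗[K] A)}
    (h : ∀ t ∈ S, (1 : F) ⊗ₜ[K] t ∈ P) {t : A} (ht : t ∈ Submodule.span K S) :
    (1 : F) ⊗ₜ[K] t ∈ P := by
  induction ht using Submodule.span_induction with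
  | mem x hx => exact h x hx
  | zero => rw [TensorProduct.tmul_zero]; exact Submodule.zero_mem _
  | add x y _ _ hx hy => rw [TensorProduct.tmul_add]; exact Submodule.add_mem _ hx hy
  | smul r x _ hx =>
    have h1 : (1 : F) ⊗ₜ[K] (r • x) = (algebraMap K F r) • ((1 : F) ⊗ₜ[K] x) := by
      rw [TensorProduct.tmul_smul, algebraMap_smul]
    rw [h1]
    exact Submodule.smul_mem _ _ hx

end Span

variable [Algebra W.K ℂ]

lemma isSpanned_iff {𝓗 : HodgeTheory W} {𝓖 : GaloisTheory W F Γ χ} {X : 𝒱.Obj} :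
    TateIsSpanned χ (W.gr X) (𝓖.act X) (𝓗.hodge X) ↔
      (∀ j, ∀ t ∈ 𝓗.hodge X j, (1 : F) ⊗ₜ[W.K] t ∈ 𝓖.tate X j) ∧
      ∀ j, ∀ τ ∈ 𝓖.tate X j,
        τ ∈ Submodule.span F ((fun t => (1 : F) ⊗ₜ[W.K] t) '' 𝓗.hodge X j) := by
  constructor
  · intro h
    have h' : ∀ j, 𝓖.tate X j =
      (Submodule.span F ((fun t => (1 : F) ⊗ₜ[W.K] t) '' 𝓗.hodge X j) :
        Set (F ⊗[W.K] W.H X)) := h
    refine ⟨fun j t ht => ?_, fun j τ hτ => ?_⟩
    · rw [h' j]
      exact Submodule.subset_span ⟨t, ht, rfl⟩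
    · rw [h' j] at hτ
      exact hτ
  · rintro ⟨h1, h2⟩ j
    apply Set.Subset.antisymm
    · exact h2 j
    · have h3 : Submodule.span F ((fun t => (1 : F) ⊗ₜ[W.K] t) '' 𝓗.hodge X j) ≤
          𝓖.tateSub X j := by
        rw [Submodule.span_le]
        rintro _ ⟨t, ht, rfl⟩
        exact h1 j t ht
      exact h3

lemma hodge_mul (𝓗 : HodgeTheory W) {A B : 𝒱.Obj} {i j : ℕ} {a : W.H A} {b : W.H B}
    (ha : a ∈ 𝓗.hodge A i) (hb : b ∈ 𝓗.hodge B j) :
    W.map (fst A B) a * W.map (snd A B) b ∈ 𝓗.hodge (A.prod B) (i + j) := isHodge_fst 𝓗 ha hb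

/-- The Mumford-Tate conjecture for products with splitting classes. -/
lemma mt_prod {𝓗 : HodgeTheory W} {𝓖 : GaloisTheory W F Γ χ} {A B : 𝒱.Obj}
    (hH : 𝓗.Splits A B) (hG : 𝓖.th.Splits A B) (hA : TateIsSpanned χ (W.gr A) (𝓖.act A) (𝓗.hodge A))
    (hB : TateIsSpanned χ (W.gr B) (𝓖.act B) (𝓗.hodge B)) :
    TateIsSpanned χ (W.gr (A.prod B)) (𝓖.act (A.prod B)) (𝓗.hodge (A.prod B)) := by
  rw [isSpanned_iff] at hA hB ⊢
  obtain ⟨hA1, hA2⟩ := hA
  obtain ⟨hB1, hB2⟩ := hB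
  constructor
  · intro j t ht
    rw [← mem_tateSub]
    refine one_tmul_mem_of_span (fun y hy => ?_) (hH j t ht)
    obtain ⟨i, i', a, b, rfl, ha, hb, rfl⟩ := hy
    have h1 : (1 : F) ⊗ₜ[W.K] (W.map (fst A B) a * W.map (snd A B) b) =
        mapBase F (W.map (fst A B)) ((1 : F) ⊗ₜ[W.K] a) *
          mapBase F (W.map (snd A B)) ((1 : F) ⊗ₜ[W.K] b) := by
      rw [Algebra.TensorProduct.map_tmul, Algebra.TensorProduct.map_tmul,
        Algebra.TensorProduct.tmul_mul_tmul, map_one, mul_one]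
    rw [h1]
    exact tate_mul 𝓖 (tate_map 𝓖 _ (hA1 i a ha)) (tate_map 𝓖 _ (hB1 i' b hb))
  · intro j τ hτ
    have h1 : τ ∈ Submodule.span F (crossProducts (mapBase F (W.map (fst A B)))
        (mapBase F (W.map (snd A B))) (𝓖.tate A) (𝓖.tate B) j) := hG j τ hτ
    refine (Submodule.span_le.2 ?_) h1
    rintro _ ⟨i, i', a, b, rfl, ha, hb, rfl⟩
    have ha' := hA2 i a ha
    have hb' := hB2 i' b hb
    induction ha' using Submodule.span_induction with
    | mem x hx =>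
      obtain ⟨a₀, ha₀, rfl⟩ := hx
      clear ha hb
      induction hb' using Submodule.span_induction with
      | mem y hy =>
        obtain ⟨b₀, hb₀, rfl⟩ := hy
        refine Submodule.subset_span ⟨_, hodge_mul 𝓗 ha₀ hb₀, ?_⟩
        simp only [Algebra.TensorProduct.map_tmul, Algebra.TensorProduct.tmul_mul_tmul, map_one,
          mul_one]
      | zero => rw [map_zero, mul_zero]; exact Submodule.zero_mem _
      | add x y _ _ hx hy => rw [map_add, mul_add]; exact Submodule.add_mem _ hx hy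
      | smul r x _ hx => rw [map_smul, mul_smul_comm]; exact Submodule.smul_mem _ _ hx
    | zero => rw [map_zero, zero_mul]; exact Submodule.zero_mem _
    | add x y hx' hy' hx hy =>
      rw [map_add, add_mul]
      have e : ∀ z, z ∈ Submodule.span F ((fun t => (1 : F) ⊗ₜ[W.K] t) '' 𝓗.hodge A i) →
          z ∈ 𝓖.tate A i := by
        intro z hz
        have h3 : Submodule.span F ((fun t => (1 : F) ⊗ₜ[W.K] t) '' 𝓗.hodge A i) ≤
            𝓖.tateSub A i := by
          rw [Submodule.span_le]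
          rintro _ ⟨t, ht, rfl⟩
          exact hA1 i t ht
        exact h3 hz
      exact Submodule.add_mem _ (hx (e x hx')) (hy (e y hy'))
    | smul r x hx' hx =>
      rw [map_smul, smul_mul_assoc]
      have e : x ∈ 𝓖.tate A i := by
        have h3 : Submodule.span F ((fun t => (1 : F) ⊗ₜ[W.K] t) '' 𝓗.hodge A i) ≤
            𝓖.tateSub A i := by
          rw [Submodule.span_le]
          rintro _ ⟨t, ht, rfl⟩
          exact hA1 i t ht
        exact h3 hx'
      exact Submodule.smul_mem _ _ (hx e)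

/-- The Mumford-Tate conjecture for retracts. -/
lemma mt_retr {𝓗 : HodgeTheory W} {𝓖 : GaloisTheory W F Γ χ} {C D : 𝒱.Obj} (h : Retr C D)
    (hD : TateIsSpanned χ (W.gr D) (𝓖.act D) (𝓗.hodge D)) : TateIsSpanned χ (W.gr C) (𝓖.act C) (𝓗.hodge C) := by
  obtain ⟨f, g, hfg⟩ := h
  rw [isSpanned_iff] at hD ⊢
  obtain ⟨hD1, hD2⟩ := hD
  have hid : ∀ y : F ⊗[W.K] W.H C, mapBase F (W.map f) (mapBase F (W.map g) y) = y := by
    intro y
    have h1 := congrArg (fun φ => (baseW W F).map φ y) hfg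
    have h2 : (baseW W F).map (f ≫ g) y = (baseW W F).map f ((baseW W F).map g y) :=
      (baseW W F).map_comp f g y
    have h3 : (baseW W F).map (𝟙 C) y = y := (baseW W F).map_id C y
    exact (h2.symm.trans h1).trans h3
  constructor
  · intro j t ht
    have h1 := tate_map 𝓖 f (hD1 j _ (isHodge_map 𝓗 g ht))
    have h2 : (1 : F) ⊗ₜ[W.K] (W.map g t) = mapBase F (W.map g) ((1 : F) ⊗ₜ[W.K] t) := by
      rw [Algebra.TensorProduct.map_tmul, map_one]
    rwa [h2, hid] at h1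
  · intro j τ hτ
    have h1 := hD2 j _ (tate_map 𝓖 g hτ)
    rw [← hid τ]
    refine map_span_mem (f := (mapBase F (W.map f)).toLinearMap) (fun y hy => ?_) h1
    obtain ⟨t, ht, rfl⟩ := hy
    refine Submodule.subset_span ⟨W.map f t, isHodge_map 𝓗 f ht, ?_⟩
    simp only [AlgHom.toLinearMap_apply, Algebra.TensorProduct.map_tmul, map_one]

/-- If the Mumford-Tate conjecture holds for `A`, `B` and `A × B`, then the Tate classes split if the
Hodge classes split. -/
lemma gSplits_of_splits {𝓗 : HodgeTheory W} {𝓖 : GaloisTheory W F Γ χ} {A B : 𝒱.Obj}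
    (hH : 𝓗.Splits A B) (hA : TateIsSpanned χ (W.gr A) (𝓖.act A) (𝓗.hodge A))
    (hB : TateIsSpanned χ (W.gr B) (𝓖.act B) (𝓗.hodge B))
    (hAB : TateIsSpanned χ (W.gr (A.prod B)) (𝓖.act (A.prod B)) (𝓗.hodge (A.prod B))) : 𝓖.th.Splits A B := by
  rw [isSpanned_iff] at hA hB hAB
  intro j τ hτ
  have h1 := hAB.2 j τ hτ
  have key : ∀ y ∈ Submodule.span F ((fun t => (1 : F) ⊗ₜ[W.K] t) '' 𝓗.hodge (A.prod B) j),
      y ∈ Submodule.span F (crossProducts (mapBase F (W.map (fst A B)))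
        (mapBase F (W.map (snd A B))) (𝓖.tate A) (𝓖.tate B) j) := by
    intro y hy
    refine (Submodule.span_le.2 ?_) hy
    rintro _ ⟨t, ht, rfl⟩
    refine one_tmul_mem_of_span (fun y hy => ?_) (hH j t ht)
    obtain ⟨i, i', a, b, hij, ha, hb, rfl⟩ := hy
    refine Submodule.subset_span ⟨i, i', _, _, hij, hA.1 i a ha, hB.1 i' b hb, ?_⟩
    rw [Algebra.TensorProduct.map_tmul, Algebra.TensorProduct.map_tmul,
      Algebra.TensorProduct.tmul_mul_tmul, map_one, mul_one]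
  exact key _ h1

omit [Algebra W.K ℂ] in
lemma gSplits_retr {𝓖 : GaloisTheory W F Γ χ} {A D D' : 𝒱.Obj} (h : Retr D D')
    (hD : 𝓖.th.Splits A D') : 𝓖.th.Splits A D := by
  obtain ⟨f, g, hfg⟩ := h
  intro j t ht
  set F' : A.prod D ⟶ A.prod D' := lift (fst A D) (snd A D ≫ f) with hF
  set G' : A.prod D' ⟶ A.prod D := lift (fst A D') (snd A D' ≫ g) with hG
  have hFG : F' ≫ G' = 𝟙 _ := by
    refine prod_hom_ext ?_ ?_
    · rw [hF, hG, Category.assoc, lift_fst, lift_fst, Category.id_comp]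
    · rw [hF, hG, Category.assoc, lift_snd, lift_snd_assoc, Category.assoc, hfg,
        Category.comp_id, Category.id_comp]
  have hH : ∀ {X Y : 𝒱.Obj} (φ : X ⟶ Y) {j : ℕ} {a : (baseW W F).H Y}, a ∈ 𝓖.th.tate Y j →
      (baseW W F).map φ a ∈ 𝓖.th.tate X j := fun φ _ _ ha => tate_map 𝓖 φ ha
  have h1 := hD j _ (hH G' ht)
  have h2 : (baseW W F).map F' ((baseW W F).map G' t) = t := by
    rw [← (baseW W F).map_comp, hFG, (baseW W F).map_id]
  rw [← h2]
  have h3 : ∀ y ∈ Submodule.span (baseW W F).K (crossProducts ((baseW W F).map (fst A D'))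
      ((baseW W F).map (snd A D')) (𝓖.th.tate A) (𝓖.th.tate D') j), (baseW W F).map F' y ∈
        Submodule.span (baseW W F).K (crossProducts ((baseW W F).map (fst A D))
          ((baseW W F).map (snd A D)) (𝓖.th.tate A) (𝓖.th.tate D) j) := by
    intro y hy
    induction hy using Submodule.span_induction with
    | mem y hy =>
      obtain ⟨i, i', a, b, hij, ha, hb, rfl⟩ := hy
      refine Submodule.subset_span ⟨i, i', a, (baseW W F).map f b, hij, ha, hH f hb, ?_⟩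
      rw [map_mul, ← (baseW W F).map_comp, ← (baseW W F).map_comp, hF, lift_fst, lift_snd,
        (baseW W F).map_comp]
    | zero => rw [map_zero]; exact Submodule.zero_mem _
    | add x y _ _ hx hy => rw [map_add]; exact Submodule.add_mem _ hx hy
    | smul r x _ hx => rw [map_smul]; exact Submodule.smul_mem _ r hx
  exact h3 _ h1

variable {ι : Type}

/-- **The Mumford-Tate conjecture for all products of `Z` and of members of the family.** -/
theorem mt_uniform (𝓗 : HodgeTheory W) (𝓖 : GaloisTheory W F Γ χ) (X : ι → 𝒱.Obj)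
    (hH : 𝓗.Independent X) (hs : 𝓖.Semisimple (IsProd X Set.univ))
    (hX : MumfordTate 𝓗 𝓖 (IsProd X Set.univ)) (Z : 𝒱.Obj)
    (hZ : 𝓖.Semisimple (IsProd (fun _ : Unit => Z) Set.univ)) :
    ∃ E₀ : Finset ι, ∀ T E : Set ι, Disjoint T E₀ → Disjoint T E →
      (MumfordTate 𝓗 𝓖 (IsProd (adjoin Z X) (indices (T ∪ E))) ↔
        MumfordTate 𝓗 𝓖 (IsProd (adjoin Z X) (indices E))) := by
  classical
  have hG : 𝓖.th.Independent X := by
    intro T A B hA hB
    have hA' := hA.mono (Set.subset_univ T)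
    have hB' := hB.mono (Set.subset_univ Tᶜ)
    exact gSplits_of_splits (hH T A B hA hB) (hX A hA') (hX B hB')
      (hX _ (IsProd.prod A B hA' hB'))
  obtain ⟨E₁, h₁⟩ := hodge_uniform' 𝓗 X hH Z
  obtain ⟨E₂, h₂⟩ := gal_uniform 𝓖.th X hG hs Z hZ
  refine ⟨E₁ ∪ E₂, fun T E hT hTE => ?_⟩
  have hT1 : Disjoint T (E₁ : Set ι) := hT.mono_right (by simp)
  have hT2 : Disjoint T (E₂ : Set ι) := hT.mono_right (by simp)
  have hsub : ∀ {D}, IsProd (adjoin Z X) (indices E) D → IsProd (adjoin Z X) (indices Tᶜ) D :=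
    fun hD => IsProd.mono (S := indices E) (T := indices Tᶜ)
      (fun o ho i hi => fun hiT => Set.disjoint_left.1 hTE hiT (ho i hi)) hD
  have hsplit : ∀ A D, IsProd X T A → IsProd (adjoin Z X) (indices E) D →
      𝓗.Splits A D ∧ 𝓖.th.Splits A D := by
    intro A D hA hD
    refine ⟨h₁ Tᶜ (Set.disjoint_left.1 hT1.symm) A D (by rwa [compl_compl]) (hsub hD), ?_⟩
    have hE : (E₂ : Set ι) ⊆ Tᶜ := Set.disjoint_left.1 hT2.symm
    rcases sort_indices Z X Tᶜ (hsub hD) with hD | hD | ⟨B, M, hB, hM, hr⟩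
    · exact (h₂ Tᶜ hE D hD A (by rwa [compl_compl])).1
    · exact hG T A D hA hD
    · exact gSplits_retr hr ((h₂ Tᶜ hE M hM A (by rwa [compl_compl])).2 B hB)
  constructor
  · exact fun hall C hC => hall C (IsProd.mono (S := indices E) (T := indices (T ∪ E))
      (fun o ho i hi => Or.inr (ho i hi)) hC)
  · intro h2 C hC
    rcases sort_union Z X T E hC with hC | hC | ⟨A, D, hA, hD, hr⟩
    · exact hX C (hC.mono (Set.subset_univ _))
    · exact h2 C hC
    · obtain ⟨hs1, hs2⟩ := hsplit A D hA hD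
      exact mt_retr hr (mt_prod hs1 hs2 (hX A (hA.mono (Set.subset_univ _))) (h2 D hD))

end Pool.Agent.TH132.U
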