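import Pool.Agent.TH132.U.TL

/-!
# The polynomial functions on the endomorphisms of the cohomology
-/

set_option autoImplicit false

open CategoryTheory AlgebraicGeometry TensorProduct

universe u v w

namespace Pool.Agent.TH132.U

open Pool.Agent.H914 Pool.Agent.H914.VarClass Pool.Agent.H914.VarClass.Obj
  Pool.Agent.H914.WeilCohomology Pool.Agent.TH132.E

variable {k : Type u} [Field k] {𝒱 : VarClass k} {ops : CycleOps 𝒱}
  {W : WeilCohomology.{u, v} ops} {L : Type v} [Field L] [Algebra W.K L] {O : Type w}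
  {𝓛 : Set (Set O)} {c : O → L} {G : Set (OVar W L O)}

/-- The dimension of the cohomology. -/
noncomputable abbrev dm (Z : OVar W L O) : ℕ := Module.finrank W.K (W.H Z.X)

/-- A basis of the cohomology. -/
noncomputable def zb (Z : OVar W L O) : Module.Basis (Fin (dm Z)) W.K (W.H Z.X) :=
  Module.finBasis W.K (W.H Z.X)

/-- The polynomials in the entries of a matrix. -/
abbrev Pol (Z : OVar W L O) : Type v := MvPolynomial (Fin (dm Z) × Fin (dm Z)) W.K

/-- The polynomials of degree `n`. -/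
noncomputable abbrev hom (Z : OVar W L O) (n : ℕ) : Submodule W.K (Pol Z) :=
  MvPolynomial.homogeneousSubmodule (Fin (dm Z) × Fin (dm Z)) W.K n

/-- The linear forms given by the elements of the cohomology and by a column. -/
noncomputable def lin (Z : OVar W L O) (j : Fin (dm Z)) : W.H Z.X →ₗ[W.K] Pol Z :=
  (zb Z).constr W.K fun i => (MvPolynomial.X (i, j) : Pol Z)

lemma lin_basis (Z : OVar W L O) (i j : Fin (dm Z)) :
    lin Z j (zb Z i) = MvPolynomial.X (i, j) := by
  rw [lin, Module.Basis.constr_basis]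

/-- The operators on the polynomials. -/
noncomputable def sg (Z : OVar W L O) (o : O) : L ⊗[W.K] Pol Z →ₐ[L] L ⊗[W.K] Pol Z :=
  Algebra.TensorProduct.lift (Algebra.ofId L (L ⊗[W.K] Pol Z))
    (MvPolynomial.aeval fun p : Fin (dm Z) × Fin (dm Z) =>
      (lin Z p.2).baseChange L (Z.act o ((1 : L) ⊗ₜ[W.K] zb Z p.1)))
    fun _ _ => Commute.all _ _

lemma sg_X (Z : OVar W L O) (o : O) (i j : Fin (dm Z)) :
    sg Z o ((1 : L) ⊗ₜ[W.K] (MvPolynomial.X (i, j) : Pol Z)) =
      (lin Z j).baseChange L (Z.act o ((1 : L) ⊗ₜ[W.K] zb Z i)) := by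
  rw [sg, Algebra.TensorProduct.lift_tmul, map_one, one_mul, MvPolynomial.aeval_X]

/-- The polynomials as a vector space with operators. -/
noncomputable def polSp (Z : OVar W L O) : OpSp W.K L O where
  V := Pol Z
  τ o := (sg Z o).toLinearMap

lemma lin_tmap (h𝓛 : Directed' 𝓛) (Z : OVar W L O) (j : Fin (dm Z)) :
    TMap 𝓛 c 0 (opSp Z) (polSp Z) (lin Z j) := by
  obtain ⟨D, hD⟩ := h𝓛.nonempty
  refine ⟨D, hD, fun o x => ?_⟩
  change (lin Z j).baseChange L (Z.act o x) = c o ^ (0 : ℤ) • sg Z o ((lin Z j).baseChange L x)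
  rw [zpow_zero, one_smul]
  have h1 : (lin Z j).baseChange L ∘ₗ (Z.act o).toLinearMap =
      (sg Z o).toLinearMap ∘ₗ (lin Z j).baseChange L := by
    refine (Algebra.TensorProduct.basis L (zb Z)).ext fun i => ?_
    rw [Algebra.TensorProduct.basis_apply, LinearMap.comp_apply, LinearMap.comp_apply,
      LinearMap.baseChange_tmul, lin_basis]
    exact (sg_X Z o i j).symm
  exact LinearMap.congr_fun h1 x

section Prod

variable {R : Type*} [CommRing R] [Algebra W.K R]

/-- The product map. -/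
noncomputable def pm {A B : 𝒱.Obj} (φ : W.H A →ₗ[W.K] R) (ψ : W.H B →ₗ[W.K] R) :
    W.H (A.prod B) →ₗ[W.K] R :=
  (LinearMap.mul' W.K R ∘ₗ TensorProduct.map φ ψ) ∘ₗ
    (LinearEquiv.ofBijective _ (W.kunneth A B)).symm.toLinearMap

lemma pm_apply {A B : 𝒱.Obj} (φ : W.H A →ₗ[W.K] R) (ψ : W.H B →ₗ[W.K] R) (a : W.H A)
    (b : W.H B) : pm φ ψ (W.map (fst A B) a * W.map (snd A B) b) = φ a * ψ b := by
  have h1 : (LinearEquiv.ofBijective _ (W.kunneth A B)).symm
      (W.map (fst A B) a * W.map (snd A B) b) = a ⊗ₜ[W.K] b := by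
    rw [LinearEquiv.symm_apply_eq]
    rfl
  rw [pm, LinearMap.comp_apply]
  erw [h1]
  simp

lemma pm_base {A B : 𝒱.Obj} (φ : W.H A →ₗ[W.K] R) (ψ : W.H B →ₗ[W.K] R)
    (x : L ⊗[W.K] W.H A) (y : L ⊗[W.K] W.H B) :
    (pm φ ψ).baseChange L (mapBase L (W.map (fst A B)) x * mapBase L (W.map (snd A B)) y) =
      φ.baseChange L x * ψ.baseChange L y := by
  refine tmul_induction (P := fun x => (pm φ ψ).baseChange L
    (mapBase L (W.map (fst A B)) x * mapBase L (W.map (snd A B)) y) =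
      φ.baseChange L x * ψ.baseChange L y) ?_ ?_ ?_ x
  · rw [map_zero, map_zero, zero_mul, map_zero, zero_mul]
  · intro x x' hx hx'
    rw [map_add, map_add, add_mul, map_add, hx, hx', add_mul]
  · intro l a
    refine tmul_induction (P := fun y => (pm φ ψ).baseChange L
      (mapBase L (W.map (fst A B)) (l ⊗ₜ[W.K] a) * mapBase L (W.map (snd A B)) y) =
        φ.baseChange L (l ⊗ₜ[W.K] a) * ψ.baseChange L y) ?_ ?_ ?_ y
    · rw [map_zero, map_zero, mul_zero, map_zero, mul_zero]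
    · intro y y' hy hy'
      rw [map_add, map_add, mul_add, map_add, hy, hy', mul_add]
    · intro l' b
      rw [Algebra.TensorProduct.map_tmul, Algebra.TensorProduct.map_tmul,
        Algebra.TensorProduct.tmul_mul_tmul, LinearMap.baseChange_tmul,
        LinearMap.baseChange_tmul, LinearMap.baseChange_tmul,
        Algebra.TensorProduct.tmul_mul_tmul, pm_apply]
      rfl

end Prod

lemma pm_tmap (h𝓛 : Directed' 𝓛) (hc : ∀ o, c o ≠ 0) {Z A B : OVar W L O} {υ}
    (hυ : ProdAct A B υ) {m n : ℤ} {φ : W.H A.X →ₗ[W.K] Pol Z} {ψ : W.H B.X →ₗ[W.K] Pol Z}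
    (hφ : TMap 𝓛 c m (opSp A) (polSp Z) φ) (hψ : TMap 𝓛 c n (opSp B) (polSp Z) ψ) :
    TMap 𝓛 c (m + n) (opSp (prodO A B υ)) (polSp Z) (pm φ ψ) := by
  obtain ⟨D, hD, h1⟩ := hφ
  obtain ⟨D', hD', h2⟩ := hψ
  obtain ⟨D'', hD'', h3⟩ := h𝓛.inter D hD D' hD'
  refine ⟨D'', hD'', fun o x => ?_⟩
  have h1' : ∀ y : L ⊗[W.K] W.H A.X, φ.baseChange L (A.act o y) =
    c o ^ m • sg Z o (φ.baseChange L y) := fun y => h1 ⟨o, (h3 o.2).1⟩ y
  have h2' : ∀ y : L ⊗[W.K] W.H B.X, ψ.baseChange L (B.act o y) =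
    c o ^ n • sg Z o (ψ.baseChange L y) := fun y => h2 ⟨o, (h3 o.2).2⟩ y
  have main : ∀ y : L ⊗[W.K] W.H (A.X.prod B.X), (pm φ ψ).baseChange L (υ o y) =
      c o ^ (m + n) • sg Z o ((pm φ ψ).baseChange L y) := by
    intro y
    refine (baseW W L).kunneth_induction (X := A.X) (Y := B.X)
      (p := fun y : L ⊗[W.K] W.H (A.X.prod B.X) => (pm φ ψ).baseChange L (υ o y) =
        c o ^ (m + n) • sg Z o ((pm φ ψ).baseChange L y)) ?_ ?_ y
    · have e2 : ∀ a b : L ⊗[W.K] W.H (A.X.prod B.X), (pm φ ψ).baseChange L (υ o a) =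
          c o ^ (m + n) • sg Z o ((pm φ ψ).baseChange L a) → (pm φ ψ).baseChange L (υ o b) =
          c o ^ (m + n) • sg Z o ((pm φ ψ).baseChange L b) →
          (pm φ ψ).baseChange L (υ o (a + b)) =
            c o ^ (m + n) • sg Z o ((pm φ ψ).baseChange L (a + b)) := by
        intro a b ha hb
        rw [map_add, map_add, ha, hb, map_add, map_add, smul_add]
      exact fun a b ha hb => e2 a b ha hb
    · intro i j a _ b _
      have e1 : ∀ (a : L ⊗[W.K] W.H A.X) (b : L ⊗[W.K] W.H B.X), (pm φ ψ).baseChange L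
          (υ o (mapBase L (W.map (fst A.X B.X)) a * mapBase L (W.map (snd A.X B.X)) b)) =
          c o ^ (m + n) • sg Z o ((pm φ ψ).baseChange L
            (mapBase L (W.map (fst A.X B.X)) a * mapBase L (W.map (snd A.X B.X)) b)) := by
        intro a b
        rw [map_mul, hυ.fst, hυ.snd, pm_base, pm_base, h1', h2', smul_mul_smul_comm, map_mul,
          zpow_add₀ (hc _)]
      exact e1 a b
  exact main x

lemma pm_range {A B : 𝒱.Obj} {R : Type*} [CommRing R] [Algebra W.K R]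
    (φ : W.H A →ₗ[W.K] R) (ψ : W.H B →ₗ[W.K] R) :
    LinearMap.range (pm φ ψ) = LinearMap.range φ * LinearMap.range ψ := by
  apply le_antisymm
  · rintro _ ⟨y, rfl⟩
    refine W.kunneth_induction (X := A) (Y := B)
      (p := fun y => pm φ ψ y ∈ LinearMap.range φ * LinearMap.range ψ) ?_ ?_ y
    · intro a b ha hb
      rw [map_add]
      exact Submodule.add_mem _ ha hb
    · intro i j a _ b _
      rw [pm_apply]
      exact Submodule.mul_mem_mul ⟨a, rfl⟩ ⟨b, rfl⟩
  · rw [Submodule.mul_le]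
    rintro _ ⟨a, rfl⟩ _ ⟨b, rfl⟩
    exact ⟨W.map (fst A B) a * W.map (snd A B) b, pm_apply φ ψ a b⟩

/-- Evaluation at the identity matrix. -/
noncomputable def ev (Z : OVar W L O) : Pol Z →ₐ[W.K] W.K :=
  MvPolynomial.aeval fun p : Fin (dm Z) × Fin (dm Z) => if p.1 = p.2 then (1 : W.K) else 0

lemma ev_lin (Z : OVar W L O) (j : Fin (dm Z)) (x : W.H Z.X) :
    ev Z (lin Z j x) = (zb Z).coord j x := by
  have h1 : (ev Z).toLinearMap ∘ₗ lin Z j = (zb Z).coord j := by
    refine (zb Z).ext fun i => ?_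
    rw [LinearMap.comp_apply, lin_basis, Module.Basis.coord_apply, Module.Basis.repr_self,
      AlgHom.toLinearMap_apply, ev, MvPolynomial.aeval_X, Finsupp.single_apply]
  exact LinearMap.congr_fun h1 x

/-- There are finitely many compatible maps with sum of images the space of polynomials of degree
`n`, such that the values at the identity determine the elements. -/
def HasFam (𝓛 : Set (Set O)) (c : O → L) (Z : OVar W L O) (n : ℕ) (A : OVar W L O) : Prop :=
  ∃ (κ : Type) (_ : Fintype κ) (f : κ → W.H A.X →ₗ[W.K] Pol Z),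
    (∀ k, TMap 𝓛 c 0 (opSp A) (polSp Z) (f k)) ∧ (⨆ k, LinearMap.range (f k) = hom Z n) ∧
      ∀ x, (∀ k, ev Z (f k x) = 0) → x = 0

lemma hasFam_one (h𝓛 : Directed' 𝓛) (Z : OVar W L O) : HasFam 𝓛 c Z 1 Z := by
  refine ⟨Fin (dm Z), inferInstance, lin Z, lin_tmap h𝓛 Z, ?_, ?_⟩
  · rw [hom, MvPolynomial.homogeneousSubmodule_one_eq_span_X]
    apply le_antisymm
    · refine iSup_le fun j => ?_
      rintro _ ⟨x, rfl⟩
      rw [lin, Module.Basis.constr_apply_fintype]
      exact Submodule.sum_mem _ fun i _ => Submodule.smul_mem _ _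
        (Submodule.subset_span ⟨(i, j), rfl⟩)
    · rw [Submodule.span_le]
      rintro _ ⟨⟨i, j⟩, rfl⟩
      exact Submodule.mem_iSup_of_mem j ⟨zb Z i, lin_basis Z i j⟩
  · intro x hx
    apply (zb Z).repr.injective
    rw [map_zero]
    ext j
    have := hx j
    rw [ev_lin] at this
    exact this

lemma hom_mul (Z : OVar W L O) (m n : ℕ) : hom Z m * hom Z n = hom Z (m + n) := by
  have h := fun n => MvPolynomial.homogeneousSubmodule_one_pow
    (σ := Fin (dm Z) × Fin (dm Z)) W.K n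
  rw [hom, hom, hom, ← h m, ← h n, ← h (m + n), pow_add]

lemma hasFam_mul (h𝓛 : Directed' 𝓛) (hc : ∀ o, c o ≠ 0) {Z A B : OVar W L O} {m n : ℕ} {υ}
    (hA : HasFam 𝓛 c Z m A) (hB : HasFam 𝓛 c Z n B) (hυ : ProdAct A B υ) :
    HasFam 𝓛 c Z (m + n) (prodO A B υ) := by
  classical
  obtain ⟨κ, _, f, hf1, hf2, hf3⟩ := hA
  obtain ⟨κ', _, g, hg1, hg2, hg3⟩ := hB
  refine ⟨κ × κ', inferInstance, fun p => pm (f p.1) (g p.2), fun p => ?_, ?_, ?_⟩
  · have := pm_tmap h𝓛 hc hυ (hf1 p.1) (hg1 p.2)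
    rwa [add_zero] at this
  · rw [iSup_prod, ← hom_mul, ← hf2, ← hg2, Submodule.iSup_mul]
    simp only [Submodule.mul_iSup]
    exact iSup_congr fun i => iSup_congr fun j => pm_range _ _
  · intro x hx
    obtain ⟨s, rfl⟩ := (W.kunneth A.X B.X).2 x
    let b := Module.finBasis W.K (W.H B.X)
    have h1 := TensorProduct.equivFinsuppOfBasisRight_symm_apply b (M := W.H A.X)
      (TensorProduct.equivFinsuppOfBasisRight b s)
    rw [LinearEquiv.symm_apply_apply] at h1
    set a := TensorProduct.equivFinsuppOfBasisRight b s with ha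
    have h2 : kunnethMap (W.map (fst A.X B.X)) (W.map (snd A.X B.X)) s =
        ∑ i, W.map (fst A.X B.X) (a i) * W.map (snd A.X B.X) (b i) := by
      rw [h1, Finsupp.sum_fintype _ _ (fun i => by rw [zero_tmul]), map_sum]
      rfl
    have h3 : ∀ k k', ∑ i, ev Z (f k (a i)) * ev Z (g k' (b i)) = 0 := by
      intro k k'
      have h4 := hx (k, k')
      have h5 : pm (f k) (g k') (kunnethMap (W.map (fst A.X B.X)) (W.map (snd A.X B.X)) s) =
          ∑ i, f k (a i) * g k' (b i) := by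
        rw [h2, map_sum]
        exact Finset.sum_congr rfl fun i _ => pm_apply _ _ _ _
      have h6 : ev Z (pm (f k) (g k')
          (kunnethMap (W.map (fst A.X B.X)) (W.map (snd A.X B.X)) s)) = 0 := h4
      rw [h5, map_sum] at h6
      rw [← h6]
      exact Finset.sum_congr rfl fun i _ => (map_mul _ _ _).symm
    have h7 : ∀ k i, ev Z (f k (a i)) = 0 := by
      intro k
      have h8 : ∑ i, ev Z (f k (a i)) • b i = 0 := by
        apply hg3
        intro k'
        rw [map_sum, map_sum, ← h3 k k']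
        exact Finset.sum_congr rfl fun i _ => by rw [map_smul, map_smul, smul_eq_mul]
      exact fun i => Fintype.linearIndependent_iff.1 b.linearIndependent _ h8 i
    have h9 : ∀ i, a i = 0 := fun i => hf3 _ fun k => h7 k i
    have h10 : kunnethMap (W.map (fst A.X B.X)) (W.map (snd A.X B.X)) s = 0 := by
      rw [h2]
      exact Finset.sum_eq_zero fun i _ => by rw [h9 i, map_zero, zero_mul]
    exact h10

/-- `A` is a product of `n` copies of `Z`. -/
inductive IsPow (Z : OVar W L O) (G : Set (OVar W L O)) : ℕ → OVar W L O → Prop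
  | one : IsPow Z G 1 Z
  | mul (m n : ℕ) (A B : OVar W L O) (υ) : IsPow Z G m A → IsPow Z G n B → ProdAct A B υ →
      prodO A B υ ∈ G → IsPow Z G (m + n) (prodO A B υ)

lemma IsPow.hasFam (h𝓛 : Directed' 𝓛) (hc : ∀ o, c o ≠ 0) {Z A : OVar W L O} {n : ℕ}
    (h : IsPow Z G n A) : HasFam 𝓛 c Z n A := by
  induction h with
  | one => exact hasFam_one h𝓛 Z
  | mul m n A B υ _ _ hυ _ ihA ihB => exact hasFam_mul h𝓛 hc ihA ihB hυ

lemma IsPow.mem {Z A : OVar W L O} {n : ℕ} (hZ : Z ∈ G) (h : IsPow Z G n A) : A ∈ G := by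
  cases h with
  | one => exact hZ
  | mul m n A B υ _ _ _ h => exact h

lemma IsPow.pos {Z A : OVar W L O} {n : ℕ} (h : IsPow Z G n A) : 0 < n := by
  induction h with
  | one => exact Nat.one_pos
  | mul m n A B υ _ _ _ _ ihA ihB => omega

lemma exists_isPow (hG : OClass c G) {Z : OVar W L O} (hZ : Z ∈ G) (n : ℕ) (hn : 0 < n) :
    ∃ A, IsPow Z G n A := by
  induction n, hn using Nat.le_induction with
  | base => exact ⟨Z, IsPow.one⟩
  | succ n _ ih =>
    obtain ⟨A, hA⟩ := ih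
    obtain ⟨υ, hυ, hυG⟩ := hG.prod A (hA.mem hZ) Z hZ
    exact ⟨_, IsPow.mul n 1 A Z υ hA IsPow.one hυ hυG⟩

end Pool.Agent.TH132.U
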