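import Pool.Agent.TH132.E.Exc

/-!
# Stable subspaces: complements and projections
-/

set_option autoImplicit false

open TensorProduct

namespace Pool.Agent.TH132.U

open Pool.Agent.TH132.E

section Rel

variable {F K : Type*} [Field F] [Field K] [Algebra F K] {O : Type*}
  {V W : Type*} [AddCommGroup V] [Module F V] [AddCommGroup W] [Module F W]
  {τ : O → Module.End K (K ⊗[F] V)} {υ : O → Module.End K (K ⊗[F] W)}

lemma stable_inf {N N' : Submodule F V} (h : Stable τ N) (h' : Stable τ N') :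
    Stable τ (N ⊓ N') := fun o x hx =>
  mem_baseChange_inf (h o x (Submodule.baseChange_mono K inf_le_left hx))
    (h' o x (Submodule.baseChange_mono K inf_le_right hx))

omit [AddCommGroup V] [Module F V] in
lemma base_eq_of {V : Type*} [AddCommGroup V] [Module F V] {f g : W →ₗ[F] V} {N : Submodule F W}
    (h : ∀ x ∈ N, f x = g x) {x : K ⊗[F] W} (hx : x ∈ N.baseChange K) :
    f.baseChange K x = g.baseChange K x := by
  have h1 : N.baseChange K ≤ LinearMap.eqLocus (f.baseChange K) (g.baseChange K) := by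
    rw [Submodule.baseChange_eq_span, Submodule.span_le]
    rintro _ ⟨v, hv, rfl⟩
    simp [h v hv]
  exact h1 hx

lemma base_map_mem {f : V →ₗ[F] W} {N : Submodule F V} {x : K ⊗[F] V}
    (hx : x ∈ N.baseChange K) : f.baseChange K x ∈ (N.map f).baseChange K := by
  rw [← mem_baseChange_comap]
  exact Submodule.baseChange_mono K (Submodule.le_comap_map f N) hx

lemma base_map_exists {f : V →ₗ[F] W} {N : Submodule F V} {x : K ⊗[F] W}
    (hx : x ∈ (N.map f).baseChange K) : ∃ y ∈ N.baseChange K, f.baseChange K y = x := by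
  have h1 : (N.map f).baseChange K ≤ (N.baseChange K).map (f.baseChange K) := by
    rw [Submodule.baseChange_eq_span (A := K) (p := N.map f), Submodule.span_le]
    rintro _ ⟨_, ⟨v, hv, rfl⟩, rfl⟩
    exact ⟨1 ⊗ₜ v, Submodule.tmul_mem_baseChange_of_mem 1 hv, by simp⟩
  exact h1 hx

lemma stable_map {a : O → K} (ha : ∀ o, a o ≠ 0) {f : V →ₗ[F] W} (hf : Compat τ υ a f)
    {N : Submodule F V} (hN : Stable τ N) : Stable υ (N.map f) := by
  intro o x hx
  obtain ⟨y, hy, rfl⟩ := base_map_exists hx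
  have h2 : υ o (f.baseChange K y) = (a o)⁻¹ • f.baseChange K (τ o y) := by
    rw [hf o y, smul_smul, inv_mul_cancel₀ (ha o), one_smul]
  rw [h2]
  exact Submodule.smul_mem _ _ (base_map_mem (hN o y hy))

lemma exists_relCompl {κ : Type*} {B : κ → Type*} [∀ k, AddCommGroup (B k)]
    [∀ k, Module F (B k)] {σ : ∀ k, O → Module.End K (K ⊗[F] B k)} {b : κ → O → K}
    (hb : ∀ k o, b k o ≠ 0) (hσ : ∀ k, Reducible (σ k)) {ψ : ∀ k, B k →ₗ[F] W}
    (hψ : ∀ k, Compat (σ k) υ (b k) (ψ k)) (s : Finset κ) :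
    ∀ N, Stable υ N → N ≤ s.sup (fun k => LinearMap.range (ψ k)) →
      ∃ C, Stable υ C ∧ N ⊓ C = ⊥ ∧ N ⊔ C = s.sup fun k => LinearMap.range (ψ k) := by
  classical
  induction s using Finset.induction_on with
  | empty =>
    intro N _ hN
    rw [Finset.sup_empty, le_bot_iff] at hN
    exact ⟨⊥, Stable.bot, by simp, by simp [hN]⟩
  | insert k₀ s hk ih =>
    intro N hN hNT
    rw [Finset.sup_insert] at hNT ⊢
    set T' := s.sup fun k => LinearMap.range (ψ k) with hT'
    have hTs : Stable υ T' := stable_sup_range hb hψ s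
    obtain ⟨C', hC', h1, h2⟩ := ih (N ⊓ T') (stable_inf hN hTs) inf_le_right
    have hCT : C' ≤ T' := by rw [← h2]; exact le_sup_right
    have hP : Stable (σ k₀) ((N ⊔ C').comap (ψ k₀)) := Stable.comap (hψ k₀) (hN.sup hC')
    obtain ⟨D, hD, hPD⟩ := hσ k₀ _ hP
    refine ⟨C' ⊔ D.map (ψ k₀), hC'.sup (stable_map (hb k₀) (hψ k₀) hD), ?_, ?_⟩
    · rw [eq_bot_iff]
      rintro x ⟨hx, hx'⟩
      obtain ⟨c, hc, _, ⟨d, hd, rfl⟩, rfl⟩ := Submodule.mem_sup.1 hx'
      have h3 : d ∈ (N ⊔ C').comap (ψ k₀) := by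
        change ψ k₀ d ∈ N ⊔ C'
        have : ψ k₀ d = (c + ψ k₀ d) - c := by abel
        rw [this]
        exact Submodule.sub_mem _ (Submodule.mem_sup_left hx) (Submodule.mem_sup_right hc)
      have h4 : d ∈ (N ⊔ C').comap (ψ k₀) ⊓ D := ⟨h3, hd⟩
      rw [hPD.inf_eq_bot, Submodule.mem_bot] at h4
      subst h4
      rw [map_zero, add_zero] at hx ⊢
      have h5 : c ∈ (N ⊓ T') ⊓ C' := ⟨⟨hx, hCT hc⟩, hc⟩
      rwa [h1] at h5
    · apply le_antisymm
      · refine sup_le hNT (sup_le (hCT.trans le_sup_right) ?_)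
        exact (LinearMap.map_le_range (f := ψ k₀)).trans le_sup_left
      · refine sup_le ?_ ?_
        · rintro _ ⟨y, rfl⟩
          have hy : y ∈ (N ⊔ C').comap (ψ k₀) ⊔ D := by rw [hPD.sup_eq_top]; trivial
          obtain ⟨p, hp, d, hd, rfl⟩ := Submodule.mem_sup.1 hy
          rw [map_add]
          refine Submodule.add_mem _ ?_ ?_
          · exact (sup_le_sup_left le_sup_left N : N ⊔ C' ≤ _) hp
          · exact Submodule.mem_sup_right (Submodule.mem_sup_right ⟨d, hd, rfl⟩)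
        · rw [← h2]
          exact sup_le (inf_le_left.trans le_sup_left) (le_sup_left.trans le_sup_right)

omit [AddCommGroup V] [Module F V] in
lemma exists_proj {N C : Submodule F W} (h : N ⊓ C = ⊥) :
    ∃ p : W →ₗ[F] W, (∀ x, p x ∈ N) ∧ (∀ x ∈ N, p x = x) ∧ ∀ x ∈ C, p x = 0 := by
  obtain ⟨C', hC', hc⟩ := (disjoint_iff.2 ((inf_comm C N).trans h)).exists_isCompl
  refine ⟨LinearMap.ofIsCompl hc.symm N.subtype 0, fun x => ?_, fun x hx => ?_, fun x hx => ?_⟩
  · have hx : x ∈ N ⊔ C' := by rw [hc.symm.sup_eq_top]; trivial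
    obtain ⟨n, hn, d, hd, rfl⟩ := Submodule.mem_sup.1 hx
    have h1 := LinearMap.ofIsCompl_apply_left hc.symm (φ := N.subtype) (ψ := 0) ⟨n, hn⟩
    have h2 := LinearMap.ofIsCompl_apply_right hc.symm (φ := N.subtype) (ψ := 0) ⟨d, hd⟩
    rw [map_add]
    erw [h1, h2]
    simpa using hn
  · exact LinearMap.ofIsCompl_apply_left hc.symm (φ := N.subtype) (ψ := 0) ⟨x, hx⟩
  · exact LinearMap.ofIsCompl_apply_right hc.symm (φ := N.subtype) (ψ := 0) ⟨x, hC' hx⟩

lemma compat_proj {a : O → K} {φ : V →ₗ[F] W} (hφ : Compat τ υ a φ) {N C : Submodule F W}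
    (hN : Stable υ N) (hC : Stable υ C) {p : W →ₗ[F] W} (hpN : ∀ x ∈ N, p x = x)
    (hpC : ∀ x ∈ C, p x = 0) (hr : LinearMap.range φ ≤ N ⊔ C) : Compat τ υ a (p ∘ₗ φ) := by
  intro o x
  rw [LinearMap.baseChange_comp, LinearMap.comp_apply, LinearMap.comp_apply, hφ o x, map_smul]
  congr 1
  have h1 : φ.baseChange K x ∈ (N ⊔ C).baseChange K := baseChange_mem_range φ hr x
  have h2 : (N ⊔ C).baseChange K ≤ N.baseChange K ⊔ C.baseChange K :=
    baseChange_sup_le le_sup_left le_sup_right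
  obtain ⟨n, hn, c, hc, h3⟩ := Submodule.mem_sup.1 (h2 h1)
  have h4 : ∀ n ∈ N.baseChange K, p.baseChange K n = n := by
    intro n hn
    have := base_eq_of (K := K) (f := p) (g := LinearMap.id) (N := N) hpN hn
    rwa [LinearMap.baseChange_id, LinearMap.id_apply] at this
  have h5 : ∀ n ∈ C.baseChange K, p.baseChange K n = 0 := by
    intro n hn
    have := base_eq_of (K := K) (f := p) (g := 0) (N := C) (fun x hx => by
      rw [hpC x hx, LinearMap.zero_apply]) hn
    rwa [LinearMap.baseChange_zero, LinearMap.zero_apply] at this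
  rw [← h3, map_add, map_add, map_add, h4 _ (hN o n hn), h4 n hn, h5 _ (hC o c hc), h5 c hc,
    add_zero, add_zero]

end Rel

end Pool.Agent.TH132.U
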