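import Pool.Agent.TH132.U.Pol

/-!
# The Reynolds operator
-/

set_option autoImplicit false

open CategoryTheory AlgebraicGeometry TensorProduct

universe u v w

namespace Pool.Agent.TH132.U

open Pool.Agent.H914 Pool.Agent.H914.VarClass Pool.Agent.H914.VarClass.Obj
  Pool.Agent.H914.WeilCohomology Pool.Agent.TH132.E

variable {k : Type u} [Field k] {𝒱 : VarClass k} {ops : CycleOps 𝒱}
  {W : WeilCohomology.{u, v} ops} {L : Type v} [Field L] [Algebra W.K L] {O : Type w}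
  {𝓛 : Set (Set O)} {c : O → L} {G : Set (OVar W L O)}

/-- The hypotheses. -/
structure Setup (𝓛 : Set (Set O)) (c : O → L) (G : Set (OVar W L O)) {ι : Type*}
    (X : ι → OVar W L O) (Z : OVar W L O) : Prop where
  dir : Directed' 𝓛
  ne : ∀ o, c o ≠ 0
  cls : OClass c G
  memX : ∀ i, X i ∈ G
  memZ : Z ∈ G
  redX : ∀ S A, IsProdSet X G S A → AllReducible 𝓛 (opSp A)
  redZ : ∀ n A, IsPow Z G n A → AllReducible 𝓛 (opSp A)

/-- The spaces attached to the products. -/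
def QS {ι : Type*} (X : ι → OVar W L O) (G : Set (OVar W L O)) (S : Set ι) :
    Set (OpSp W.K L O) := {M | ∃ A, IsProdSet X G S A ∧ M = opSp A}

/-- The polynomials of degree `n` in the images of the cohomology of the products. -/
noncomputable def Rn {ι : Type*} (𝓛 : Set (Set O)) (c : O → L) (G : Set (OVar W L O))
    (X : ι → OVar W L O) (Z : OVar W L O) (S : Set ι) (n : ℕ) : Submodule W.K (Pol Z) :=
  rsum 𝓛 c (polSp Z) (hom Z n) (QS X G S)

instance hom_finite (Z : OVar W L O) (n : ℕ) : Module.Finite W.K (hom Z n) := by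
  have h : (hom Z n).FG := by
    rw [hom, ← MvPolynomial.homogeneousSubmodule_one_pow]
    apply Submodule.FG.pow
    rw [MvPolynomial.homogeneousSubmodule_one_eq_span_X]
    exact Submodule.fg_span (Set.finite_range _)
  exact Module.Finite.iff_fg.2 h

variable {ι : Type*} {X : ι → OVar W L O} {Z : OVar W L O}

lemma Rn_le (S : Set ι) (n : ℕ) : Rn 𝓛 c G X Z S n ≤ hom Z n := rsum_le

lemma Rn_mono {S S' : Set ι} (h : S ⊆ S') (n : ℕ) :
    Rn 𝓛 c G X Z S n ≤ Rn 𝓛 c G X Z S' n :=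
  rsum_mono (by rintro _ ⟨A, hA, rfl⟩; exact ⟨A, hA.mono h, rfl⟩)

lemma range_le_Rn {S : Set ι} {n : ℕ} {A : OVar W L O} (hA : IsProdSet X G S A) {m : ℤ}
    {φ : W.H A.X →ₗ[W.K] Pol Z} (hφ : TMap 𝓛 c m (opSp A) (polSp Z) φ)
    (hr : LinearMap.range φ ≤ hom Z n) : LinearMap.range φ ≤ Rn 𝓛 c G X Z S n :=
  range_le_rsum (A := opSp A) (M := polSp Z) (N := hom Z n) (Q := QS X G S) ⟨A, hA, rfl⟩ hφ hr

lemma Rn_le_iff {S : Set ι} {n : ℕ} {R : Submodule W.K (Pol Z)} :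
    Rn 𝓛 c G X Z S n ≤ R ↔ ∀ A, IsProdSet X G S A → ∀ (m : ℤ) (φ : W.H A.X →ₗ[W.K] Pol Z),
      TMap 𝓛 c m (opSp A) (polSp Z) φ → LinearMap.range φ ≤ hom Z n →
        LinearMap.range φ ≤ R := by
  refine (rsum_le_iff (M := polSp Z) (N := hom Z n)).trans ⟨fun h A hA m φ hφ hr =>
    h (opSp A) ⟨A, hA, rfl⟩ m φ hφ hr, fun h => ?_⟩
  rintro _ ⟨A, hA, rfl⟩ m φ hφ hr
  exact h A hA m φ hφ hr

lemma Setup.mem (H : Setup 𝓛 c G X Z) {S : Set ι} {A : OVar W L O} (h : IsProdSet X G S A) :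
    A ∈ G := h.mem H.memX

lemma Setup.exists_prod (H : Setup 𝓛 c G X Z) {S : Set ι} {A B : OVar W L O}
    (hA : IsProdSet X G S A) (hB : IsProdSet X G S B) :
    ∃ υ, ProdAct A B υ ∧ prodO A B υ ∈ G ∧ IsProdSet X G S (prodO A B υ) := by
  obtain ⟨υ, hυ, hυG⟩ := H.cls.prod A (H.mem hA) B (H.mem hB)
  exact ⟨υ, hυ, hυG, IsProdSet.mul A B υ hA hB hυ hυG⟩

lemma Rn_mul (H : Setup 𝓛 c G X Z) (S : Set ι) (m n : ℕ) {f g : Pol Z}
    (hf : f ∈ Rn 𝓛 c G X Z S m) (hg : g ∈ Rn 𝓛 c G X Z S n) :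
    f * g ∈ Rn 𝓛 c G X Z S (m + n) := by
  have h1 : Rn 𝓛 c G X Z S m ≤ (Rn 𝓛 c G X Z S (m + n)).comap (LinearMap.mulRight W.K g) := by
    rw [Rn_le_iff]
    rintro A hA a φ hφ hr _ ⟨x, rfl⟩
    have h2 : Rn 𝓛 c G X Z S n ≤ (Rn 𝓛 c G X Z S (m + n)).comap
        (LinearMap.mulLeft W.K (φ x)) := by
      rw [Rn_le_iff]
      rintro B hB b ψ hψ hr' _ ⟨y, rfl⟩
      obtain ⟨υ, hυ, _, hP⟩ := H.exists_prod hA hB
      have h3 := range_le_Rn (n := m + n) hP (pm_tmap H.dir H.ne hυ hφ hψ) (by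
        rw [← hom_mul]
        exact (pm_range φ ψ).le.trans (mul_le_mul' hr hr'))
      have h4 : φ x * ψ y ∈ LinearMap.range (pm φ ψ) := ⟨_, pm_apply φ ψ x y⟩
      exact h3 h4
    exact h2 hg
  exact h1 hf

lemma tr_ne_zero {A : 𝒱.Obj} (h : (1 : W.H A) ≠ 0) : W.tr A ≠ 0 := fun h0 =>
  h (W.nondeg 1 fun b => by rw [h0, LinearMap.zero_apply])

lemma hom_zero_le (H : Setup 𝓛 c G X Z) {S : Set ι} {e : ι} (he : e ∈ S)
    (h1 : (1 : W.H (X e).X) ≠ 0) : hom Z 0 ≤ Rn 𝓛 c G X Z S 0 := by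
  set φ : W.H (X e).X →ₗ[W.K] Pol Z := (Algebra.linearMap W.K (Pol Z)) ∘ₗ W.tr (X e).X with hφ
  have hr0 : LinearMap.range φ = hom Z 0 := by
    rw [hφ, LinearMap.range_comp, LinearMap.range_eq_top.2 (LinearMap.surjective (tr_ne_zero h1)),
      Submodule.map_top, hom, MvPolynomial.homogeneousSubmodule_zero, Submodule.one_eq_range]
  have hT : TMap 𝓛 c (X e).X.dim (opSp (X e)) (polSp Z) φ := by
    obtain ⟨D, hD⟩ := H.dir.nonempty
    refine ⟨D, hD, fun o x => ?_⟩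
    have h2 : ∀ x : L ⊗[W.K] W.H (X e).X, φ.baseChange L x =
        algebraMap L (L ⊗[W.K] Pol Z) (formBase L (W.tr (X e).X) x) := by
      intro x
      refine tmul_induction (P := fun x => φ.baseChange L x =
        algebraMap L (L ⊗[W.K] Pol Z) (formBase L (W.tr (X e).X) x)) ?_ ?_ ?_ x
      · simp
      · intro x y hx hy
        rw [map_add, hx, hy, map_add, map_add]
      · intro l a
        rw [LinearMap.baseChange_tmul, formBase_tmul, hφ, LinearMap.comp_apply,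
          Algebra.linearMap_apply, Algebra.TensorProduct.algebraMap_apply, Algebra.algebraMap_eq_smul_one,
          TensorProduct.tmul_smul, TensorProduct.smul_tmul', Algebra.smul_def, mul_comm]
        rfl
    have h3 : ∀ x : L ⊗[W.K] W.H (X e).X, φ.baseChange L ((X e).act o x) =
        c o ^ ((X e).X.dim : ℤ) • sg Z o (φ.baseChange L x) := by
      intro x
      rw [h2, h2, H.cls.tr _ (H.memX e), AlgHom.commutes, map_mul, zpow_natCast]
      exact (Algebra.smul_def _ _).symm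
    exact h3 x
  have := range_le_Rn (G := G) (n := 0) (IsProdSet.one (G := G) e he) hT hr0.le
  rwa [hr0] at this

lemma tfin_hom (H : Setup 𝓛 c G X Z) {n : ℕ} (hn : 0 < n) :
    TFin 𝓛 c (polSp Z) (hom Z n) := by
  obtain ⟨A, hA⟩ := exists_isPow H.cls H.memZ n hn
  obtain ⟨κ, hκ, f, h1, h2, _⟩ := hA.hasFam H.dir H.ne
  exact ⟨κ, hκ, fun _ => opSp A, fun _ => 0, f, h1, fun _ => H.redZ n A hA, h2.symm⟩

lemma exists_projR (H : Setup 𝓛 c G X Z) {S : Set ι} {e : ι} (he : e ∈ S)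
    (h1 : (1 : W.H (X e).X) ≠ 0) (n : ℕ) :
    ∃ p, IsTProj 𝓛 c (polSp Z) (hom Z n) (Rn 𝓛 c G X Z S n) p := by
  rcases Nat.eq_zero_or_pos n with rfl | hn
  · have h2 : Rn 𝓛 c G X Z S 0 = hom Z 0 := le_antisymm (Rn_le S 0) (hom_zero_le H he h1)
    obtain ⟨p, hp1, hp2, _⟩ := exists_proj (F := W.K) (W := Pol Z) (N := hom Z 0) (C := ⊥)
      (inf_bot_eq _)
    refine ⟨p, fun x => ?_, fun x hx => ?_, fun A m φ hφ hr => ?_⟩
    · rw [h2]; exact hp1 x
    · rw [h2] at hx; exact hp2 x hx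
    · have h3 : ∀ φ : A.V →ₗ[W.K] Pol Z, LinearMap.range φ ≤ hom Z 0 → p ∘ₗ φ = φ := by
        intro φ hr
        ext1 x
        exact hp2 _ (hr ⟨x, rfl⟩)
      have h4 : p ∘ₗ φ = φ := h3 φ hr
      exact h4.symm ▸ hφ
  · exact exists_tproj H.dir H.ne (tfin_hom H hn)
      (rsum_stable (M := polSp Z) H.dir H.ne (hom_finite Z n)) (Rn_le S n)

/-- The core of the Reynolds property. -/
lemma rey_core (H : Setup 𝓛 c G X Z) {S : Set ι} {m n : ℕ} {p : Pol Z →ₗ[W.K] Pol Z}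
    (hp : IsTProj 𝓛 c (polSp Z) (hom Z n) (Rn 𝓛 c G X Z S n) p)
    {p' : Pol Z →ₗ[W.K] Pol Z}
    (hp' : IsTProj 𝓛 c (polSp Z) (hom Z (n + m)) (Rn 𝓛 c G X Z S (n + m)) p')
    {B : OVar W L O} (hBG : B ∈ G) (hB : AllReducible 𝓛 (opSp B))
    {g : W.H B.X →ₗ[W.K] Pol Z} (hg : TMap 𝓛 c 0 (opSp B) (polSp Z) g)
    (hgr : LinearMap.range g ≤ hom Z n) (hpg : ∀ z, p (g z) = 0)
    {A : OVar W L O} (hA : IsProdSet X G S A) {a : ℤ} {φ : W.H A.X →ₗ[W.K] Pol Z}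
    (hφ : TMap 𝓛 c a (opSp A) (polSp Z) φ) (hφr : LinearMap.range φ ≤ hom Z m)
    (z : W.H B.X) (y : W.H A.X) : p' (g z * φ y) = 0 := by
  obtain ⟨e, heT, hge, hge'⟩ := exists_kerproj H.dir (P := polSp Z) (M := opSp B) (g := g)
    hB H.ne hg
  have hge'' : ∀ x : W.H B.X, g (e x) = g x := hge'
  obtain ⟨υ, hυ, hυG⟩ := H.cls.prod B hBG A (H.mem hA)
  have key : ∀ (A' : OVar W L O), IsProdSet X G S A' → ∀ (b : ℤ)
      (t : W.H (B.X.prod A.X) →ₗ[W.K] W.H A'.X), TMap 𝓛 c b (opSp (prodO B A υ)) (opSp A') t →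
        t (W.map (fst B.X A.X) (e z) * W.map (snd B.X A.X) y) = 0 := by
    intro A' hA' b t ht
    obtain ⟨ω, hω, _, hP⟩ := H.exists_prod hA hA'
    have h1 : TMap 𝓛 c (b - A.X.dim) (opSp B) (opSp (prodO A A' ω)) (adj t) :=
      adj_tmap H.ne (H.cls.tr A (H.mem hA)) hυ hω ht
    have h2 : ∀ (b' : ℤ) (r : W.H (A.X.prod A'.X) →ₗ[W.K] W.H B.X),
        TMap 𝓛 c b' (opSp (prodO A A' ω)) (opSp B) r →
          LinearMap.range (g ∘ₗ r) ≤ Rn 𝓛 c G X Z S n := fun b' r hr =>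
      range_le_Rn hP (TMap.comp (C := polSp Z) (A := opSp (prodO A A' ω)) (B := opSp B)
        (f := r) (g := g) H.dir H.ne hg hr) ((LinearMap.range_comp_le_range r g).trans hgr)
    have h3 : adj t (e z) = 0 := kerproj_zero H.dir H.ne (P := polSp Z) (M := opSp B)
      (B := opSp (prodO A A' ω)) (g := g) (e := e) (R := Rn 𝓛 c G X Z S n) (p := p)
      (s := adj t) hB (H.redX S _ hP) heT hge hp.id hpg h2 h1 z
    have h4 := fm_adj t (e z) y
    rw [h3, map_zero, LinearMap.zero_apply] at h4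
    exact h4.symm
  have h1 : TMap 𝓛 c (0 + a) (opSp (prodO B A υ)) (polSp Z) (pm g φ) :=
    pm_tmap H.dir H.ne hυ hg hφ
  have hr1 : LinearMap.range (pm g φ) ≤ hom Z (n + m) := by
    rw [← hom_mul]
    exact (pm_range g φ).le.trans (mul_le_mul' hgr hφr)
  have h3 : p' (pm g φ (W.map (fst B.X A.X) (e z) * W.map (snd B.X A.X) y)) = 0 :=
    proj_eq_zero H.dir H.ne (M := polSp Z) (N := hom Z (n + m)) (Q := QS X G S) (p := p')
      (A := opSp (prodO B A υ)) (φ := pm g φ)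
      (y := W.map (fst B.X A.X) (e z) * W.map (snd B.X A.X) y)
      (hom_finite Z _) (by rintro _ ⟨A', hA', rfl⟩; exact H.redX S A' hA') hp' h1 hr1 (by
        rintro _ ⟨A', hA', rfl⟩ b t ht
        exact key A' hA' b t ht)
  have h4 : pm g φ (W.map (fst B.X A.X) (e z) * W.map (snd B.X A.X) y) = g (e z) * φ y :=
    pm_apply g φ (e z) y
  rw [h4, hge''] at h3
  exact h3

/-- The projection is linear over the products of the images. -/
lemma reynolds (H : Setup 𝓛 c G X Z) {S : Set ι} {e : ι} (he : e ∈ S)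
    (h1 : (1 : W.H (X e).X) ≠ 0) {m n : ℕ} {p : Pol Z →ₗ[W.K] Pol Z}
    (hp : IsTProj 𝓛 c (polSp Z) (hom Z n) (Rn 𝓛 c G X Z S n) p)
    {p' : Pol Z →ₗ[W.K] Pol Z}
    (hp' : IsTProj 𝓛 c (polSp Z) (hom Z (n + m)) (Rn 𝓛 c G X Z S (n + m)) p')
    {q f : Pol Z} (hq : q ∈ hom Z n) (hf : f ∈ Rn 𝓛 c G X Z S m) :
    p' (q * f) = p q * f := by
  have hmem : p q * f ∈ Rn 𝓛 c G X Z S (n + m) := Rn_mul H S n m (hp.mem q) hf
  have h0 : p' ((q - p q) * f) = 0 := by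
    rcases Nat.eq_zero_or_pos n with rfl | hn
    · have h2 : p q = q := hp.id q (hom_zero_le H he h1 hq)
      rw [h2, sub_self, zero_mul, map_zero]
    · obtain ⟨B, hB⟩ := exists_isPow H.cls H.memZ n hn
      obtain ⟨κ, _, F, hF1, hF2, _⟩ := hB.hasFam H.dir H.ne
      -- the elements q for which the claim holds
      let T : Submodule W.K (Pol Z) := LinearMap.ker
        (p' ∘ₗ LinearMap.mulRight W.K f ∘ₗ (LinearMap.id - p))
      have hT : ∀ q, q ∈ T ↔ p' ((q - p q) * f) = 0 := fun q => Iff.rfl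
      rw [← hT]
      refine (?_ : hom Z n ≤ T) hq
      rw [← hF2]
      refine iSup_le fun j => ?_
      rintro _ ⟨z, rfl⟩
      rw [hT]
      have hrj : LinearMap.range (F j) ≤ hom Z n := by
        rw [← hF2]
        exact le_iSup (fun k => LinearMap.range (F k)) j
      have hg : TMap 𝓛 c 0 (opSp B) (polSp Z) (F j - p ∘ₗ F j) :=
        TMap.sub H.dir (hF1 j) (hp.comp _ _ _ (hF1 j) hrj)
      have hgr : LinearMap.range (F j - p ∘ₗ F j) ≤ hom Z n := by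
        rintro _ ⟨x, rfl⟩
        exact Submodule.sub_mem _ (hrj ⟨x, rfl⟩) (Rn_le S n (hp.mem _))
      have hpg : ∀ x, p ((F j - p ∘ₗ F j) x) = 0 := by
        intro x
        have : p (p (F j x)) = p (F j x) := hp.id _ (hp.mem _)
        rw [LinearMap.sub_apply, LinearMap.comp_apply, map_sub, this, sub_self]
      have h3 : Rn 𝓛 c G X Z S m ≤ LinearMap.ker
          (p' ∘ₗ LinearMap.mulLeft W.K (F j z - p (F j z))) := by
        rw [Rn_le_iff]
        rintro A hA a φ hφ hr _ ⟨y, rfl⟩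
        exact rey_core H hp hp' (hB.mem H.memZ) (H.redZ n B hB) hg hgr hpg hA hφ hr z y
      exact h3 hf
  have h2 : q * f = (q - p q) * f + p q * f := by ring
  have h3 : p' (p q * f) = p q * f := hp'.id _ hmem
  rw [h2, map_add, h0, zero_add, h3]

end Pool.Agent.TH132.U
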