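import Pool.Agent.TH125.Gal.Pub
import Pool.Agent.TH132.U.HDefs

/-!
# Galois representations on a Weil cohomology and levels: definitions
-/

set_option autoImplicit false

open CategoryTheory AlgebraicGeometry TensorProduct

universe u w

namespace Pool.Agent.TH132.U

open Pool.Agent.H914 Pool.Agent.H914.VarClass Pool.Agent.H914.VarClass.Obj
  Pool.Agent.H914.WeilCohomology Pool.Agent.TH125.Gal Pool.Agent.TH132.E

section Generic

/-- The actions of `Γ` on the algebra `A` by automorphisms. -/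
abbrev AlgAct (K A : Type) [Field K] [Ring A] [Algebra K A] (Γ : Type w) [Group Γ] : Type w :=
  Γ →* (A ≃ₐ[K] A)

variable {K A B : Type} [Field K] [Ring A] [Algebra K A] [Ring B] [Algebra K B] {Γ : Type w}
  [Group Γ]

/-- A set of levels: a nonempty set of subgroups such that the intersection of two members contains
a member. For instance the set whose only member is the whole group, or the set of all subgroups of
finite index. -/
structure IsLevels (𝓓 : Set (Subgroup Γ)) : Prop where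
  nonempty : 𝓓.Nonempty
  inter : ∀ Δ ∈ 𝓓, ∀ Δ' ∈ 𝓓, ∃ Δ'' ∈ 𝓓, Δ'' ≤ Δ ⊓ Δ'

/-- The action respects the grading and multiplies the trace by `χ ^ n`. -/
structure IsGraded (χ : Γ →* Kˣ) (gr : ℕ → Submodule K A) (n : ℕ) (tr : A →ₗ[K] K)
    (ρ : AlgAct K A Γ) : Prop where
  gr_mem : ∀ g i, ∀ a ∈ gr i, ρ g a ∈ gr i
  tr_act : ∀ g a, tr (ρ g a) = (χ g : K) ^ n * tr a

/-- The homomorphism `f` is equivariant. -/
def IsEquiv (f : A →ₐ[K] B) (ρ : AlgAct K A Γ) (υ : AlgAct K B Γ) : Prop := Intertwines f ρ υ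

/-- The classes of degree `2 j` which are multiplied by `χ g ^ j` by all elements `g` of one of the
subgroups in `𝓓`. -/
def levelClasses (𝓓 : Set (Subgroup Γ)) (χ : Γ →* Kˣ) (gr : ℕ → Submodule K A)
    (ρ : AlgAct K A Γ) (j : ℕ) : Set A :=
  {t | t ∈ gr (2 * j) ∧ ∃ Δ ∈ 𝓓, ∀ g ∈ Δ, ρ g t = (χ g : K) ^ j • t}

/-- The restriction of the action to each member of `𝓓` is semisimple: all stable subspaces have
stable complements. -/
def IsSemisimpleOn (𝓓 : Set (Subgroup Γ)) (ρ : AlgAct K A Γ) : Prop :=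
  ∀ Δ ∈ 𝓓, ∀ N : Submodule K A, (∀ g ∈ Δ, ∀ x ∈ N, ρ g x ∈ N) →
    ∃ N' : Submodule K A, (∀ g ∈ Δ, ∀ x ∈ N', ρ g x ∈ N') ∧ IsCompl N N'

/-- The elements of `H j` belong to `S j`. -/
def InSub (H : ℕ → Set A) (S : ℕ → Submodule K A) : Prop := ∀ j, ∀ a ∈ H j, a ∈ S j

end Generic

variable {k : Type u} [Field k] {𝒱 : VarClass k} {ops : CycleOps 𝒱}

/-- Functorial actions of `Γ` on the cohomology algebras, which respect the degree and multiply the
trace by `χ ^ dim X`. In the intended use `W` is the `ℓ`-adic cohomology, `Γ` is the Galois group of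
the field `k` and `χ` is the inverse of the cyclotomic character. -/
structure GaloisActions (W : WeilCohomology.{u, 0} ops) (Γ : Type w) [Group Γ]
    (χ : Γ →* W.Kˣ) where
  /-- the action -/
  act : ∀ X : 𝒱.Obj, AlgAct W.K (W.H X) Γ
  isGraded : ∀ X, IsGraded χ (W.gr X) X.dim (W.tr X) (act X)
  equivariant : ∀ {X Y : 𝒱.Obj} (f : X ⟶ Y), IsEquiv (W.map f) (act Y) (act X)

variable {W : WeilCohomology.{u, 0} ops} {Γ : Type w} [Group Γ] {χ : Γ →* W.Kˣ}

/-- The Tate classes on `X` (with respect to the levels `𝓓`). -/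
def GaloisActions.tate (𝓖 : GaloisActions W Γ χ) (𝓓 : Set (Subgroup Γ)) (X : 𝒱.Obj) (j : ℕ) :
    Set (W.H X) := levelClasses 𝓓 χ (W.gr X) (𝓖.act X) j

/-- Every Tate class on `A × B` is a linear combination of products of Tate classes on `A` and
on `B`. -/
def GaloisActions.Splits (𝓖 : GaloisActions W Γ χ) (𝓓 : Set (Subgroup Γ)) (A B : 𝒱.Obj) : Prop :=
  ClassesSplit (W.map (fst A B)) (W.map (snd A B)) (𝓖.tate 𝓓 A) (𝓖.tate 𝓓 B)
    (𝓖.tate 𝓓 (A.prod B))

/-- The members of the family are independent: the Tate classes on `A × B` split, for every set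
`T` of indices, every product `A` of members with index in `T` and every product `B` of members with
index not in `T`. -/
def GaloisActions.Independent (𝓖 : GaloisActions W Γ χ) (𝓓 : Set (Subgroup Γ)) {ι : Type}
    (X : ι → 𝒱.Obj) : Prop :=
  ∀ (T : Set ι) (A B : 𝒱.Obj), IsProd X T A → IsProd X Tᶜ B → 𝓖.Splits 𝓓 A B

/-- The actions on the cohomology of all `X` with the property `P` are semisimple. -/
def GaloisActions.Semisimple (𝓖 : GaloisActions W Γ χ) (𝓓 : Set (Subgroup Γ))
    (P : 𝒱.Obj → Prop) : Prop := ∀ X, P X → IsSemisimpleOn 𝓓 (𝓖.act X)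

/-- All Tate classes on all `X` with the property `P` belong to the system `S`. -/
def GaloisActions.AllTateIn (𝓖 : GaloisActions W Γ χ) (𝓓 : Set (Subgroup Γ)) (S : Classes W)
    (P : 𝒱.Obj → Prop) : Prop := ∀ X, P X → InSub (𝓖.tate 𝓓 X) (S X)

end Pool.Agent.TH132.U
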