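import Pool.Agent.TH132.U.Red

/-!
# Compatible maps: lifts, projections, sums of images
-/

set_option autoImplicit false

open TensorProduct

universe v

namespace Pool.Agent.TH132.U

open Pool.Agent.TH132.E

section

variable {F K : Type v} [Field F] [Field K] [Algebra F K] {O : Type*} {L : Set (Set O)}
  {c : O → K}

lemma TMap.sub (hL : Directed' L) {m : ℤ} {A B : OpSp F K O} {f g : A.V →ₗ[F] B.V}
    (hf : TMap L c m A B f) (hg : TMap L c m A B g) : TMap L c m A B (f - g) := by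
  obtain ⟨D, hD, h1⟩ := hf
  obtain ⟨D', hD', h2⟩ := hg
  obtain ⟨D'', hD'', h3⟩ := hL.inter D hD D' hD'
  exact ⟨D'', hD'', (compat_mono (a := fun o => c o ^ m) (h3.trans Set.inter_subset_left)
    h1).sub (compat_mono (a := fun o => c o ^ m) (h3.trans Set.inter_subset_right) h2)⟩

lemma tmap_id (hL : Directed' L) (A : OpSp F K O) : TMap L c 0 A A LinearMap.id := by
  obtain ⟨D, hD⟩ := hL.nonempty
  refine ⟨D, hD, fun o x => ?_⟩
  rw [LinearMap.baseChange_id, LinearMap.id_apply, LinearMap.id_apply]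
  change A.τ o x = c o ^ (0 : ℤ) • A.τ o x
  rw [zpow_zero, one_smul]

/-- The subspace is stable at some level. -/
def TStable (L : Set (Set O)) (M : OpSp F K O) (N : Submodule F M.V) : Prop :=
  ∃ D ∈ L, Stable (fun o : D => M.τ o) N

lemma stable_mono {V : Type*} [AddCommGroup V] [Module F V] {D D' : Set O} (h : D' ⊆ D)
    {τ : O → Module.End K (K ⊗[F] V)} {N : Submodule F V} (hN : Stable (fun o : D => τ o) N) :
    Stable (fun o : D' => τ o) N := fun o x hx => hN ⟨o, h o.2⟩ x hx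

lemma tstable_range (hc : ∀ o, c o ≠ 0) {m : ℤ} {A B : OpSp F K O} {f : A.V →ₗ[F] B.V}
    (hf : TMap L c m A B f) : TStable L B (LinearMap.range f) := by
  obtain ⟨D, hD, h⟩ := hf
  exact ⟨D, hD, Compat.range (b := fun o : D => c o ^ m) (fun o => zpow_ne_zero _ (hc _)) h⟩

lemma tstable_ker {m : ℤ} {A B : OpSp F K O} {f : A.V →ₗ[F] B.V}
    (hf : TMap L c m A B f) : TStable L A (LinearMap.ker f) := by
  obtain ⟨D, hD, h⟩ := hf
  exact ⟨D, hD, Stable.comap h Stable.bot⟩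

/-- Common levels. -/
lemma common_level (hL : Directed' L) {M : OpSp F K O} {κ : Type*} [Fintype κ]
    (B : κ → OpSp F K O) (w : κ → ℤ) (ψ : ∀ k, (B k).V →ₗ[F] M.V)
    (hψ : ∀ k, TMap L c (w k) (B k) M (ψ k)) :
    ∃ D ∈ L, ∀ k, Compat (fun o : D => (B k).τ o) (fun o : D => M.τ o)
      (fun o : D => c o ^ w k) (ψ k) := by
  choose D hD h using hψ
  obtain ⟨D', hD', h1⟩ := hL.finite Finset.univ D fun k _ => hD k
  exact ⟨D', hD', fun k => compat_mono (a := fun o => c o ^ w k) (h1 k (Finset.mem_univ k)) (h k)⟩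

/-- Lifting. -/
lemma tlift_family (hL : Directed' L) (hc : ∀ o, c o ≠ 0) {M A : OpSp F K O} {κ : Type*}
    [Fintype κ] (B : κ → OpSp F K O) (w : κ → ℤ) (ψ : ∀ k, (B k).V →ₗ[F] M.V)
    (hψ : ∀ k, TMap L c (w k) (B k) M (ψ k)) (hB : ∀ k, AllReducible L (B k)) {m : ℤ}
    {φ : A.V →ₗ[F] M.V} (hφ : TMap L c m A M φ)
    (hr : LinearMap.range φ ≤ ⨆ k, LinearMap.range (ψ k)) :
    ∃ t : ∀ k, A.V →ₗ[F] (B k).V, (∀ k, TMap L c (m - w k) A (B k) (t k)) ∧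
      φ = ∑ k, ψ k ∘ₗ t k := by
  obtain ⟨D, hD, h1⟩ := common_level hL B w ψ hψ
  obtain ⟨D', hD', h2⟩ := hφ
  obtain ⟨D'', hD'', h3⟩ := hL.inter D hD D' hD'
  obtain ⟨t, ht, hsum⟩ := exists_lift (F := F) (K := K) (O := D'') (κ := κ)
    (B := fun k => (B k).V) (τ := fun o : D'' => A.τ o) (υ := fun o : D'' => M.τ o)
    (σ := fun k o => (B k).τ o) (b := fun k (o : D'') => c o ^ w k)
    (fun k o => zpow_ne_zero _ (hc _)) (fun k => hB k D'' hD'') (ψ := ψ)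
    (fun k => compat_mono (a := fun o => c o ^ w k) (h3.trans Set.inter_subset_left) (h1 k))
    Finset.univ (a := fun o : D'' => c o ^ m) (φ := φ)
    (compat_mono (a := fun o => c o ^ m) (h3.trans Set.inter_subset_right) h2)
    (by rwa [Finset.sup_univ_eq_iSup])
  refine ⟨t, fun k => ⟨D'', hD'', fun o y => ?_⟩, hsum⟩
  rw [ht k o y, Pi.div_apply, ← zpow_sub₀ (hc _)]

lemma tlift_one (hL : Directed' L) (hc : ∀ o, c o ≠ 0) {M A B : OpSp F K O} {w : ℤ}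
    {ψ : B.V →ₗ[F] M.V} (hψ : TMap L c w B M ψ) (hB : AllReducible L B) {m : ℤ}
    {φ : A.V →ₗ[F] M.V} (hφ : TMap L c m A M φ) (hr : LinearMap.range φ ≤ LinearMap.range ψ) :
    ∃ t : A.V →ₗ[F] B.V, TMap L c (m - w) A B t ∧ φ = ψ ∘ₗ t := by
  obtain ⟨t, ht, h⟩ := tlift_family hL hc (κ := Unit) (fun _ => B) (fun _ => w) (fun _ => ψ)
    (fun _ => hψ) (fun _ => hB) hφ (by rwa [iSup_const])
  exact ⟨t (), ht (), by rw [h, Finset.univ_unique, Finset.sum_singleton]⟩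

/-- `N` is a finite sum of images of compatible maps from reducible spaces. -/
def TFin (L : Set (Set O)) (c : O → K) (M : OpSp F K O) (N : Submodule F M.V) : Prop :=
  ∃ (κ : Type) (_ : Fintype κ) (B : κ → OpSp F K O) (w : κ → ℤ) (ψ : ∀ k, (B k).V →ₗ[F] M.V),
    (∀ k, TMap L c (w k) (B k) M (ψ k)) ∧ (∀ k, AllReducible L (B k)) ∧
      N = ⨆ k, LinearMap.range (ψ k)

lemma tfin_top (hL : Directed' L) {M : OpSp F K O} (hM : AllReducible L M) :
    TFin L c M (⊤ : Submodule F M.V) :=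
  ⟨Unit, inferInstance, fun _ => M, fun _ => 0, fun _ => LinearMap.id, fun _ => tmap_id hL M,
    fun _ => hM, by
    simp only [LinearMap.range_id, iSup_const]⟩

/-- A projection of `N` to `R` which is compatible with the operators. -/
structure IsTProj (L : Set (Set O)) (c : O → K) (M : OpSp F K O) (N R : Submodule F M.V)
    (p : M.V →ₗ[F] M.V) : Prop where
  mem : ∀ x, p x ∈ R
  id : ∀ x ∈ R, p x = x
  comp : ∀ (A : OpSp F K O) (m : ℤ) (φ : A.V →ₗ[F] M.V), TMap L c m A M φ →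
    LinearMap.range φ ≤ N → TMap L c m A M (p ∘ₗ φ)

lemma exists_tproj' (hL : Directed' L) {M : OpSp F K O} {N R C : Submodule F M.V}
    (hR : TStable L M R) (hC : TStable L M C) (h1 : R ⊓ C = ⊥) (h2 : N ≤ R ⊔ C) :
    ∃ p, IsTProj L c M N R p ∧ ∀ x ∈ C, p x = 0 := by
  obtain ⟨p, hp1, hp2, hp3⟩ := exists_proj h1
  obtain ⟨D, hD, hR⟩ := hR
  obtain ⟨D', hD', hC⟩ := hC
  obtain ⟨D₁, hD₁, h3⟩ := hL.inter D hD D' hD'
  refine ⟨p, ⟨hp1, hp2, ?_⟩, hp3⟩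
  rintro A m φ ⟨D₂, hD₂, hφ⟩ hr
  obtain ⟨D₃, hD₃, h4⟩ := hL.inter D₁ hD₁ D₂ hD₂
  refine ⟨D₃, hD₃, compat_proj
    (compat_mono (a := fun o => c o ^ m) (h4.trans Set.inter_subset_right) hφ)
    (stable_mono ((h4.trans Set.inter_subset_left).trans (h3.trans Set.inter_subset_left)) hR)
    (stable_mono ((h4.trans Set.inter_subset_left).trans (h3.trans Set.inter_subset_right)) hC)
    hp2 hp3 (hr.trans h2)⟩

lemma exists_tcompl (hL : Directed' L) (hc : ∀ o, c o ≠ 0) {M : OpSp F K O}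
    {N R : Submodule F M.V} (hN : TFin L c M N) (hR : TStable L M R) (hRN : R ≤ N) :
    ∃ C, TStable L M C ∧ R ⊓ C = ⊥ ∧ R ⊔ C = N := by
  obtain ⟨κ, _, B, w, ψ, h1, h2, rfl⟩ := hN
  obtain ⟨D, hD, h3⟩ := common_level hL B w ψ h1
  obtain ⟨D', hD', hR⟩ := hR
  obtain ⟨D₁, hD₁, h4⟩ := hL.inter D hD D' hD'
  obtain ⟨C, hC, h5, h6⟩ := exists_relCompl (F := F) (K := K) (O := D₁) (κ := κ)
    (B := fun k => (B k).V) (υ := fun o : D₁ => M.τ o)
    (σ := fun k o => (B k).τ o) (b := fun k (o : D₁) => c o ^ w k)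
    (fun k o => zpow_ne_zero _ (hc _)) (fun k => h2 k D₁ hD₁) (ψ := ψ)
    (fun k => compat_mono (a := fun o => c o ^ w k) (h4.trans Set.inter_subset_left) (h3 k))
    Finset.univ R (stable_mono (h4.trans Set.inter_subset_right) hR)
    (by rwa [Finset.sup_univ_eq_iSup])
  exact ⟨C, ⟨D₁, hD₁, hC⟩, h5, by rw [h6, Finset.sup_univ_eq_iSup]⟩

lemma exists_tproj (hL : Directed' L) (hc : ∀ o, c o ≠ 0) {M : OpSp F K O}
    {N R : Submodule F M.V} (hN : TFin L c M N) (hR : TStable L M R) (hRN : R ≤ N) :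
    ∃ p, IsTProj L c M N R p := by
  obtain ⟨C, hC, h1, h2⟩ := exists_tcompl hL hc hN hR hRN
  obtain ⟨p, hp, _⟩ := exists_tproj' (c := c) (N := N) hL hR hC h1 h2.ge
  exact ⟨p, hp⟩

/-- The maps from the spaces in `Q` with image in `N`. -/
abbrev Src (L : Set (Set O)) (c : O → K) (M : OpSp F K O) (N : Submodule F M.V)
    (Q : Set (OpSp F K O)) : Type _ :=
  {x : Σ A : OpSp F K O, A.V →ₗ[F] M.V // x.1 ∈ Q ∧ (∃ m, TMap L c m x.1 M x.2) ∧
    LinearMap.range x.2 ≤ N}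

/-- The sum of the images of the compatible maps from the spaces in `Q` with image in `N`. -/
def rsum (L : Set (Set O)) (c : O → K) (M : OpSp F K O) (N : Submodule F M.V)
    (Q : Set (OpSp F K O)) : Submodule F M.V :=
  ⨆ x : Src L c M N Q, LinearMap.range x.1.2

variable {M : OpSp F K O} {N : Submodule F M.V} {Q : Set (OpSp F K O)}

lemma range_le_rsum {A : OpSp F K O} (hA : A ∈ Q) {m : ℤ} {φ : A.V →ₗ[F] M.V}
    (hφ : TMap L c m A M φ) (hr : LinearMap.range φ ≤ N) :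
    LinearMap.range φ ≤ rsum L c M N Q :=
  le_iSup (fun x : Src L c M N Q => LinearMap.range x.1.2) ⟨⟨A, φ⟩, hA, ⟨m, hφ⟩, hr⟩

lemma rsum_le_iff {R : Submodule F M.V} : rsum L c M N Q ≤ R ↔
    ∀ A ∈ Q, ∀ (m : ℤ) (φ : A.V →ₗ[F] M.V), TMap L c m A M φ → LinearMap.range φ ≤ N →
      LinearMap.range φ ≤ R := by
  refine ⟨fun h A hA m φ hφ hr => (range_le_rsum hA hφ hr).trans h, fun h => iSup_le ?_⟩
  rintro ⟨⟨A, φ⟩, hA, ⟨m, hφ⟩, hr⟩
  exact h A hA m φ hφ hr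

lemma rsum_le : rsum L c M N Q ≤ N := rsum_le_iff.2 fun _ _ _ _ _ h => h

lemma rsum_mono {Q' : Set (OpSp F K O)} (h : Q ⊆ Q') : rsum L c M N Q ≤ rsum L c M N Q' :=
  rsum_le_iff.2 fun _ hA _ _ hφ hr => range_le_rsum (h hA) hφ hr

lemma rsum_fin (hN : Module.Finite F N) : ∃ s : Finset (Src L c M N Q),
    rsum L c M N Q = ⨆ x : s, LinearMap.range x.1.1.2 := by
  classical
  have h1 : (rsum L c M N Q).FG := by
    have := Submodule.finiteDimensional_of_le (rsum_le (L := L) (c := c) (N := N) (Q := Q))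
    exact Module.Finite.iff_fg.1 this
  rw [Submodule.fg_iff_compact] at h1
  obtain ⟨s, hs⟩ := CompleteLattice.IsCompactElement.exists_finset_of_le_iSup (Submodule F M.V) h1
    (fun x : Src L c M N Q => LinearMap.range x.1.2) le_rfl
  refine ⟨s, le_antisymm (hs.trans ?_) (iSup_le fun x => ?_)⟩
  · exact iSup₂_le fun x hx => le_iSup (fun x : s => LinearMap.range x.1.1.2) ⟨x, hx⟩
  · exact le_iSup (fun x : Src L c M N Q => LinearMap.range x.1.2) x.1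

lemma rsum_stable (hL : Directed' L) (hc : ∀ o, c o ≠ 0) (hN : Module.Finite F N) :
    TStable L M (rsum L c M N Q) := by
  obtain ⟨s, hs⟩ := rsum_fin (L := L) (c := c) (Q := Q) hN
  choose w hw using fun x : s => x.1.2.2.1
  obtain ⟨D, hD, h⟩ := common_level hL (fun x : s => x.1.1.1) w (fun x => x.1.1.2) hw
  refine ⟨D, hD, ?_⟩
  rw [hs, ← Finset.sup_univ_eq_iSup]
  exact stable_sup_range (b := fun x (o : D) => c o ^ w x)
    (fun x o => zpow_ne_zero _ (hc _)) h Finset.univ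

/-- Lifting for maps with image in the sum. -/
lemma tlift_rsum (hL : Directed' L) (hc : ∀ o, c o ≠ 0) (hN : Module.Finite F N)
    (hQ : ∀ B ∈ Q, AllReducible L B) {A : OpSp F K O} {m : ℤ} {φ : A.V →ₗ[F] M.V}
    (hφ : TMap L c m A M φ) (hr : LinearMap.range φ ≤ rsum L c M N Q) :
    ∃ (s : Finset (Src L c M N Q)) (t : ∀ x : s, A.V →ₗ[F] x.1.1.1.V),
      (∀ x, ∃ n, TMap L c n A x.1.1.1 (t x)) ∧ φ = ∑ x : s, x.1.1.2 ∘ₗ t x := by
  obtain ⟨s, hs⟩ := rsum_fin (L := L) (c := c) (Q := Q) hN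
  choose w hw using fun x : s => x.1.2.2.1
  obtain ⟨t, ht, h⟩ := tlift_family hL hc (fun x : s => x.1.1.1) w (fun x => x.1.1.2) hw
    (fun x => hQ _ x.1.2.1) hφ (hs ▸ hr)
  exact ⟨s, t, fun x => ⟨_, ht x⟩, h⟩

/-- **The symmetry lemma.** -/
lemma sym_zero (hL : Directed' L) (hc : ∀ o, c o ≠ 0) {P M B : OpSp F K O}
    (hM : AllReducible L M) (hB : AllReducible L B) {g : M.V →ₗ[F] P.V}
    {e : M.V →ₗ[F] M.V} (he : TMap L c 0 M M e) (hge : ∀ x, g x = 0 → e x = 0)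
    (h : ∀ (n : ℤ) (r : B.V →ₗ[F] M.V), TMap L c n B M r → g ∘ₗ r = 0) {m : ℤ}
    {s : M.V →ₗ[F] B.V} (hs : TMap L c m M B s) : s ∘ₗ e = 0 := by
  have hψ : TMap L c (0 + m) M B (s ∘ₗ e) := TMap.comp hL hc hs he
  obtain ⟨p, hp⟩ := exists_tproj hL hc (tfin_top (c := c) hL hB) (tstable_range hc hψ) le_top
  have h1 : TMap L c 0 B B (p ∘ₗ LinearMap.id) := hp.comp B 0 LinearMap.id (tmap_id hL B) le_top
  rw [LinearMap.comp_id] at h1
  obtain ⟨r, hr, h2⟩ := tlift_one hL hc hψ hM h1 (by rintro _ ⟨x, rfl⟩; exact hp.mem x)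
  have h3 := h _ r hr
  ext x
  have h4 : p (s (e x)) = s (e x) := hp.id _ ⟨x, rfl⟩
  rw [LinearMap.comp_apply, ← h4, h2, LinearMap.comp_apply, LinearMap.comp_apply,
    hge _ (LinearMap.congr_fun h3 _), map_zero, LinearMap.zero_apply]

/-- The projection along the kernel. -/
lemma exists_kerproj (hL : Directed' L) {P M : OpSp F K O} (hM : AllReducible L M) (hc : ∀ o, c o ≠ 0)
    {m : ℤ} {g : M.V →ₗ[F] P.V} (hg : TMap L c m M P g) :
    ∃ e : M.V →ₗ[F] M.V, TMap L c 0 M M e ∧ (∀ x, g x = 0 → e x = 0) ∧ ∀ x, g (e x) = g x := by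
  obtain ⟨C, hC, hC1, hC2⟩ := exists_tcompl hL hc (tfin_top (c := c) hL hM)
    (tstable_ker hg) le_top
  obtain ⟨e, he, he0⟩ := exists_tproj' (c := c) (N := ⊤) hL hC (tstable_ker hg)
    (by rw [inf_comm]; exact hC1) (by rw [sup_comm, hC2])
  have heT := he.comp M 0 LinearMap.id (tmap_id hL _) le_top
  rw [LinearMap.comp_id] at heT
  refine ⟨e, heT, fun x hx => he0 x hx, fun x => ?_⟩
  have hx : x ∈ LinearMap.ker g ⊔ C := by rw [hC2]; trivial
  obtain ⟨x1, hx1, x2, hx2, rfl⟩ := Submodule.mem_sup.1 hx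
  rw [map_add, he0 x1 hx1, he.id x2 hx2, zero_add, map_add, LinearMap.mem_ker.1 hx1, zero_add]

lemma kerproj_zero (hL : Directed' L) (hc : ∀ o, c o ≠ 0) {P M B : OpSp F K O}
    (hM : AllReducible L M) (hB : AllReducible L B) {g : M.V →ₗ[F] P.V}
    {e : M.V →ₗ[F] M.V} (he : TMap L c 0 M M e) (hge : ∀ x, g x = 0 → e x = 0)
    {R : Submodule F P.V} {p : P.V →ₗ[F] P.V} (hp : ∀ x ∈ R, p x = x) (hpg : ∀ x, p (g x) = 0)
    (h : ∀ (n : ℤ) (r : B.V →ₗ[F] M.V), TMap L c n B M r → LinearMap.range (g ∘ₗ r) ≤ R) {m : ℤ}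
    {s : M.V →ₗ[F] B.V} (hs : TMap L c m M B s) (x : M.V) : s (e x) = 0 := by
  have h1 := sym_zero hL hc (P := P) hM hB he hge (fun n r hr => by
    ext y
    have h2 : p (g (r y)) = g (r y) := hp _ (h n r hr ⟨y, rfl⟩)
    rw [hpg] at h2
    rw [LinearMap.comp_apply, ← h2, LinearMap.zero_apply]) hs
  exact LinearMap.congr_fun h1 x

lemma proj_eq_zero (hL : Directed' L) (hc : ∀ o, c o ≠ 0) (hN : Module.Finite F N)
    (hQ : ∀ B ∈ Q, AllReducible L B) {p : M.V →ₗ[F] M.V}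
    (hp : IsTProj L c M N (rsum L c M N Q) p) {A : OpSp F K O} {m : ℤ} {φ : A.V →ₗ[F] M.V}
    (hφ : TMap L c m A M φ) (hr : LinearMap.range φ ≤ N) {y : A.V}
    (h : ∀ T ∈ Q, ∀ (n : ℤ) (t : A.V →ₗ[F] T.V), TMap L c n A T t → t y = 0) :
    p (φ y) = 0 := by
  obtain ⟨s, t, ht, hsum⟩ := tlift_rsum hL hc hN hQ (hp.comp A m φ hφ hr)
    (by rintro _ ⟨x, rfl⟩; exact hp.mem _)
  have h4 : p (φ y) = (∑ x : s, x.1.1.2 ∘ₗ t x) y := LinearMap.congr_fun hsum y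
  rw [h4, LinearMap.sum_apply]
  refine Finset.sum_eq_zero fun x _ => ?_
  obtain ⟨n, hn⟩ := ht x
  rw [LinearMap.comp_apply, h _ x.1.2.1 n (t x) hn, map_zero]

lemma transfer_abs (hL : Directed' L) (hc : ∀ o, c o ≠ 0) (hN : Module.Finite F N)
    (hNf : TFin L c M N) (hQ : ∀ B ∈ Q, AllReducible L B) {M' A : OpSp F K O}
    (hM : AllReducible L M') {U : Submodule F M'.V} {p : M'.V →ₗ[F] M'.V}
    (hp : IsTProj L c M' ⊤ U p)
    (hU : ∀ B ∈ Q, ∀ (n : ℤ) (v : B.V →ₗ[F] M'.V), TMap L c n B M' v → LinearMap.range v ≤ U)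
    {f : M'.V →ₗ[F] M.V} (hf : TMap L c 0 M' M f)
    {m : ℤ} {φ : A.V →ₗ[F] M'.V} (hφ : TMap L c m A M' φ)
    (hr : ∀ (n : ℤ) (h : A.V →ₗ[F] M.V), TMap L c n A M h → (∃ r : A.V →ₗ[F] M'.V, h = f ∘ₗ r) →
      LinearMap.range h ≤ rsum L c M N Q) (y : A.V) : f (φ y - p (φ y)) = 0 := by
  have hg : TMap L c 0 M' M (f ∘ₗ (LinearMap.id - p ∘ₗ LinearMap.id)) := by
    have := TMap.comp hL hc hf (TMap.sub hL (tmap_id hL M') (hp.comp M' 0 LinearMap.id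
      (tmap_id hL M') le_top))
    rwa [add_zero] at this
  set g := f ∘ₗ (LinearMap.id - p ∘ₗ LinearMap.id) with hgdef
  have hgx : ∀ x, g x = f (x - p x) := fun x => rfl
  have hh := TMap.comp hL hc hg hφ
  have hhr := hr _ (g ∘ₗ φ) hh ⟨(LinearMap.id - p ∘ₗ LinearMap.id) ∘ₗ φ, rfl⟩
  obtain ⟨q, hq⟩ := exists_tproj hL hc hNf (tstable_range hc hh) (hhr.trans rsum_le)
  obtain ⟨s, t, ht, hsum⟩ := tlift_rsum hL hc hN hQ hh hhr
  have h1 : ∀ x : s, q ∘ₗ x.1.1.2 = 0 := by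
    intro x
    obtain ⟨w, hw⟩ := x.1.2.2.1
    have h2 := hq.comp _ w x.1.1.2 hw x.1.2.2.2
    obtain ⟨v, hv, h3⟩ := tlift_one hL hc hg hM h2 (by
      rintro _ ⟨z, rfl⟩
      have h4 : q (x.1.1.2 z) ∈ LinearMap.range (g ∘ₗ φ) := hq.mem _
      exact (LinearMap.range_comp_le_range φ g) h4)
    have h5 := hU _ x.1.2.1 _ v hv
    rw [h3]
    ext z
    have h6 : p (v z) = v z := hp.id _ (h5 ⟨z, rfl⟩)
    rw [LinearMap.comp_apply, hgx, h6, sub_self, map_zero, LinearMap.zero_apply]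
  have h2 : q (g (φ y)) = g (φ y) := hq.id _ ⟨y, rfl⟩
  have h3 : g (φ y) = (∑ x : s, x.1.1.2 ∘ₗ t x) y := LinearMap.congr_fun hsum y
  have h4 : q (g (φ y)) = 0 := by
    rw [h3, LinearMap.sum_apply, map_sum]
    exact Finset.sum_eq_zero fun x _ => LinearMap.congr_fun (h1 x) (t x y)
  rw [← hgx, ← h2, h4]

lemma mem_of_rsum (hL : Directed' L) (hc : ∀ o, c o ≠ 0) (hN : Module.Finite F N)
    (hQ : ∀ B ∈ Q, AllReducible L B) {A : OpSp F K O} {m : ℤ} {φ : A.V →ₗ[F] M.V}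
    (hφ : TMap L c m A M φ) (hr : LinearMap.range φ ≤ rsum L c M N Q) {V' : Type*}
    [AddCommGroup V'] [Module F V'] (Λ : (A.V →ₗ[F] M.V) →ₗ[F] V') {R : Submodule F V'}
    (h : ∀ T ∈ Q, ∀ (a : ℤ) (ψ : T.V →ₗ[F] M.V), TMap L c a T M ψ →
      ∀ (b : ℤ) (t : A.V →ₗ[F] T.V), TMap L c b A T t → Λ (ψ ∘ₗ t) ∈ R) : Λ φ ∈ R := by
  obtain ⟨s, t, ht, hsum⟩ := tlift_rsum hL hc hN hQ hφ hr
  rw [hsum, map_sum]
  refine Submodule.sum_mem _ fun x _ => ?_
  obtain ⟨a, ha⟩ := x.1.2.2.1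
  obtain ⟨b, hb⟩ := ht x
  exact h _ x.1.2.1 a x.1.1.2 ha b (t x) hb

end

end Pool.Agent.TH132.U
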