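import Pool.Agent.TH132.E.GFin
import Pool.Agent.TH132.U.Uni
import Pool.Agent.TH132.U.Sort
import Pool.Agent.TH132.U.TDefs

/-!
# The uniform exceptional set for Tate classes with respect to levels
-/

set_option autoImplicit false

open CategoryTheory AlgebraicGeometry TensorProduct

universe u v w

namespace Pool.Agent.TH132.U

open Pool.Agent.H914 Pool.Agent.H914.VarClass Pool.Agent.H914.VarClass.Obj
  Pool.Agent.H914.WeilCohomology Pool.Agent.TH125.Gal Pool.Agent.TH132.E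

variable {k : Type u} [Field k] {𝒱 : VarClass k} {ops : CycleOps 𝒱}
  {W : WeilCohomology.{u, 0} ops} {Γ : Type w} [Group Γ] {χ : Γ →* W.Kˣ}

/-- The levels for the operators. -/
def glevD (𝓓 : Set (Subgroup Γ)) : Set (Set (Option Γ)) :=
  {D | ∃ Δ ∈ 𝓓, D = insert none (some '' (Δ : Set Γ))}

variable {𝓓 : Set (Subgroup Γ)}

lemma glevD_directed (h𝓓 : IsLevels 𝓓) : Directed' (glevD 𝓓) where
  nonempty := by
    obtain ⟨Δ, hΔ⟩ := h𝓓.nonempty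
    exact ⟨_, Δ, hΔ, rfl⟩
  inter := by
    rintro _ ⟨Δ, hΔ, rfl⟩ _ ⟨Δ', hΔ', rfl⟩
    obtain ⟨Δ'', hΔ'', hle⟩ := h𝓓.inter Δ hΔ Δ' hΔ'
    refine ⟨_, ⟨Δ'', hΔ'', rfl⟩, ?_⟩
    intro o ho
    rcases ho with rfl | ⟨g, hg, rfl⟩
    · exact ⟨Or.inl rfl, Or.inl rfl⟩
    · exact ⟨Or.inr ⟨g, (hle hg).1, rfl⟩, Or.inr ⟨g, (hle hg).2, rfl⟩⟩

/-- The variety with its action. -/
def ga (𝓖 : GaloisActions W Γ χ) (X : 𝒱.Obj) : GVar W Γ := ⟨X, 𝓖.act X⟩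

/-- The variety with its operators. -/
noncomputable def gao (𝓖 : GaloisActions W Γ χ) (X : 𝒱.Obj) : OVar W W.K (Option Γ) :=
  govar (ga 𝓖 X)

/-- The operators. -/
noncomputable def gaop (𝓖 : GaloisActions W Γ χ) (X : 𝒱.Obj) (o : Option Γ) :
    W.K ⊗[W.K] W.H X →ₐ[W.K] W.K ⊗[W.K] W.H X := mapBase W.K (gact (ga 𝓖 X) o)

lemma tate_tvecG {A : GVar W Γ} {j : ℕ} {t : W.H A.X}
    (h : t ∈ levelClasses 𝓓 χ (W.gr A.X) A.act j) :
    TVec (glevD 𝓓) (gmul χ) (govar A) j t := by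
  obtain ⟨hgr, Δ, hΔ, h⟩ := h
  refine ⟨_, ⟨Δ, hΔ, rfl⟩, ?_⟩
  have key : ∀ o ∈ insert none (some '' (Δ : Set Γ)),
      mapBase W.K (gact A o) ((1 : W.K) ⊗ₜ[W.K] t) =
        gmul χ o ^ (j : ℤ) • ((1 : W.K) ⊗ₜ[W.K] t) := by
    intro o ho
    rw [Algebra.TensorProduct.map_tmul, map_one, ← TensorProduct.tmul_smul, zpow_natCast]
    congr 1
    rcases ho with rfl | ⟨g, hg, rfl⟩
    · change gradeOp W A.X t = 4 ^ j • t
      rw [gradeOp_gr hgr, pow_mul]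
      norm_num
    · exact h g hg
  exact key

lemma tvec_tateG {A : GVar W Γ} {m : ℤ} {t : W.H A.X}
    (h : TVec (glevD 𝓓) (gmul χ) (govar A) m t) :
    t = 0 ∨ ∃ j : ℕ, m = j ∧ t ∈ levelClasses 𝓓 χ (W.gr A.X) A.act j := by
  obtain ⟨_, ⟨Δ, hΔ, rfl⟩, h⟩ := h
  have key : ∀ o ∈ insert none (some '' (Δ : Set Γ)), gact A o t = gmul χ o ^ m • t := by
    intro o ho
    have h1 : mapBase W.K (gact A o) ((1 : W.K) ⊗ₜ[W.K] t) =
        gmul χ o ^ m • ((1 : W.K) ⊗ₜ[W.K] t) := h o ho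
    rw [Algebra.TensorProduct.map_tmul, map_one, ← TensorProduct.tmul_smul, ← sub_eq_zero,
      ← TensorProduct.tmul_sub] at h1
    exact sub_eq_zero.1 (tmul_injective _ h1)
  by_cases ht : t = 0
  · exact Or.inl ht
  · right
    have h1 : gradeOp W A.X t = (4 : W.K) ^ m • t := key none (Or.inl rfl)
    obtain ⟨i, hi, hit⟩ := eigen_mem (W.isInternal A.X) (two_pow_injective (K := W.K)) h1 ht
    obtain ⟨j, rfl, rfl⟩ := two_pow_eq_zpow hi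
    refine ⟨j, rfl, hit, Δ, hΔ, fun g hg => ?_⟩
    have h2 : A.act g t = (χ g : W.K) ^ (j : ℤ) • t := key (some g) (Or.inr ⟨g, hg, rfl⟩)
    rw [h2, zpow_natCast]

lemma tate_tvecD (𝓖 : GaloisActions W Γ χ) {A : 𝒱.Obj} {j : ℕ} {t : W.H A}
    (h : t ∈ 𝓖.tate 𝓓 A j) : TVec (glevD 𝓓) (gmul χ) (gao 𝓖 A) j t :=
  tate_tvecG (A := ga 𝓖 A) h

lemma tvec_tateD (𝓖 : GaloisActions W Γ χ) {A : 𝒱.Obj} {m : ℤ} {t : W.H A}
    (h : TVec (glevD 𝓓) (gmul χ) (gao 𝓖 A) m t) : t = 0 ∨ ∃ j : ℕ, m = j ∧ t ∈ 𝓖.tate 𝓓 A j :=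
  tvec_tateG (A := ga 𝓖 A) h

lemma prodAct_gao (𝓖 : GaloisActions W Γ χ) (X Y : 𝒱.Obj) :
    ProdAct (gao 𝓖 X) (gao 𝓖 Y) (gaop 𝓖 (X.prod Y)) :=
  prodAct_govar (A := ga 𝓖 X) (B := ga 𝓖 Y) (υ := 𝓖.act (X.prod Y))
    (IsProdVar.mk _ (fun g a => 𝓖.equivariant (fst X Y) g a)
      (fun g a => 𝓖.equivariant (snd X Y) g a))

lemma oclass_gao (𝓖 : GaloisActions W Γ χ) : OClass (gmul χ) (Set.range (gao 𝓖)) where
  tr := by
    rintro _ ⟨A, rfl⟩ o y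
    change formBase W.K (W.tr A) (mapBase W.K (gact (ga 𝓖 A) o) y) =
      gmul χ o ^ A.dim * formBase W.K (W.tr A) y
    have e : ∀ a, W.tr A (gact (ga 𝓖 A) o a) = gmul χ o ^ A.dim * W.tr A a := by
      intro a
      cases o with
      | none => exact gradeOp_tr a
      | some g => exact (𝓖.isGraded A).tr_act g a
    exact formBase_comm e y
  prod := by
    rintro _ ⟨A, rfl⟩ _ ⟨B, rfl⟩
    exact ⟨_, prodAct_gao 𝓖 A B, A.prod B, rfl⟩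

lemma gao_prod_eq (𝓖 : GaloisActions W Γ χ) {X Y : 𝒱.Obj} {υ}
    (h : prodO (gao 𝓖 X) (gao 𝓖 Y) υ ∈ Set.range (gao 𝓖)) : υ = gaop 𝓖 (X.prod Y) := by
  obtain ⟨Z, hZ⟩ := h
  have h1 : Z = X.prod Y := congrArg OVar.X hZ
  subst h1
  have h2 := OVar.mk.inj hZ
  exact (eq_of_heq h2.2).symm

variable {ι : Type}

lemma isProdSet_gao (𝓖 : GaloisActions W Γ χ) {X : ι → 𝒱.Obj} {S : Set ι}
    {A : OVar W W.K (Option Γ)}
    (h : IsProdSet (fun i => gao 𝓖 (X i)) (Set.range (gao 𝓖)) S A) :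
    ∃ B, IsProd X S B ∧ A = gao 𝓖 B := by
  induction h with
  | one i hi => exact ⟨X i, IsProd.one i hi, rfl⟩
  | mul A B υ _ _ hυ hυG ih1 ih2 =>
    obtain ⟨A, hA, rfl⟩ := ih1
    obtain ⟨B, hB, rfl⟩ := ih2
    refine ⟨A.prod B, IsProd.prod A B hA hB, ?_⟩
    rw [gao_prod_eq 𝓖 hυG]
    rfl

lemma isProductOf_gao (𝓖 : GaloisActions W Γ χ) {X : ι → 𝒱.Obj} {S : Set ι} {A : 𝒱.Obj}
    (h : IsProd X S A) :
    IsProdSet (fun i => gao 𝓖 (X i)) (Set.range (gao 𝓖)) S (gao 𝓖 A) := by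
  induction h with
  | one i hi => exact IsProdSet.one i hi
  | prod A B _ _ ih1 ih2 =>
    exact IsProdSet.mul _ _ _ ih1 ih2 (prodAct_gao 𝓖 A B) ⟨A.prod B, rfl⟩

lemma isPow_gao (𝓖 : GaloisActions W Γ χ) {Z : 𝒱.Obj} {M : 𝒱.Obj}
    (h : IsProd (fun _ : Unit => Z) Set.univ M) :
    ∃ n, IsPow (gao 𝓖 Z) (Set.range (gao 𝓖)) n (gao 𝓖 M) := by
  induction h with
  | one i hi => exact ⟨1, IsPow.one⟩
  | prod A B _ _ ih1 ih2 =>
    obtain ⟨m, h1⟩ := ih1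
    obtain ⟨n, h2⟩ := ih2
    exact ⟨m + n, IsPow.mul m n _ _ _ h1 h2 (prodAct_gao 𝓖 A B) ⟨A.prod B, rfl⟩⟩

lemma gao_isPow (𝓖 : GaloisActions W Γ χ) {Z : 𝒱.Obj} {n : ℕ} {A : OVar W W.K (Option Γ)}
    (h : IsPow (gao 𝓖 Z) (Set.range (gao 𝓖)) n A) :
    ∃ M, IsProd (fun _ : Unit => Z) Set.univ M ∧ A = gao 𝓖 M := by
  induction h with
  | one => exact ⟨Z, IsProd.one (X := fun _ : Unit => Z) () trivial, rfl⟩
  | mul m n A B υ _ _ hυ hυG ih1 ih2 =>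
    obtain ⟨A, hA, rfl⟩ := ih1
    obtain ⟨B, hB, rfl⟩ := ih2
    refine ⟨A.prod B, IsProd.prod A B hA hB, ?_⟩
    rw [gao_prod_eq 𝓖 hυG]
    rfl

lemma splitsO_of_tSplits (𝓖 : GaloisActions W Γ χ) {A B : 𝒱.Obj} (h : 𝓖.Splits 𝓓 A B) :
    SplitsO (glevD 𝓓) (gmul χ) (gao 𝓖 A) (gao 𝓖 B) (gaop 𝓖 (A.prod B)) := by
  have key : ∀ m, ∀ t : W.H (A.prod B), TVec (glevD 𝓓) (gmul χ) (gao 𝓖 (A.prod B)) m t →
      t ∈ Submodule.span W.K
        (tProducts (glevD 𝓓) (gmul χ) (gao 𝓖 A) (gao 𝓖 B) : Set (W.H (A.prod B))) := by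
    intro m t ht
    rcases tvec_tateD 𝓖 ht with h0 | ⟨j, rfl, hj⟩
    · rw [h0]
      have h1 : ∀ P : Submodule W.K (W.H (A.prod B)), (0 : W.H (A.prod B)) ∈ P :=
        fun P => P.zero_mem
      exact h1 _
    · have h2 := h j t hj
      have h3 : crossProducts (W.map (fst A B)) (W.map (snd A B)) (𝓖.tate 𝓓 A)
          (𝓖.tate 𝓓 B) j ⊆
          (tProducts (glevD 𝓓) (gmul χ) (gao 𝓖 A) (gao 𝓖 B) : Set (W.H (A.prod B))) := by
        rintro y ⟨i, i', a, b, _, ha, hb, rfl⟩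
        exact ⟨i, i', a, b, tate_tvecD 𝓖 ha, tate_tvecD 𝓖 hb, rfl⟩
      exact Submodule.span_mono h3 h2
  exact key

lemma proj_tprodD (𝓖 : GaloisActions W Γ χ) {A B : 𝒱.Obj} (j : ℕ) {n n' : ℤ} {a : W.H A}
    {b : W.H B} (ha : TVec (glevD 𝓓) (gmul χ) (gao 𝓖 A) n a)
    (hb : TVec (glevD 𝓓) (gmul χ) (gao 𝓖 B) n' b) :
    proj (W.isInternal (A.prod B)) (2 * j)
      (W.map (fst A B) a * W.map (snd A B) b) ∈ Submodule.span W.K
        (crossProducts (W.map (fst A B)) (W.map (snd A B)) (𝓖.tate 𝓓 A) (𝓖.tate 𝓓 B) j) := by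
  rcases tvec_tateD 𝓖 ha with rfl | ⟨i, rfl, hi⟩
  · rw [map_zero, zero_mul, map_zero]
    exact Submodule.zero_mem _
  rcases tvec_tateD 𝓖 hb with rfl | ⟨i', rfl, hi'⟩
  · rw [map_zero, mul_zero, map_zero]
    exact Submodule.zero_mem _
  exact proj_cross (fun _ _ h => h.1) (fun _ _ h => h.1) j hi hi'

lemma tSplits_of_splitsO (𝓖 : GaloisActions W Γ χ) {A B : 𝒱.Obj}
    (h : SplitsO (glevD 𝓓) (gmul χ) (gao 𝓖 A) (gao 𝓖 B) (gaop 𝓖 (A.prod B))) :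
    𝓖.Splits 𝓓 A B := by
  intro j t ht
  have h1 : t ∈ Submodule.span W.K
      (tProducts (glevD 𝓓) (gmul χ) (gao 𝓖 A) (gao 𝓖 B) : Set (W.H (A.prod B))) :=
    h j t (tate_tvecD 𝓖 (A := A.prod B) ht)
  have h2 : proj (W.isInternal (A.prod B)) (2 * j) t = t := proj_same _ ht.1
  rw [← h2]
  refine map_span_mem (S := (tProducts (glevD 𝓓) (gmul χ) (gao 𝓖 A) (gao 𝓖 B) :
    Set (W.H (A.prod B)))) (fun y hy => ?_) h1
  obtain ⟨n, n', a, b, ha, hb, rfl⟩ := hy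
  exact proj_tprodD 𝓖 j ha hb

lemma allReducible_gao (𝓖 : GaloisActions W Γ χ) {A : 𝒱.Obj}
    (hs : IsSemisimpleOn 𝓓 (𝓖.act A)) : AllReducible (glevD 𝓓) (opSp (gao 𝓖 A)) := by
  rintro D ⟨Δ, hΔ, rfl⟩ N hN
  have key : ∀ N : Submodule W.K (W.H A), Stable (fun o : (insert none
      (some '' (Δ : Set Γ)) : Set (Option Γ)) => (opSp (gao 𝓖 A)).τ o) N ↔
        (∀ x ∈ N, gradeOp W A x ∈ N) ∧ ∀ g ∈ Δ, ∀ x ∈ N, 𝓖.act A g x ∈ N := by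
    intro N
    constructor
    · intro h
      refine ⟨?_, fun g hg => ?_⟩
      · exact (stable_base_iff (L := W.K) (f := gradeOp W A)).1 (h ⟨none, Or.inl rfl⟩)
      · exact (stable_base_iff (L := W.K) (f := (𝓖.act A g : W.H A →ₐ[W.K] W.H A))).1
          (h ⟨some g, Or.inr ⟨g, hg, rfl⟩⟩)
    · rintro ⟨h1, h2⟩ ⟨o, ho⟩
      rcases ho with rfl | ⟨g, hg, rfl⟩
      · exact (stable_base_iff (L := W.K) (f := gradeOp W A)).2 h1
      · exact (stable_base_iff (L := W.K) (f := (𝓖.act A g : W.H A →ₐ[W.K] W.H A))).2 (h2 g hg)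
  obtain ⟨hN1, hN2⟩ := (key N).1 hN
  obtain ⟨N', hN', hc⟩ := hs Δ hΔ N hN2
  have hle : N ≤ ⨆ i, N ⊓ W.gr A i :=
    stable_le_iSup (W.isInternal A) (two_pow_injective (K := W.K)) hN1
  obtain ⟨N'', h1, h2, h3⟩ := exists_graded_compl (W.isInternal A) (n := 2 * A.dim + 1)
    (fun i hi => W.gr_eq_bot A i (by omega))
    (S := {f | ∃ g ∈ Δ, f = (𝓖.act A g).toLinearMap}) (by
      rintro _ ⟨g, hg, rfl⟩ i a ha
      exact (𝓖.isGraded A).gr_mem g i a ha) hle (by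
      rintro _ ⟨g, hg, rfl⟩ x hx
      exact hN2 g hg x hx) (by
      rintro _ ⟨g, hg, rfl⟩ x hx
      exact hN' g hg x hx) hc
  exact ⟨N'', (key N'').2 ⟨h1 _, fun g hg x hx => h2 _ ⟨g, hg, rfl⟩ x hx⟩, h3⟩

/-- **The uniform exceptional set for Tate classes.** -/
theorem tate_uniform (𝓖 : GaloisActions W Γ χ) (h𝓓 : IsLevels 𝓓) (X : ι → 𝒱.Obj)
    (hX : 𝓖.Independent 𝓓 X) (hs : 𝓖.Semisimple 𝓓 (IsProd X Set.univ)) (Z : 𝒱.Obj)
    (hZ : 𝓖.Semisimple 𝓓 (IsProd (fun _ : Unit => Z) Set.univ)) :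
    ∃ E₀ : Finset ι, ∀ E : Set ι, (E₀ : Set ι) ⊆ E →
      ∀ M, IsProd (fun _ : Unit => Z) Set.univ M → ∀ A, IsProd X Eᶜ A →
        𝓖.Splits 𝓓 A M ∧ ∀ B, IsProd X E B → 𝓖.Splits 𝓓 A (B.prod M) := by
  have hset : Setup (glevD 𝓓) (gmul χ) (Set.range (gao 𝓖)) (fun i => gao 𝓖 (X i)) (gao 𝓖 Z) :=
    { dir := glevD_directed h𝓓
      ne := gmul_ne χ
      cls := oclass_gao 𝓖
      memX := fun i => ⟨X i, rfl⟩
      memZ := ⟨Z, rfl⟩
      redX := by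
        intro S A hA
        obtain ⟨A, hA', rfl⟩ := isProdSet_gao 𝓖 (hA.mono (Set.subset_univ S))
        exact allReducible_gao 𝓖 (hs A hA')
      redZ := by
        intro n A hA
        obtain ⟨M, hM, rfl⟩ := gao_isPow 𝓖 hA
        exact allReducible_gao 𝓖 (hZ M hM) }
  have hind : Indep (glevD 𝓓) (gmul χ) (Set.range (gao 𝓖)) (fun i => gao 𝓖 (X i)) := by
    intro S A B υ hA hB hυ hυG
    obtain ⟨A, hA', rfl⟩ := isProdSet_gao 𝓖 hA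
    obtain ⟨B, hB', rfl⟩ := isProdSet_gao 𝓖 hB
    rw [gao_prod_eq 𝓖 hυG]
    exact splitsO_of_tSplits 𝓖 (hX S A B hA' hB')
  obtain ⟨E₀, h⟩ := uniform hset hind
  refine ⟨E₀, fun E hE M hM A hA => ?_⟩
  obtain ⟨n, hM'⟩ := isPow_gao 𝓖 hM
  obtain ⟨h1, h2⟩ := h E hE n _ hM' _ (isProductOf_gao 𝓖 hA)
  refine ⟨tSplits_of_splitsO 𝓖 (h1 _ (prodAct_gao 𝓖 A M)), fun B hB => ?_⟩
  exact tSplits_of_splitsO 𝓖 (B := B.prod M) (h2 _ (isProductOf_gao 𝓖 hB) _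
    (prodAct_gao 𝓖 B M) _ (prodAct_gao 𝓖 A (B.prod M)))

lemma tate_pull (𝓖 : GaloisActions W Γ χ) {X Y : 𝒱.Obj} (f : X ⟶ Y) {j : ℕ} {a : W.H Y}
    (ha : a ∈ 𝓖.tate 𝓓 Y j) : W.map f a ∈ 𝓖.tate 𝓓 X j := by
  obtain ⟨ha, Δ, hΔ, ha'⟩ := ha
  refine ⟨W.map_mem f ha, Δ, hΔ, fun g hg => ?_⟩
  rw [𝓖.equivariant f g a, ha' g hg, map_smul]

lemma tSplits_retr {𝓖 : GaloisActions W Γ χ} {A D D' : 𝒱.Obj} (h : Retr D D')
    (hD : 𝓖.Splits 𝓓 A D') : 𝓖.Splits 𝓓 A D := by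
  obtain ⟨f, g, hfg⟩ := h
  intro j t ht
  set F' : A.prod D ⟶ A.prod D' := lift (fst A D) (snd A D ≫ f) with hF
  set G' : A.prod D' ⟶ A.prod D := lift (fst A D') (snd A D' ≫ g) with hG
  have hFG : F' ≫ G' = 𝟙 _ := by
    refine prod_hom_ext ?_ ?_
    · rw [hF, hG, Category.assoc, lift_fst, lift_fst, Category.id_comp]
    · rw [hF, hG, Category.assoc, lift_snd, lift_snd_assoc, Category.assoc, hfg,
        Category.comp_id, Category.id_comp]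
  have h1 := hD j _ (tate_pull 𝓖 G' ht)
  have h2 : W.map F' (W.map G' t) = t := by
    rw [← W.map_comp, hFG, W.map_id]
  rw [← h2]
  refine map_span_mem (f := (W.map F').toLinearMap) (fun y hy => ?_) h1
  obtain ⟨i, i', a, b, hij, ha, hb, rfl⟩ := hy
  refine Submodule.subset_span ⟨i, i', a, W.map f b, hij, ha, tate_pull 𝓖 f hb, ?_⟩
  rw [AlgHom.toLinearMap_apply, map_mul, ← W.map_comp, ← W.map_comp, hF, lift_fst, lift_snd,
    W.map_comp]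

/-- **Tate classes on all products of `Z` and of members of the family.** -/
theorem tateIn_uniform (𝓖 : GaloisActions W Γ χ) (h𝓓 : IsLevels 𝓓) (X : ι → 𝒱.Obj)
    (hX : 𝓖.Independent 𝓓 X) (hs : 𝓖.Semisimple 𝓓 (IsProd X Set.univ)) (Z : 𝒱.Obj)
    (hZ : 𝓖.Semisimple 𝓓 (IsProd (fun _ : Unit => Z) Set.univ)) :
    ∃ E₀ : Finset ι, ∀ T E : Set ι, Disjoint T E₀ → Disjoint T E → ∀ S : Classes W,
      StableMul S → (𝓖.AllTateIn 𝓓 S (IsProd (adjoin Z X) (indices (T ∪ E))) ↔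
        𝓖.AllTateIn 𝓓 S (IsProd X T) ∧ 𝓖.AllTateIn 𝓓 S (IsProd (adjoin Z X) (indices E))) := by
  obtain ⟨E₀, h⟩ := tate_uniform 𝓖 h𝓓 X hX hs Z hZ
  refine ⟨E₀, fun T E hT hTE S hS => ?_⟩
  have h' : ∀ A D, IsProd X T A → IsProd (adjoin Z X) (indices E) D → 𝓖.Splits 𝓓 A D := by
    intro A D hA hD
    have hE : (E₀ : Set ι) ⊆ Tᶜ := Set.disjoint_left.1 hT.symm
    have hD' : IsProd (adjoin Z X) (indices Tᶜ) D :=
      IsProd.mono (S := indices E) (T := indices Tᶜ)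
        (fun o ho i hi => fun hiT => Set.disjoint_left.1 hTE hiT (ho i hi)) hD
    rcases sort_indices Z X Tᶜ hD' with hD | hD | ⟨B, M, hB, hM, hr⟩
    · exact (h Tᶜ hE D hD A (by rwa [compl_compl])).1
    · exact hX T A D hA hD
    · exact tSplits_retr hr ((h Tᶜ hE M hM A (by rwa [compl_compl])).2 B hB)
  constructor
  · refine fun hall => ⟨fun C hC => hall C (isProd_some ?_ hC), fun C hC => hall C (hC.mono ?_)⟩
    · intro i hi j hj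
      obtain rfl := Option.some_injective _ hj
      exact Or.inl hi
    · exact fun o ho i hi => Or.inr (ho i hi)
  · rintro ⟨h1, h2⟩ C hC
    rcases sort_union Z X T E hC with hC | hC | ⟨A, D, hA, hD, ⟨f, g, hfg⟩⟩
    · exact h1 C hC
    · exact h2 C hC
    · intro j t ht
      have h3 : W.map g t ∈ S (A.prod D) j := by
        refine (Submodule.span_le.2 ?_) (h' A D hA hD j _ (tate_pull 𝓖 g ht))
        rintro _ ⟨i, i', a, b, rfl, ha, hb, rfl⟩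
        exact hS.1 _ _ _ _ _ (hS.2 _ _ _ _ _ (h1 A hA i a ha)) (hS.2 _ _ _ _ _ (h2 D hD i' b hb))
      have h4 := hS.2 _ _ f _ _ h3
      rwa [← W.map_comp, hfg, W.map_id] at h4

end Pool.Agent.TH132.U
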